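import Mathlib

set_option autoImplicit false

/-!
# The sharp sieve: definitions

Selberg's weights with a smooth cutoff `g`, full-period averages, Ramanujan sums.
-/

namespace Pool.Agent.H.MP_711652_nt.SH

open Finset

/-- The primes up to `R`. -/
def pr (R : ℕ) : Finset ℕ := (range (R + 1)).filter Nat.Prime

/-- Their product. -/
def PP (R : ℕ) : ℕ := ∏ p ∈ pr R, p

/-- The average over a full period. -/
noncomputable def Ea (R : ℕ) (f : ℕ → ℝ) : ℝ := (∑ n ∈ range (PP R), f n) / PP R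

/-- The normalising factor. -/
noncomputable def nrm (R : ℕ) (g : ℕ → ℝ) : ℝ := ∑ r ∈ (PP R).divisors, g r / Nat.totient r

/-- Selberg's weights for the cutoff `g`. -/
noncomputable def lam (R : ℕ) (g : ℕ → ℝ) (d : ℕ) : ℝ :=
  (ArithmeticFunction.moebius d : ℝ) * d / nrm R g *
    ∑ r ∈ (PP R).divisors.filter (fun r => d ∣ r), g r / Nat.totient r

/-- The divisor sum whose square majorises the primes. -/
noncomputable def Sg (R : ℕ) (g : ℕ → ℝ) (n : ℕ) : ℝ :=
  ∑ d ∈ (PP R).divisors.filter (fun d => d ∣ n), lam R g d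

/-- The cutoff function on the integers. -/
noncomputable def cut (g0 : ℝ → ℝ) (R r : ℕ) : ℝ := g0 (Real.log r / Real.log R)

/-- The local factor. -/
noncomputable def aw (R : ℕ) (T : ℝ) (p : ℕ) : ℝ := min 2 (7 * T * (Real.log p / Real.log R))

/-- Everything that is needed of the cutoff. -/
structure Good (η : ℝ) (g0 K : ℝ → ℝ) (C : ℝ) : Prop where
  nonneg : ∀ x, 0 ≤ g0 x
  le_one : ∀ x, g0 x ≤ 1
  one : ∀ x, 0 ≤ x → x ≤ 1 - η → g0 x = 1
  zero : ∀ x, 1 ≤ x → g0 x = 0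
  K0 : ∀ t, 0 ≤ K t
  Kc : Continuous K
  Ki : ∀ j : ℕ, MeasureTheory.Integrable (fun t => (1 + |t|) ^ j * K t)
  C1 : 1 ≤ C
  bound : ∀ R : ℕ, 2 ≤ R → ∀ n : ℕ, |Sg R (cut g0 R) n| ≤
    C * ∫ t, K t * ∏ p ∈ (pr R).filter (fun p => p ∣ n), aw R (1 + |t|) p

/-- The Ramanujan sum. -/
noncomputable def ram (q h : ℕ) : ℝ :=
  ∑ d ∈ q.divisors.filter (fun d => d ∣ h), (ArithmeticFunction.moebius (q / d) : ℝ) * d

/-- The sum of the Ramanujan sums over the differences in a window of length `H`. -/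
noncomputable def gam (H q : ℕ) : ℝ :=
  ∑ i ∈ range H, ∑ j ∈ range H, ram q ((i : ℤ) - j).natAbs

/-- The Fourier coefficient of `∑ c m 1_{m ∣ n}`. -/
noncomputable def Vq (s : Finset ℕ) (c : ℕ → ℝ) (q : ℕ) : ℝ :=
  ∑ m ∈ s.filter (fun m => q ∣ m), c m / m

/-- The coefficients of the square of a divisor sum. -/
noncomputable def sqc (R : ℕ) (g : ℕ → ℝ) (m : ℕ) : ℝ :=
  ∑ x ∈ ((PP R).divisors ×ˢ (PP R).divisors).filter (fun x => Nat.lcm x.1 x.2 = m),
    lam R g x.1 * lam R g x.2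

end Pool.Agent.H.MP_711652_nt.SH
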