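import Mathlib
import Pool.Agent.H.MP_711652_nt.SH.Defs

set_option autoImplicit false

namespace Pool.Agent.H.MP_711652_nt.SH

open Finset

lemma mem_pr {R p : ℕ} : p ∈ pr R ↔ p.Prime ∧ p ≤ R := by
  unfold pr
  rw [mem_filter, mem_range]
  constructor
  · rintro ⟨h1, h2⟩
    exact ⟨h2, by omega⟩
  · rintro ⟨h1, h2⟩
    exact ⟨by omega, h1⟩

lemma pr_prime {R p : ℕ} (h : p ∈ pr R) : p.Prime := (mem_pr.1 h).1

lemma prod_pos_of_primes {T : Finset ℕ} (hT : ∀ p ∈ T, p.Prime) : 0 < ∏ p ∈ T, p :=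
  Finset.prod_pos fun p hp => (hT p hp).pos

lemma PP_pos (R : ℕ) : 0 < PP R := prod_pos_of_primes fun _ hp => pr_prime hp

lemma PP_ne (R : ℕ) : PP R ≠ 0 := (PP_pos R).ne'

lemma primeFactors_prod {T : Finset ℕ} (hT : ∀ p ∈ T, p.Prime) :
    (∏ p ∈ T, p).primeFactors = T := by
  exact Nat.primeFactors_prod hT

lemma squarefree_prod {T : Finset ℕ} (hT : ∀ p ∈ T, p.Prime) : Squarefree (∏ p ∈ T, p) := by
  induction T using Finset.induction_on with
  | empty => simp
  | insert a s ha ih =>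
    rw [prod_insert ha, Nat.squarefree_mul_iff]
    have h1 := ih fun p hp => hT p (mem_insert_of_mem hp)
    have hap := hT a (mem_insert_self a s)
    refine ⟨?_, hap.prime.squarefree, h1⟩
    rw [Nat.coprime_prod_right_iff]
    intro p hp
    rw [Nat.coprime_primes hap (hT p (mem_insert_of_mem hp))]
    rintro rfl
    exact ha hp

lemma PP_squarefree (R : ℕ) : Squarefree (PP R) := squarefree_prod fun _ hp => pr_prime hp

lemma PP_primeFactors (R : ℕ) : (PP R).primeFactors = pr R :=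
  primeFactors_prod fun _ hp => pr_prime hp

lemma mem_div {R r : ℕ} : r ∈ (PP R).divisors ↔ r ∣ PP R := by
  rw [Nat.mem_divisors]
  exact ⟨fun h => h.1, fun h => ⟨h, PP_ne R⟩⟩

lemma div_squarefree {R r : ℕ} (h : r ∣ PP R) : Squarefree r := (PP_squarefree R).squarefree_of_dvd h

lemma div_pos' {R r : ℕ} (h : r ∣ PP R) : 0 < r := Nat.pos_of_dvd_of_pos h (PP_pos R)

lemma div_pf {R r : ℕ} (h : r ∣ PP R) : r.primeFactors ⊆ pr R := by
  rw [← PP_primeFactors R]
  exact Nat.primeFactors_mono h (PP_ne R)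

lemma prod_dvd {R : ℕ} {T : Finset ℕ} (hT : T ⊆ pr R) : (∏ p ∈ T, p) ∣ PP R :=
  Finset.prod_dvd_prod_of_subset _ _ _ hT

lemma dvd_PP_iff {R r : ℕ} : r ∣ PP R ↔ Squarefree r ∧ r.primeFactors ⊆ pr R := by
  constructor
  · intro h
    exact ⟨div_squarefree h, div_pf h⟩
  · rintro ⟨h1, h2⟩
    rw [← Nat.prod_primeFactors_of_squarefree h1]
    exact prod_dvd h2

/-- Sums over the divisors of `PP R` are sums over the sets of primes. -/
lemma sum_divs {M : Type*} [AddCommMonoid M] (R : ℕ) (f : ℕ → M) :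
    ∑ r ∈ (PP R).divisors, f r = ∑ T ∈ (pr R).powerset, f (∏ p ∈ T, p) := by
  refine Finset.sum_nbij' (fun r => r.primeFactors) (fun T => ∏ p ∈ T, p) ?_ ?_ ?_ ?_ ?_
  · intro r hr
    exact mem_powerset.2 (div_pf (mem_div.1 hr))
  · intro T hT
    exact mem_div.2 (prod_dvd (mem_powerset.1 hT))
  · intro r hr
    exact Nat.prod_primeFactors_of_squarefree (div_squarefree (mem_div.1 hr))
  · intro T hT
    exact primeFactors_prod fun p hp => pr_prime (mem_powerset.1 hT hp)
  · intro r hr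
    rw [Nat.prod_primeFactors_of_squarefree (div_squarefree (mem_div.1 hr))]

/-- Sums over the divisors of a squarefree number. -/
lemma sum_div_sq {M : Type*} [AddCommMonoid M] {q : ℕ} (hq : Squarefree q) (f : ℕ → M) :
    ∑ r ∈ q.divisors, f r = ∑ T ∈ q.primeFactors.powerset, f (∏ p ∈ T, p) := by
  have hq0 : q ≠ 0 := hq.ne_zero
  refine Finset.sum_nbij' (fun r => r.primeFactors) (fun T => ∏ p ∈ T, p) ?_ ?_ ?_ ?_ ?_
  · intro r hr
    exact mem_powerset.2 (Nat.primeFactors_mono (Nat.dvd_of_mem_divisors hr) hq0)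
  · intro T hT
    rw [Nat.mem_divisors]
    refine ⟨?_, hq0⟩
    conv_rhs => rw [← Nat.prod_primeFactors_of_squarefree hq]
    exact Finset.prod_dvd_prod_of_subset _ _ _ (mem_powerset.1 hT)
  · intro r hr
    exact Nat.prod_primeFactors_of_squarefree (hq.squarefree_of_dvd (Nat.dvd_of_mem_divisors hr))
  · intro T hT
    exact primeFactors_prod fun p hp => Nat.prime_of_mem_primeFactors (mem_powerset.1 hT hp)
  · intro r hr
    rw [Nat.prod_primeFactors_of_squarefree (hq.squarefree_of_dvd (Nat.dvd_of_mem_divisors hr))]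

lemma prod_dvd_iff {T : Finset ℕ} (hT : ∀ p ∈ T, p.Prime) (n : ℕ) :
    (∏ p ∈ T, p) ∣ n ↔ ∀ p ∈ T, p ∣ n := by
  constructor
  · intro h p hp
    exact (Finset.dvd_prod_of_mem _ hp).trans h
  · intro h
    exact Finset.prod_primes_dvd n (fun p hp => (hT p hp).prime) h

lemma totient_prod {T : Finset ℕ} (hT : ∀ p ∈ T, p.Prime) :
    (Nat.totient (∏ p ∈ T, p) : ℝ) = ∏ p ∈ T, ((p : ℝ) - 1) := by
  induction T using Finset.induction_on with
  | empty => simp
  | insert a s ha ih =>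
    have hap := hT a (mem_insert_self a s)
    have hcop : Nat.Coprime a (∏ p ∈ s, p) := by
      rw [Nat.coprime_prod_right_iff]
      intro p hp
      rw [Nat.coprime_primes hap (hT p (mem_insert_of_mem hp))]
      rintro rfl
      exact ha hp
    rw [prod_insert ha, Nat.totient_mul hcop, Nat.totient_prime hap, prod_insert ha]
    push_cast
    rw [ih fun p hp => hT p (mem_insert_of_mem hp), Nat.cast_sub hap.one_lt.le]
    push_cast
    ring

lemma totient_sq {r : ℕ} (hr : Squarefree r) :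
    (Nat.totient r : ℝ) = ∏ p ∈ r.primeFactors, ((p : ℝ) - 1) := by
  conv_lhs => rw [← Nat.prod_primeFactors_of_squarefree hr]
  exact totient_prod fun p hp => Nat.prime_of_mem_primeFactors hp

lemma moebius_prod {T : Finset ℕ} (hT : ∀ p ∈ T, p.Prime) :
    ((ArithmeticFunction.moebius (∏ p ∈ T, p) : ℤ) : ℝ) = ∏ p ∈ T, (-1 : ℝ) := by
  have h1 := ArithmeticFunction.isMultiplicative_moebius.map_prod_of_prime T hT
  rw [h1]
  push_cast
  apply prod_congr rfl
  intro p hp
  rw [ArithmeticFunction.moebius_apply_prime (hT p hp)]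
  simp

/-! ### Averages -/

lemma Ea_add (R : ℕ) (f g : ℕ → ℝ) : Ea R (fun n => f n + g n) = Ea R f + Ea R g := by
  unfold Ea
  rw [sum_add_distrib, add_div]

lemma Ea_mul (R : ℕ) (c : ℝ) (f : ℕ → ℝ) : Ea R (fun n => c * f n) = c * Ea R f := by
  unfold Ea
  rw [← mul_sum, mul_div_assoc]

lemma Ea_sum {ι : Type*} (R : ℕ) (s : Finset ι) (f : ι → ℕ → ℝ) :
    Ea R (fun n => ∑ i ∈ s, f i n) = ∑ i ∈ s, Ea R (f i) := by
  unfold Ea
  rw [sum_comm, sum_div]

lemma Ea_mono (R : ℕ) (f g : ℕ → ℝ) (h : ∀ n, f n ≤ g n) : Ea R f ≤ Ea R g := by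
  unfold Ea
  exact div_le_div_of_nonneg_right (sum_le_sum fun n _ => h n) (Nat.cast_nonneg _)

lemma Ea_nonneg (R : ℕ) (f : ℕ → ℝ) (h : ∀ n, 0 ≤ f n) : 0 ≤ Ea R f :=
  div_nonneg (sum_nonneg fun n _ => h n) (Nat.cast_nonneg _)

/-- The number of multiples of `d` below a multiple of `d`. -/
lemma card_dvd_range {d N : ℕ} (hd : 0 < d) (h : d ∣ N) :
    ((range N).filter (fun n => d ∣ n)).card = N / d := by
  obtain ⟨k, rfl⟩ := h
  rw [Nat.mul_div_cancel_left _ hd]
  have : (range (d * k)).filter (fun n => d ∣ n) = (range k).image (fun i => d * i) := by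
    ext n
    rw [mem_filter, mem_range, mem_image]
    constructor
    · rintro ⟨h1, i, rfl⟩
      exact ⟨i, mem_range.2 (lt_of_mul_lt_mul_left h1 (Nat.zero_le d)), rfl⟩
    · rintro ⟨i, hi, rfl⟩
      exact ⟨Nat.mul_lt_mul_of_pos_left (mem_range.1 hi) hd, dvd_mul_right d i⟩
  rw [this, card_image_of_injective, card_range]
  intro a b hab
  exact Nat.eq_of_mul_eq_mul_left hd hab

lemma Ea_ind {R d : ℕ} (hd : d ∣ PP R) : Ea R (fun n => if d ∣ n then (1 : ℝ) else 0) = 1 / d := by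
  unfold Ea
  have hd0 : 0 < d := div_pos' hd
  rw [← sum_filter, sum_const, card_dvd_range hd0 hd, nsmul_eq_mul, mul_one, Nat.cast_div hd]
  · have h1 : (PP R : ℝ) ≠ 0 := by exact_mod_cast PP_ne R
    field_simp
  · exact_mod_cast hd0.ne'

end Pool.Agent.H.MP_711652_nt.SH
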