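import Mathlib
import Pool.Agent.H.MP_711652_nt.SH.Defs
import Pool.Agent.H.MP_711652_nt.SH.Basic

set_option autoImplicit false

namespace Pool.Agent.H.MP_711652_nt.SH

open Finset

/-- **Independence.** PROOF. `if p ∣ n then v else u = u + (v - u) 1_{p ∣ n}`; expand the product over
`T ⊆ pr R` (`Finset.prod_add`), `∏_{p ∈ T} 1_{p ∣ n} = 1_{∏ T ∣ n}`, whose average over `range (PP R)` is
`1 / ∏ T` as `∏ T ∣ PP R`. -/
theorem avg_prod (R : ℕ) (u v : ℕ → ℝ) :
    Ea R (fun n => ∏ p ∈ pr R, if p ∣ n then v p else u p) =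
      ∏ p ∈ pr R, ((1 - 1 / (p : ℝ)) * u p + 1 / (p : ℝ) * v p) := by
  have h1 : (fun n : ℕ => ∏ p ∈ pr R, if p ∣ n then v p else u p) = fun n =>
      ∑ T ∈ (pr R).powerset, ((∏ p ∈ T, (v p - u p)) * ∏ p ∈ pr R \ T, u p) *
        (if (∏ p ∈ T, p) ∣ n then (1 : ℝ) else 0) := by
    funext n
    have h2 : ∏ p ∈ pr R, (if p ∣ n then v p else u p) =
        ∏ p ∈ pr R, ((v p - u p) * (if p ∣ n then (1 : ℝ) else 0) + u p) := by
      apply prod_congr rfl
      intro p _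
      split_ifs <;> ring
    rw [h2, Finset.prod_add]
    apply sum_congr rfl
    intro T hT
    rw [prod_mul_distrib]
    have h3 : ∏ p ∈ T, (if p ∣ n then (1 : ℝ) else 0) =
        if (∏ p ∈ T, p) ∣ n then (1 : ℝ) else 0 := by
      rw [Finset.prod_ite_zero]
      simp only [prod_const_one]
      have h4 := prod_dvd_iff (fun p hp => pr_prime (mem_powerset.1 hT hp)) n
      by_cases h5 : (∏ p ∈ T, p) ∣ n
      · rw [if_pos h5, if_pos (h4.1 h5)]
      · rw [if_neg h5, if_neg fun h => h5 (h4.2 h)]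
    rw [h3]
    ring
  rw [h1, Ea_sum]
  simp only [Ea_mul]
  have h6 : ∏ p ∈ pr R, ((1 - 1 / (p : ℝ)) * u p + 1 / (p : ℝ) * v p) =
      ∏ p ∈ pr R, ((v p - u p) * (1 / (p : ℝ)) + u p) := by
    apply prod_congr rfl
    intro p _
    ring
  rw [h6, Finset.prod_add]
  apply sum_congr rfl
  intro T hT
  rw [Ea_ind (prod_dvd (mem_powerset.1 hT)), prod_mul_distrib]
  have h7 : ∏ p ∈ T, (1 / (p : ℝ)) = 1 / ((∏ p ∈ T, p : ℕ) : ℝ) := by
    rw [prod_div_distrib, prod_const_one]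
    push_cast
    rfl
  rw [h7]
  ring

end Pool.Agent.H.MP_711652_nt.SH
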