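import Mathlib
import Pool.Agent.H.MP_711652_nt.SH.Indep
import Pool.Agent.H.MP_711652_nt.QW.Prim
import Pool.Agent.H.MP_711652_nt.QW.DivSums

set_option autoImplicit false

namespace Pool.Agent.H.MP_711652_nt.SH

open Finset

/-- `∑_{d ∣ r, d ∣ n} μ(d) d` for squarefree `r`. -/
lemma mu_sum {r : ℕ} (hr : Squarefree r) (n : ℕ) :
    ∑ d ∈ r.divisors.filter (fun d => d ∣ n), ((ArithmeticFunction.moebius d : ℤ) : ℝ) * d =
      ∏ p ∈ r.primeFactors, (if p ∣ n then (1 - p : ℝ) else 1) := by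
  rw [sum_filter, sum_div_sq hr]
  have h1 : ∏ p ∈ r.primeFactors, (if p ∣ n then (1 - p : ℝ) else 1) =
      ∏ p ∈ r.primeFactors, (1 + (if p ∣ n then (-p : ℝ) else 0)) := by
    apply prod_congr rfl
    intro p _
    split_ifs <;> ring
  rw [h1, Finset.prod_one_add]
  apply sum_congr rfl
  intro T hT
  have hTp : ∀ p ∈ T, p.Prime := fun p hp => Nat.prime_of_mem_primeFactors (mem_powerset.1 hT hp)
  rw [Finset.prod_ite_zero]
  have h4 := prod_dvd_iff hTp n
  by_cases h5 : (∏ p ∈ T, p) ∣ n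
  · rw [if_pos h5, if_pos (h4.1 h5), moebius_prod hTp]
    push_cast
    rw [← prod_mul_distrib]
    apply prod_congr rfl
    intro p _
    ring
  · rw [if_neg h5, if_neg fun h => h5 (h4.2 h)]

/-- PROOF. Exchange the sums; `∑_{d ∣ r, d ∣ n} μ(d) d = ∏_{p ∣ r, p ∣ n} (1 - p)` for squarefree `r`. -/
theorem Sg_eq (R : ℕ) (g : ℕ → ℝ) (n : ℕ) :
    Sg R g n = (1 / nrm R g) * ∑ r ∈ (PP R).divisors, g r / Nat.totient r *
      ∏ p ∈ r.primeFactors, (if p ∣ n then (1 - p : ℝ) else 1) := by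
  unfold Sg lam
  have h1 : ∀ r ∈ (PP R).divisors, g r / Nat.totient r *
      ∏ p ∈ r.primeFactors, (if p ∣ n then (1 - p : ℝ) else 1) =
      ∑ d ∈ (PP R).divisors.filter (fun d => d ∣ n), (if d ∣ r then g r / Nat.totient r *
        (((ArithmeticFunction.moebius d : ℤ) : ℝ) * d) else 0) := by
    intro r hr
    rw [← mu_sum (div_squarefree (mem_div.1 hr)), mul_sum, sum_ite, sum_const_zero, add_zero]
    apply sum_congr _ fun _ _ => rfl
    ext d
    rw [mem_filter, mem_filter, mem_filter, Nat.mem_divisors, mem_div]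
    have h2 := mem_div.1 hr
    constructor
    · rintro ⟨⟨h3, h4⟩, h5⟩
      exact ⟨⟨h3.trans h2, h5⟩, h3⟩
    · rintro ⟨⟨h3, h4⟩, h5⟩
      exact ⟨⟨h5, (div_pos' h2).ne'⟩, h4⟩
  rw [sum_congr rfl h1, sum_comm, mul_sum]
  apply sum_congr rfl
  intro d _
  rw [sum_filter, mul_sum, mul_sum]
  apply sum_congr rfl
  intro r _
  split_ifs <;> ring

/-- The mean of a product of two of the functions. -/
lemma orth {R : ℕ} {T T' : Finset ℕ} (hT : T ⊆ pr R) (hT' : T' ⊆ pr R) :
    Ea R (fun n => (∏ p ∈ T, (if p ∣ n then (1 - p : ℝ) else 1)) *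
      ∏ p ∈ T', (if p ∣ n then (1 - p : ℝ) else 1)) =
      if T = T' then ∏ p ∈ T, ((p : ℝ) - 1) else 0 := by
  have h1 : (fun n : ℕ => (∏ p ∈ T, (if p ∣ n then (1 - p : ℝ) else 1)) *
      ∏ p ∈ T', (if p ∣ n then (1 - p : ℝ) else 1)) = fun n => ∏ p ∈ pr R,
        if p ∣ n then ((if p ∈ T then (1 - p : ℝ) else 1) * (if p ∈ T' then (1 - p : ℝ) else 1))
        else 1 := by
    funext n
    have e1 : ∀ {U : Finset ℕ}, U ⊆ pr R → ∏ p ∈ U, (if p ∣ n then (1 - p : ℝ) else 1) =
        ∏ p ∈ pr R, if p ∈ U then (if p ∣ n then (1 - p : ℝ) else 1) else 1 := by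
      intro U hU
      rw [Finset.prod_ite_mem, inter_eq_right.2 hU]
    rw [e1 hT, e1 hT', ← prod_mul_distrib]
    apply prod_congr rfl
    intro p hp
    by_cases h2 : p ∣ n <;> by_cases h3 : p ∈ T <;> by_cases h4 : p ∈ T' <;> simp [h2, h3, h4]
  rw [h1, avg_prod R (fun _ => 1) (fun p => (if p ∈ T then (1 - p : ℝ) else 1) *
    (if p ∈ T' then (1 - p : ℝ) else 1))]
  by_cases h5 : T = T'
  · subst h5
    rw [if_pos rfl]
    have h6 : ∀ p ∈ pr R, ((1 - 1 / (p : ℝ)) * 1 + 1 / (p : ℝ) *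
        ((if p ∈ T then (1 - p : ℝ) else 1) * (if p ∈ T then (1 - p : ℝ) else 1))) =
        if p ∈ T then ((p : ℝ) - 1) else 1 := by
      intro p hp
      have hp0 : (p : ℝ) ≠ 0 := by exact_mod_cast (pr_prime hp).ne_zero
      split_ifs
      · field_simp
        ring
      · field_simp
        ring
    rw [prod_congr rfl h6, ← prod_filter, Finset.filter_mem_eq_inter, inter_eq_right.2 hT]
  · rw [if_neg h5]
    obtain ⟨p, hp⟩ : ∃ p, ¬ (p ∈ T ↔ p ∈ T') := by
      by_contra h
      push Not at h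
      exact h5 (Finset.ext h)
    have hpR : p ∈ pr R := by
      by_contra h
      exact hp ⟨fun h' => absurd (hT h') h, fun h' => absurd (hT' h') h⟩
    apply prod_eq_zero hpR
    have hp0 : (p : ℝ) ≠ 0 := by exact_mod_cast (pr_prime hpR).ne_zero
    by_cases h3 : p ∈ T <;> by_cases h4 : p ∈ T'
    · exact absurd ⟨fun _ => h4, fun _ => h3⟩ hp
    · simp only [h3, h4, if_true, if_false]
      field_simp
      ring
    · simp only [h3, h4, if_true, if_false]
      field_simp
      ring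
    · exact absurd ⟨fun h => absurd h h3, fun h => absurd h h4⟩ hp

/-- PROOF. `Sg_eq`, `avg_prod`: for `r ≠ r'` some factor has mean `(1 - 1/p) + (1 - p)/p = 0`, and for
`r = r'` the factors are `(1 - 1/p) + (p - 1)^2/p = p - 1`. -/
theorem mean_sq (R : ℕ) (g : ℕ → ℝ) :
    Ea R (fun n => (Sg R g n) ^ 2) =
      (1 / nrm R g) ^ 2 * ∑ r ∈ (PP R).divisors, g r ^ 2 / Nat.totient r := by
  have h1 : (fun n : ℕ => (Sg R g n) ^ 2) = fun n => (1 / nrm R g) ^ 2 *
      ∑ r ∈ (PP R).divisors, ∑ r' ∈ (PP R).divisors, (g r / Nat.totient r *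
        (g r' / Nat.totient r')) * ((∏ p ∈ r.primeFactors, (if p ∣ n then (1 - p : ℝ) else 1)) *
        ∏ p ∈ r'.primeFactors, (if p ∣ n then (1 - p : ℝ) else 1)) := by
    funext n
    rw [Sg_eq, mul_pow, sq (∑ r ∈ (PP R).divisors, _), sum_mul_sum]
    congr 1
    apply sum_congr rfl
    intro r _
    apply sum_congr rfl
    intro r' _
    ring
  rw [h1, Ea_mul, Ea_sum]
  congr 1
  apply sum_congr rfl
  intro r hr
  rw [Ea_sum]
  have h2 : ∀ r' ∈ (PP R).divisors, Ea R (fun n => (g r / Nat.totient r *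
        (g r' / Nat.totient r')) * ((∏ p ∈ r.primeFactors, (if p ∣ n then (1 - p : ℝ) else 1)) *
        ∏ p ∈ r'.primeFactors, (if p ∣ n then (1 - p : ℝ) else 1))) =
      if r' = r then g r ^ 2 / Nat.totient r else 0 := by
    intro r' hr'
    rw [Ea_mul, orth (div_pf (mem_div.1 hr)) (div_pf (mem_div.1 hr'))]
    by_cases h3 : r' = r
    · subst h3
      rw [if_pos rfl, if_pos rfl, ← totient_sq (div_squarefree (mem_div.1 hr'))]
      have h4 : ((Nat.totient r' : ℕ) : ℝ) ≠ 0 := by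
        have := Nat.totient_pos.2 (div_pos' (mem_div.1 hr'))
        exact_mod_cast this.ne'
      field_simp
    · rw [if_neg h3, if_neg, mul_zero]
      intro h4
      apply h3
      rw [← Nat.prod_primeFactors_of_squarefree (div_squarefree (mem_div.1 hr')), ← h4,
        Nat.prod_primeFactors_of_squarefree (div_squarefree (mem_div.1 hr))]
  rw [sum_congr rfl h2, sum_ite_eq' _ _ _, if_pos hr]

/-- PROOF. Only `d = 1` divides `n`; `lam 1 = 1`. -/
theorem Sg_coprime (R : ℕ) (g : ℕ → ℝ) (hN : nrm R g ≠ 0) (n : ℕ) (hn : Nat.Coprime n (PP R)) :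
    Sg R g n = 1 := by
  unfold Sg
  have h1 : (PP R).divisors.filter (fun d => d ∣ n) = {1} := by
    ext d
    rw [mem_filter, mem_div, mem_singleton]
    constructor
    · rintro ⟨h1, h2⟩
      exact Nat.eq_one_of_dvd_coprimes hn h2 h1
    · rintro rfl
      exact ⟨one_dvd _, one_dvd _⟩
  rw [h1, sum_singleton]
  unfold lam
  have h2 : (PP R).divisors.filter (fun r => 1 ∣ r) = (PP R).divisors :=
    filter_true_of_mem fun r _ => one_dvd r
  rw [h2]
  unfold nrm at hN ⊢
  simp only [ArithmeticFunction.moebius_apply_one, Nat.cast_one, Int.cast_one, one_mul]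
  field_simp

lemma inv_totient {l : ℕ} (hl : Squarefree l) :
    (l : ℝ)⁻¹ * ∏ p ∈ l.primeFactors, (1 - (p : ℝ)⁻¹)⁻¹ = 1 / Nat.totient l := by
  rw [totient_sq hl]
  conv_lhs => rw [← Nat.prod_primeFactors_of_squarefree hl]
  push_cast
  rw [primeFactors_prod fun p hp => Nat.prime_of_mem_primeFactors hp, ← prod_inv_distrib,
    ← prod_mul_distrib, one_div, ← prod_inv_distrib]
  apply prod_congr rfl
  intro p hp
  have hp1 : (1 : ℝ) < p := by exact_mod_cast (Nat.prime_of_mem_primeFactors hp).one_lt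
  have h1 : (p : ℝ) ≠ 0 := by linarith
  have h2 : (p : ℝ) - 1 ≠ 0 := by linarith
  rw [← mul_inv, mul_sub, mul_one, mul_inv_cancel₀ h1]

lemma sum_totient_ge (z : ℕ) : Real.log ((z + 1 : ℕ) : ℝ) ≤
    ∑ l ∈ (Icc 1 z).filter Squarefree, (1 : ℝ) / Nat.totient l := by
  refine (log_add_one_le_harmonic z).trans ?_
  rw [harmonic_eq_sum_Icc]
  push_cast
  have hmaps : ∀ n ∈ Icc 1 z,
      (∏ p ∈ n.primeFactors, p) ∈ (Icc 1 z).filter Squarefree := by
    intro n hn
    rw [mem_Icc] at hn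
    rw [mem_filter, mem_Icc]
    have h1 : ∀ p ∈ n.primeFactors, p.Prime := fun p hp => Nat.prime_of_mem_primeFactors hp
    exact ⟨⟨prod_pos_of_primes h1, (Nat.le_of_dvd (by omega) (Nat.prod_primeFactors_dvd n)).trans
      hn.2⟩, squarefree_prod h1⟩
  rw [← sum_fiberwise_of_maps_to hmaps]
  apply sum_le_sum
  intro l hl
  rw [mem_filter] at hl
  rw [← inv_totient hl.2]
  refine le_trans ?_ (QW.sum_rad1_le z l hl.2)
  apply sum_le_sum_of_subset_of_nonneg
  · intro n hn
    rw [mem_filter] at hn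
    rw [mem_filter]
    refine ⟨hn.1, ?_⟩
    rw [← hn.2]
    symm
    apply Nat.primeFactors_prod
    intro p hp
    exact Nat.prime_of_mem_primeFactors hp
  · intro n _ _
    positivity

/-- PROOF. `1/φ(r) = ∑_{rad n = r} 1/n` (or `log_le_Gsum1` of `QW/Prim`): the sum over squarefree
`r ≤ z` of `1/φ(r)` is at least `log z`; `cut g0 R r = 1` for `r ≤ R ^ (1 - η)`. -/
theorem nrm_ge (η : ℝ) (hη : 0 < η) (hη1 : η < 1) (g0 : ℝ → ℝ) (h0 : ∀ x, 0 ≤ g0 x)
    (h1 : ∀ x, 0 ≤ x → x ≤ 1 - η → g0 x = 1) (R : ℕ) (hR : 2 ≤ R) :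
    (1 - η) * Real.log R ≤ nrm R (cut g0 R) := by
  have hR1 : (1 : ℝ) < R := by exact_mod_cast (show 1 < R by omega)
  have hR0 : (0 : ℝ) < R := by linarith
  have hlog : 0 < Real.log R := Real.log_pos hR1
  set x : ℝ := (R : ℝ) ^ (1 - η) with hx
  have hx0 : 0 < x := Real.rpow_pos_of_pos hR0 _
  have h2 : (1 - η) * Real.log R = Real.log x := by rw [hx, Real.log_rpow hR0]
  have h3 : Real.log x ≤ Real.log ((⌊x⌋₊ + 1 : ℕ) : ℝ) := by
    apply Real.log_le_log hx0
    push_cast
    exact (Nat.lt_floor_add_one x).le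
  rw [h2]
  refine h3.trans ((sum_totient_ge ⌊x⌋₊).trans ?_)
  unfold nrm
  have hxR : x ≤ R := by
    rw [hx]
    calc (R : ℝ) ^ (1 - η) ≤ (R : ℝ) ^ (1 : ℝ) :=
          Real.rpow_le_rpow_of_exponent_le hR1.le (by linarith)
      _ = R := Real.rpow_one _
  have h4 : ∀ l ∈ (Icc 1 ⌊x⌋₊).filter Squarefree, (1 : ℝ) / Nat.totient l =
      cut g0 R l / Nat.totient l := by
    intro l hl
    rw [mem_filter, mem_Icc] at hl
    have hl1 : (1 : ℝ) ≤ l := by exact_mod_cast hl.1.1
    have hlx : (l : ℝ) ≤ x := (Nat.cast_le.2 hl.1.2).trans (Nat.floor_le hx0.le)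
    unfold cut
    rw [h1]
    · exact div_nonneg (Real.log_nonneg hl1) hlog.le
    · rw [div_le_iff₀ hlog, h2]
      exact Real.log_le_log (by linarith) hlx
  rw [sum_congr rfl h4]
  apply sum_le_sum_of_subset_of_nonneg
  · intro l hl
    rw [mem_filter, mem_Icc] at hl
    have hlx : (l : ℝ) ≤ x := (Nat.cast_le.2 hl.1.2).trans (Nat.floor_le hx0.le)
    have hlR : l ≤ R := by exact_mod_cast hlx.trans hxR
    rw [mem_div, dvd_PP_iff]
    refine ⟨hl.2, fun p hp => ?_⟩
    rw [mem_pr]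
    exact ⟨Nat.prime_of_mem_primeFactors hp,
      (Nat.le_of_dvd (by omega) (Nat.dvd_of_mem_primeFactors hp)).trans hlR⟩
  · intro l _ _
    exact div_nonneg (h0 _) (Nat.cast_nonneg _)

lemma card_divisors_sq {m : ℕ} (hm : Squarefree m) :
    (m.divisors.card : ℝ) = 2 ^ m.primeFactors.card := by
  have h1 : m.divisors.card = ∑ r ∈ m.divisors, 1 := by simp
  rw [h1, sum_div_sq hm]
  simp

lemma div_totient_le {m : ℕ} (hm : Squarefree m) :
    (m : ℝ) / Nat.totient m ≤ m.divisors.card := by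
  rw [totient_sq hm, card_divisors_sq hm]
  have h1 : (m : ℝ) = ∏ p ∈ m.primeFactors, (p : ℝ) := by
    conv_lhs => rw [← Nat.prod_primeFactors_of_squarefree hm]
    push_cast
    rfl
  rw [h1, ← prod_div_distrib, ← prod_const]
  apply prod_le_prod
  · intro p hp
    have hp1 : (2 : ℝ) ≤ p := by exact_mod_cast (Nat.prime_of_mem_primeFactors hp).two_le
    exact div_nonneg (by linarith) (by linarith)
  · intro p hp
    have hp1 : (2 : ℝ) ≤ p := by exact_mod_cast (Nat.prime_of_mem_primeFactors hp).two_le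
    rw [div_le_iff₀ (by linarith)]
    linarith

lemma sum_inv_totient (z : ℕ) :
    ∑ m ∈ (Icc 1 z).filter Squarefree, (1 : ℝ) / Nat.totient m ≤ (1 + Real.log z) ^ 2 := by
  have h1 := QW.Ts_le 1 z
  refine le_trans ?_ (h1.trans (le_of_eq (by norm_num)))
  unfold QW.Ts
  calc ∑ m ∈ (Icc 1 z).filter Squarefree, (1 : ℝ) / Nat.totient m ≤
      ∑ m ∈ (Icc 1 z).filter Squarefree, ((m.divisors.card : ℝ) ^ 1) / m := by
        apply sum_le_sum
        intro m hm
        rw [mem_filter, mem_Icc] at hm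
        have hm0 : (0 : ℝ) < m := by exact_mod_cast hm.1.1
        have h2 : (0 : ℝ) < Nat.totient m := by exact_mod_cast Nat.totient_pos.2 hm.1.1
        have h3 := div_totient_le hm.2
        rw [div_le_iff₀ h2] at h3
        rw [pow_one, div_le_div_iff₀ h2 hm0, one_mul]
        exact h3
    _ ≤ _ := sum_le_sum_of_subset_of_nonneg (filter_subset _ _) fun m _ _ => by positivity

/-- PROOF. `lam d` is a sum over `r` with `d ≤ r ≤ R`; `|lam d| ≤ (d / φ d) / nrm * ∑_{m ≤ R} 1/φ(m)`,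
`d / φ(d) ≤ τ(d)`, `∑_{m ≤ R squarefree} 1/φ(m) ≤ ∑_{m ≤ R} τ(m)/m ≤ (1 + log R)^2`. -/
theorem lam_bound (R : ℕ) (hR : 2 ≤ R) (g : ℕ → ℝ) (h0 : ∀ r, 0 ≤ g r) (h1 : ∀ r, g r ≤ 1)
    (h2 : ∀ r, R < r → g r = 0) (hN : 0 < nrm R g) (d : ℕ) (hd : d ∣ PP R) :
    (R < d → lam R g d = 0) ∧
      |lam R g d| ≤ d.divisors.card * (1 + Real.log R) ^ 2 / nrm R g := by
  have hd0 : 0 < d := div_pos' hd
  have hsum : ∑ r ∈ (PP R).divisors.filter (fun r => d ∣ r), g r / Nat.totient r ≤
      1 / Nat.totient d * (1 + Real.log R) ^ 2 := by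
    calc ∑ r ∈ (PP R).divisors.filter (fun r => d ∣ r), g r / Nat.totient r ≤
        ∑ r ∈ ((PP R).divisors.filter (fun r => d ∣ r)).filter (fun r => r ≤ R),
          1 / (Nat.totient r : ℝ) := by
          rw [sum_filter (p := fun r => r ≤ R)]
          apply sum_le_sum
          intro r _
          split_ifs with h
          · exact div_le_div_of_nonneg_right (h1 r) (Nat.cast_nonneg _)
          · rw [h2 r (by omega), zero_div]
      _ = ∑ r ∈ ((PP R).divisors.filter (fun r => d ∣ r)).filter (fun r => r ≤ R),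
          1 / (Nat.totient d : ℝ) * (1 / Nat.totient (r / d) : ℝ) := by
          apply sum_congr rfl
          intro r hr
          rw [mem_filter, mem_filter, mem_div] at hr
          obtain ⟨⟨h3, k, rfl⟩, h5⟩ := hr
          have h6 := (Nat.squarefree_mul_iff.1 (div_squarefree h3)).1
          rw [Nat.mul_div_cancel_left _ hd0, Nat.totient_mul h6]
          push_cast
          rw [div_mul_div_comm, one_mul]
      _ = 1 / (Nat.totient d : ℝ) *
          ∑ m ∈ (((PP R).divisors.filter (fun r => d ∣ r)).filter (fun r => r ≤ R)).image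
            (fun r => r / d), (1 / Nat.totient m : ℝ) := by
          rw [← mul_sum, sum_image]
          intro a ha b hb hab
          rw [mem_coe, mem_filter, mem_filter] at ha hb
          obtain ⟨⟨-, k, rfl⟩, -⟩ := ha
          obtain ⟨⟨-, l, rfl⟩, -⟩ := hb
          simp only [Nat.mul_div_cancel_left _ hd0] at hab
          rw [hab]
      _ ≤ 1 / (Nat.totient d : ℝ) * ∑ m ∈ (Icc 1 R).filter Squarefree,
            (1 / Nat.totient m : ℝ) := by
          apply mul_le_mul_of_nonneg_left _ (by positivity)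
          apply sum_le_sum_of_subset_of_nonneg
          · intro m hm
            rw [mem_image] at hm
            obtain ⟨r, hr, rfl⟩ := hm
            rw [mem_filter, mem_filter, mem_div] at hr
            obtain ⟨⟨h3, k, rfl⟩, h5⟩ := hr
            rw [Nat.mul_div_cancel_left _ hd0, mem_filter, mem_Icc]
            have h6 := (Nat.squarefree_mul_iff.1 (div_squarefree h3)).2.2
            refine ⟨⟨Nat.pos_of_ne_zero h6.ne_zero, ?_⟩, h6⟩
            exact (Nat.le_mul_of_pos_left k hd0).trans h5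
          · intro m _ _
            positivity
      _ ≤ _ := mul_le_mul_of_nonneg_left (sum_inv_totient R) (by positivity)
  have hnn : 0 ≤ ∑ r ∈ (PP R).divisors.filter (fun r => d ∣ r), g r / Nat.totient r :=
    sum_nonneg fun r _ => div_nonneg (h0 r) (Nat.cast_nonneg _)
  constructor
  · intro hRd
    unfold lam
    have : ∑ r ∈ (PP R).divisors.filter (fun r => d ∣ r), g r / Nat.totient r = 0 := by
      apply sum_eq_zero
      intro r hr
      rw [mem_filter, mem_div] at hr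
      rw [h2 r (hRd.trans_le (Nat.le_of_dvd (div_pos' hr.1) hr.2)), zero_div]
    rw [this, mul_zero]
  · unfold lam
    have hmu : |((ArithmeticFunction.moebius d : ℤ) : ℝ)| ≤ 1 := by
      exact_mod_cast ArithmeticFunction.abs_moebius_le_one
    rw [abs_mul, abs_div, abs_mul, abs_of_nonneg hnn, abs_of_pos hN, Nat.abs_cast]
    have hdt := div_totient_le (div_squarefree hd)
    have h5 : (0 : ℝ) ≤ (1 + Real.log R) ^ 2 := by positivity
    calc |((ArithmeticFunction.moebius d : ℤ) : ℝ)| * (d : ℝ) / nrm R g *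
        ∑ r ∈ (PP R).divisors.filter (fun r => d ∣ r), g r / Nat.totient r ≤
        1 * (d : ℝ) / nrm R g * (1 / Nat.totient d * (1 + Real.log R) ^ 2) := by
          apply mul_le_mul _ hsum hnn (by positivity)
          apply div_le_div_of_nonneg_right _ hN.le
          exact mul_le_mul_of_nonneg_right hmu (Nat.cast_nonneg _)
      _ = (d : ℝ) / Nat.totient d * (1 + Real.log R) ^ 2 / nrm R g := by ring
      _ ≤ _ := by
          apply div_le_div_of_nonneg_right _ hN.le
          exact mul_le_mul_of_nonneg_right hdt h5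

end Pool.Agent.H.MP_711652_nt.SH
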