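import Mathlib
import Pool.Agent.H.MP_711652_nt.SH.Basic
import Pool.Agent.H.MP_3e6494_nt.PrimeSum

set_option autoImplicit false

namespace Pool.Agent.H.MP_711652_nt.SH

open Finset

lemma pr_eq (x : ℕ) : pr x = MP_3e6494_nt.prm x := by
  ext p
  rw [mem_pr, MP_3e6494_nt.mem_prm]

lemma logs_le_two : Real.log 4 ≤ 2 := by
  have h1 : Real.log 4 = 2 * Real.log 2 := by
    rw [show (4 : ℝ) = 2 ^ 2 by norm_num, Real.log_pow]
    norm_num
  have := Real.log_two_lt_d9
  linarith

theorem sum_log_div : ∀ x : ℕ, 1 ≤ x → ∑ p ∈ pr x, Real.log p / p ≤ Real.log x + 2 := by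
  intro x hx
  have h1 := MP_3e6494_nt.mert_upper hx
  unfold MP_3e6494_nt.mert at h1
  rw [← pr_eq] at h1
  linarith [logs_le_two]

lemma sum_log_div_ge (x : ℕ) (hx : 1 ≤ x) : Real.log x - 9 ≤ ∑ p ∈ pr x, Real.log p / p := by
  have h1 := MP_3e6494_nt.mert_lower hx
  unfold MP_3e6494_nt.mert at h1
  rwa [← pr_eq] at h1

lemma sum_pr_succ (x : ℕ) (f : ℕ → ℝ) :
    ∑ p ∈ pr (x + 1), f p = (∑ p ∈ pr x, f p) + if (x + 1).Prime then f (x + 1) else 0 := by
  unfold pr
  rw [sum_filter, sum_range_succ, ← sum_filter]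

/-- Partial summation, as an induction. -/
lemma sum_inv_aux (x : ℕ) (hx : 2 ≤ x) :
    Real.log (Real.log x) - Real.log (Real.log 2) - 10 * (1 / Real.log 2 - 1 / Real.log x) ≤
      (∑ p ∈ pr x, 1 / (p : ℝ)) - (∑ p ∈ pr x, Real.log p / p) / Real.log x ∧
    (∑ p ∈ pr x, 1 / (p : ℝ)) - (∑ p ∈ pr x, Real.log p / p) / Real.log x ≤
      Real.log (Real.log x) - Real.log (Real.log 2) + 2 * (1 / Real.log 2 - 1 / Real.log x) := by
  induction x, hx using Nat.le_induction with
  | base =>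
    have h1 : pr 2 = {2} := by decide
    have h2 : Real.log 2 ≠ 0 := (Real.log_pos (by norm_num)).ne'
    rw [h1, sum_singleton, sum_singleton]
    push_cast
    have h3 : (1 / 2 : ℝ) - Real.log 2 / 2 / Real.log 2 = 0 := by
      field_simp
      norm_num
    rw [h3]
    constructor <;> linarith
  | succ x hx ih =>
    have hx1 : (2 : ℝ) ≤ x := by exact_mod_cast hx
    have hl0 : 0 < Real.log x := Real.log_pos (by linarith)
    have hl1 : 0 < Real.log ((x + 1 : ℕ) : ℝ) := Real.log_pos (by push_cast; linarith)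
    set A := ∑ p ∈ pr x, Real.log p / p with hA
    set F := ∑ p ∈ pr x, 1 / (p : ℝ) with hF
    set l := Real.log x with hl
    set l' := Real.log ((x + 1 : ℕ) : ℝ) with hl'
    have hll : l ≤ l' := Real.log_le_log (by linarith) (by push_cast; linarith)
    have hstep : (∑ p ∈ pr (x + 1), 1 / (p : ℝ)) - (∑ p ∈ pr (x + 1), Real.log p / p) / l' =
        (F - A / l) + A * (1 / l - 1 / l') := by
      rw [sum_pr_succ, sum_pr_succ, ← hA, ← hF]
      have h0 : ((x + 1 : ℕ) : ℝ) ≠ 0 := by push_cast; linarith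
      split_ifs with hp
      · rw [← hl']
        field_simp
        ring
      · rw [add_zero, add_zero]
        ring
    rw [hstep]
    have hAu : A ≤ l + 2 := sum_log_div x (by omega)
    have hAl : l - 9 ≤ A := sum_log_div_ge x (by omega)
    have hδ : l' - l ≤ 1 := by
      rw [hl, hl', ← Real.log_div (by push_cast; linarith) (by linarith)]
      have h3 : ((x + 1 : ℕ) : ℝ) / x ≤ 2 := by
        rw [div_le_iff₀ (by linarith)]
        push_cast
        linarith
      have h4 := Real.log_le_sub_one_of_pos (show 0 < ((x + 1 : ℕ) : ℝ) / x by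
        push_cast
        apply div_pos <;> linarith)
      linarith
    have hbb : 0 ≤ 1 / l - 1 / l' := by
      have := one_div_le_one_div_of_le hl0 hll
      linarith
    have hup : (l' - l) / l' ≤ Real.log l' - Real.log l := by
      rw [← Real.log_div hl1.ne' hl0.ne']
      have h5 := Real.one_sub_inv_le_log_of_pos (show 0 < l' / l from div_pos hl1 hl0)
      refine le_trans (le_of_eq ?_) h5
      field_simp
    have hlo : Real.log l' - Real.log l ≤ (l' - l) / l := by
      rw [← Real.log_div hl1.ne' hl0.ne']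
      have h5 := Real.log_le_sub_one_of_pos (show 0 < l' / l from div_pos hl1 hl0)
      refine h5.trans (le_of_eq ?_)
      field_simp
    have e1 : l * (1 / l - 1 / l') = (l' - l) / l' := by
      field_simp
    have e2 : (l' - l) / l - (l' - l) / l' = (l' - l) * (1 / l - 1 / l') := by
      field_simp
    have h6 : (l' - l) * (1 / l - 1 / l') ≤ 1 / l - 1 / l' := by
      nlinarith
    have h7 : A * (1 / l - 1 / l') ≤ (l + 2) * (1 / l - 1 / l') :=
      mul_le_mul_of_nonneg_right hAu hbb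
    have h8 : (l - 9) * (1 / l - 1 / l') ≤ A * (1 / l - 1 / l') :=
      mul_le_mul_of_nonneg_right hAl hbb
    have e3 : (l + 2) * (1 / l - 1 / l') = l * (1 / l - 1 / l') + 2 * (1 / l - 1 / l') := by ring
    have e4 : (l - 9) * (1 / l - 1 / l') = l * (1 / l - 1 / l') - 9 * (1 / l - 1 / l') := by ring
    rw [e3, e1] at h7
    rw [e4, e1] at h8
    constructor
    · linarith [ih.1]
    · linarith [ih.2]

/-- **Mertens.** PROOF. `mert_lower`, `mert_upper` (`∑_{p ≤ N} log p / p = log N + O(9)`, file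
`MP_3e6494_nt/PrimeSum`) and partial summation: `∑_{p ≤ N} 1/p = log log N + O(1)`. -/
theorem sum_inv : ∃ C : ℝ, ∀ x : ℕ, 2 ≤ x →
    |∑ p ∈ pr x, 1 / (p : ℝ) - Real.log (Real.log x)| ≤ C := by
  refine ⟨100, fun x hx => ?_⟩
  obtain ⟨h1, h2⟩ := sum_inv_aux x hx
  have hx1 : (2 : ℝ) ≤ x := by exact_mod_cast hx
  have hl2 := Real.log_two_gt_d9
  have hlx : Real.log 2 ≤ Real.log x := Real.log_le_log (by norm_num) hx1
  have hl0 : 0 < Real.log x := by linarith
  have hb1 : 1 / Real.log 2 ≤ 2 := by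
    rw [div_le_iff₀ (by linarith)]
    linarith
  have hb2 : 0 ≤ 1 / Real.log x := by positivity
  have hb3 : 1 / Real.log x ≤ 2 := by
    rw [div_le_iff₀ hl0]
    linarith
  have hA1 := sum_log_div x (by omega)
  have hA2 := sum_log_div_ge x (by omega)
  have h3 : (∑ p ∈ pr x, Real.log p / p) / Real.log x ≤ 5 := by
    rw [div_le_iff₀ hl0]
    linarith
  have h4 : -20 ≤ (∑ p ∈ pr x, Real.log p / p) / Real.log x := by
    rw [le_div_iff₀ hl0]
    linarith
  have h5 : -1 ≤ Real.log (Real.log 2) := by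
    rw [Real.le_log_iff_exp_le (by linarith)]
    have := Real.exp_neg_one_lt_d9
    linarith
  have h6 : Real.log (Real.log 2) ≤ 0 := by
    apply Real.log_nonpos (by linarith)
    have := Real.log_two_lt_d9
    linarith
  rw [abs_le]
  constructor <;> linarith

lemma sum_inv_sq (R : ℕ) : ∑ p ∈ pr R, 1 / ((p : ℝ) * (p - 1)) ≤ 1 := by
  have h1 : ∀ n : ℕ, ∑ k ∈ Icc 2 (n + 1), 1 / ((k : ℝ) * (k - 1)) = 1 - 1 / ((n : ℝ) + 1) := by
    intro n
    induction n with
    | zero => simp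
    | succ n ih =>
      rw [sum_Icc_succ_top (by omega), ih]
      push_cast
      have h2 : (n : ℝ) + 1 ≠ 0 := by positivity
      have h3 : (n : ℝ) + 1 + 1 ≠ 0 := by positivity
      field_simp
      ring
  calc ∑ p ∈ pr R, 1 / ((p : ℝ) * (p - 1)) ≤ ∑ k ∈ Icc 2 (R + 1), 1 / ((k : ℝ) * (k - 1)) := by
        apply sum_le_sum_of_subset_of_nonneg
        · intro p hp
          rw [mem_pr] at hp
          rw [mem_Icc]
          exact ⟨hp.1.two_le, by omega⟩
        · intro k hk _
          rw [mem_Icc] at hk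
          have : (2 : ℝ) ≤ k := by exact_mod_cast hk.1
          apply div_nonneg zero_le_one
          apply mul_nonneg <;> linarith
    _ = 1 - 1 / ((R : ℝ) + 1) := h1 R
    _ ≤ 1 := by
        have : 0 ≤ 1 / ((R : ℝ) + 1) := by positivity
        linarith

/-- PROOF. `∏ (1 - 1/p)⁻¹ = ∏ (1 + 1/(p-1)) ≤ exp (∑ 1/(p-1)) ≤ exp (∑ 1/p + ∑ 1/(p (p-1)))`. -/
theorem prod_inv : ∃ C : ℝ, 1 ≤ C ∧ ∀ R : ℕ, 2 ≤ R →
    ∏ p ∈ pr R, ((p : ℝ) / (p - 1)) ≤ C * Real.log R := by
  obtain ⟨C, hC⟩ := sum_inv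
  have hC0 : 0 ≤ C := (abs_nonneg _).trans (hC 2 le_rfl)
  refine ⟨Real.exp (C + 1), Real.one_le_exp (by linarith), fun R hR => ?_⟩
  have hR1 : (1 : ℝ) < R := by exact_mod_cast (show 1 < R by omega)
  have hl : 0 < Real.log R := Real.log_pos hR1
  have h1 : ∏ p ∈ pr R, ((p : ℝ) / (p - 1)) ≤ ∏ p ∈ pr R,
      Real.exp (1 / (p : ℝ) + 1 / ((p : ℝ) * (p - 1))) := by
    apply prod_le_prod
    · intro p hp
      have : (2 : ℝ) ≤ p := by exact_mod_cast (pr_prime hp).two_le
      apply div_nonneg <;> linarith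
    · intro p hp
      have h2 : (2 : ℝ) ≤ p := by exact_mod_cast (pr_prime hp).two_le
      have h3 : (p : ℝ) / (p - 1) = (1 / (p : ℝ) + 1 / ((p : ℝ) * (p - 1))) + 1 := by
        have : (p : ℝ) ≠ 0 := by linarith
        have : (p : ℝ) - 1 ≠ 0 := by linarith
        field_simp
        ring
      rw [h3]
      exact Real.add_one_le_exp _
  refine h1.trans ?_
  rw [← Real.exp_sum, sum_add_distrib]
  have h2 := (abs_le.1 (hC R hR)).2
  have h3 := sum_inv_sq R
  calc Real.exp (∑ p ∈ pr R, 1 / (p : ℝ) + ∑ p ∈ pr R, 1 / ((p : ℝ) * (p - 1))) ≤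
      Real.exp ((C + 1) + Real.log (Real.log R)) := by
        apply Real.exp_le_exp.2
        linarith
    _ = Real.exp (C + 1) * Real.log R := by
        rw [Real.exp_add, Real.exp_log hl]

lemma aw_nonneg {R : ℕ} (hR : 2 ≤ R) {T : ℝ} (hT : 1 ≤ T) (p : ℕ) : 0 ≤ aw R T p := by
  unfold aw
  have hR1 : (1 : ℝ) < R := by exact_mod_cast (show 1 < R by omega)
  have hl : 0 < Real.log R := Real.log_pos hR1
  have hp : 0 ≤ Real.log (p : ℝ) := Real.log_natCast_nonneg p
  exact le_min (by norm_num) (by positivity)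

lemma aw_le_two (R : ℕ) (T : ℝ) (p : ℕ) : aw R T p ≤ 2 := min_le_left _ _

lemma sum_aw (j : ℕ) (hj : 1 ≤ j) : ∃ C : ℝ, ∀ R : ℕ, 2 ≤ R → ∀ T : ℝ, 1 ≤ T →
    ∑ p ∈ pr R, aw R T p ^ j / p ≤ C + 2 ^ j * Real.log T := by
  obtain ⟨C, hC⟩ := sum_inv
  have hC0 : 0 ≤ C := (abs_nonneg _).trans (hC 2 le_rfl)
  refine ⟨2 ^ j * (Real.log 14 + 2 * C + 3), fun R hR T hT => ?_⟩
  have hR1 : (1 : ℝ) < R := by exact_mod_cast (show 1 < R by omega)
  have hR0 : (0 : ℝ) < R := by linarith
  have hl : 0 < Real.log R := Real.log_pos hR1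
  have hT0 : 0 < T := by linarith
  have hlT : 0 ≤ Real.log T := Real.log_nonneg hT
  have h2j : (0 : ℝ) < 2 ^ j := by positivity
  have hbig : ∀ p ∈ pr R, aw R T p ^ j / p ≤ 2 ^ j * (1 / (p : ℝ)) := by
    intro p _
    rw [mul_one_div]
    apply div_le_div_of_nonneg_right _ (Nat.cast_nonneg _)
    exact pow_le_pow_left₀ (aw_nonneg hR hT p) (aw_le_two R T p) j
  have hsumR := (abs_le.1 (hC R hR)).2
  set w : ℝ := (R : ℝ) ^ (1 / (7 * T)) with hw
  have hw0 : 0 < w := Real.rpow_pos_of_pos hR0 _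
  have hlw : Real.log w = Real.log R / (7 * T) := by
    rw [hw, Real.log_rpow hR0]
    ring
  obtain ⟨y, hy⟩ : ∃ y : ℕ, y = ⌊w⌋₊ := ⟨_, rfl⟩
  have hyw : (y : ℝ) ≤ w := by rw [hy]; exact Nat.floor_le hw0.le
  have hwy : w < (y : ℝ) + 1 := by rw [hy]; exact Nat.lt_floor_add_one w
  rcases Nat.lt_or_ge y 2 with hy2 | hy2
  · have h1 : w < 2 := by
      have : (y : ℝ) ≤ 1 := by exact_mod_cast (show y ≤ 1 by omega)
      linarith
    have h2 : Real.log R / (7 * T) ≤ 1 := by
      rw [← hlw]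
      have := Real.log_le_sub_one_of_pos hw0
      linarith
    have h3 : Real.log R ≤ 14 * T := by
      rw [div_le_iff₀ (by positivity)] at h2
      linarith
    have h4 : Real.log (Real.log R) ≤ Real.log 14 + Real.log T := by
      rw [← Real.log_mul (by norm_num) hT0.ne']
      exact Real.log_le_log hl h3
    calc ∑ p ∈ pr R, aw R T p ^ j / p ≤ ∑ p ∈ pr R, 2 ^ j * (1 / (p : ℝ)) := sum_le_sum hbig
      _ = 2 ^ j * ∑ p ∈ pr R, 1 / (p : ℝ) := by rw [mul_sum]
      _ ≤ 2 ^ j * (Real.log 14 + Real.log T + C) := by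
          apply mul_le_mul_of_nonneg_left _ h2j.le
          linarith
      _ ≤ _ := by nlinarith
  · have hy2' : (2 : ℝ) ≤ y := by exact_mod_cast hy2
    have hly : 0 < Real.log y := Real.log_pos (by linarith)
    have hyR : y ≤ R := by
      have h1 : w ≤ R := by
        rw [hw]
        calc (R : ℝ) ^ (1 / (7 * T)) ≤ (R : ℝ) ^ (1 : ℝ) := by
              apply Real.rpow_le_rpow_of_exponent_le hR1.le
              rw [div_le_one (by positivity)]
              linarith
          _ = R := Real.rpow_one _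
      exact_mod_cast hyw.trans h1
    have hlw2 : Real.log w ≤ 2 * Real.log y := by
      have h1 : w ≤ (y : ℝ) ^ 2 := by nlinarith
      have h2 := Real.log_le_log hw0 h1
      rw [Real.log_pow] at h2
      exact_mod_cast h2
    have h3 : Real.log R ≤ 14 * T * Real.log y := by
      rw [hlw, div_le_iff₀ (by positivity)] at hlw2
      linarith
    have h4 : Real.log (Real.log R) ≤ Real.log 14 + Real.log T + Real.log (Real.log y) := by
      rw [← Real.log_mul (by norm_num) hT0.ne', ← Real.log_mul (by positivity) hly.ne']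
      exact Real.log_le_log hl h3
    have hsumy := (abs_le.1 (hC y hy2)).1
    -- small primes
    have hsub : pr y ⊆ pr R := by
      intro p hp
      rw [mem_pr] at hp ⊢
      exact ⟨hp.1, by omega⟩
    have hsmall : ∑ p ∈ pr y, aw R T p ^ j / p ≤ 2 ^ j * 3 := by
      have h5 : ∀ p ∈ pr y, aw R T p ^ j / p ≤
          2 ^ (j - 1) * (7 * T / Real.log R) * (Real.log p / p) := by
        intro p _
        have h6 : aw R T p ^ j ≤ 2 ^ (j - 1) * (7 * T * (Real.log p / Real.log R)) := by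
          obtain ⟨i, rfl⟩ : ∃ i, j = i + 1 := ⟨j - 1, by omega⟩
          rw [Nat.add_sub_cancel, pow_succ]
          apply mul_le_mul _ (min_le_right _ _) (aw_nonneg hR hT p) (by positivity)
          exact pow_le_pow_left₀ (aw_nonneg hR hT p) (aw_le_two R T p) i
        calc aw R T p ^ j / p ≤ 2 ^ (j - 1) * (7 * T * (Real.log p / Real.log R)) / p :=
              div_le_div_of_nonneg_right h6 (Nat.cast_nonneg _)
          _ = _ := by ring
      refine (sum_le_sum h5).trans ?_
      rw [← mul_sum]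
      have h7 := sum_log_div y (by omega)
      have h8 : (7 * T / Real.log R) * (Real.log y + 2) ≤ 5 := by
        have h9 : Real.log y ≤ Real.log R / (7 * T) := by
          rw [← hlw]
          exact Real.log_le_log (by linarith) hyw
        have h10 : Real.log 2 ≤ Real.log y := Real.log_le_log (by norm_num) hy2'
        have h11 := Real.log_two_gt_d9
        have h12 : Real.log y + 2 ≤ 5 * (Real.log R / (7 * T)) := by linarith
        calc (7 * T / Real.log R) * (Real.log y + 2) ≤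
            (7 * T / Real.log R) * (5 * (Real.log R / (7 * T))) := by
              apply mul_le_mul_of_nonneg_left h12 (by positivity)
          _ = 5 := by field_simp
      have h13 : (2 : ℝ) ^ j = 2 ^ (j - 1) * 2 := by
        obtain ⟨i, rfl⟩ : ∃ i, j = i + 1 := ⟨j - 1, by omega⟩
        rw [Nat.add_sub_cancel, pow_succ]
      have h14 : (0 : ℝ) < 2 ^ (j - 1) := by positivity
      calc 2 ^ (j - 1) * (7 * T / Real.log R) * ∑ p ∈ pr y, Real.log p / p ≤
          2 ^ (j - 1) * (7 * T / Real.log R) * (Real.log y + 2) := by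
            apply mul_le_mul_of_nonneg_left h7 (by positivity)
        _ = 2 ^ (j - 1) * ((7 * T / Real.log R) * (Real.log y + 2)) := by ring
        _ ≤ 2 ^ (j - 1) * 5 := mul_le_mul_of_nonneg_left h8 h14.le
        _ ≤ 2 ^ j * 3 := by
            rw [h13]
            linarith
    have hlarge : ∑ p ∈ pr R \ pr y, aw R T p ^ j / p ≤
        2 ^ j * (Real.log 14 + Real.log T + 2 * C) := by
      calc ∑ p ∈ pr R \ pr y, aw R T p ^ j / p ≤ ∑ p ∈ pr R \ pr y, 2 ^ j * (1 / (p : ℝ)) :=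
            sum_le_sum fun p hp => hbig p (mem_sdiff.1 hp).1
        _ = 2 ^ j * (∑ p ∈ pr R, 1 / (p : ℝ) - ∑ p ∈ pr y, 1 / (p : ℝ)) := by
            rw [← mul_sum, ← sum_sdiff hsub]
            ring
        _ ≤ _ := by
            apply mul_le_mul_of_nonneg_left _ h2j.le
            linarith
    rw [← sum_sdiff hsub]
    calc _ ≤ 2 ^ j * (Real.log 14 + Real.log T + 2 * C) + 2 ^ j * 3 := add_le_add hlarge hsmall
      _ = _ := by ring

/-- PROOF. `∏ (1 + x_p) ≤ exp (∑ x_p)`. Let `y` be the integer part of `R ^ (1 / (7 T))`. For `p ≤ y`: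
`aw ^ j ≤ 2 ^ j * (7 T log p / log R)`, sum `≤ 2 ^ j (7 T / log R) (log y + 2) ≤ C`. For `y < p ≤ R`:
`aw ^ j ≤ 2 ^ j`, and `∑_{y < p ≤ R} 1/p ≤ log (log R / log y) + C ≤ log T + C` (if `y < 2` then
`log R ≤ 7 T`, and the whole sum over `p ≤ R` is `≤ log log R + C ≤ log T + C`). Finally
`- ∑_{p ≤ R} 1/p ≤ - log log R + C`. -/
theorem prod_aw (j : ℕ) (hj : 1 ≤ j) : ∃ C : ℝ, 1 ≤ C ∧ ∀ R : ℕ, 2 ≤ R → ∀ T : ℝ, 1 ≤ T →
    ∏ p ∈ pr R, (1 + (aw R T p ^ j - 1) / p) ≤ C * T ^ (2 ^ j) / Real.log R := by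
  obtain ⟨C, hC⟩ := sum_inv
  have hC0 : 0 ≤ C := (abs_nonneg _).trans (hC 2 le_rfl)
  obtain ⟨C', hC'⟩ := sum_aw j hj
  refine ⟨Real.exp (|C'| + C), Real.one_le_exp (by positivity), fun R hR T hT => ?_⟩
  have hR1 : (1 : ℝ) < R := by exact_mod_cast (show 1 < R by omega)
  have hl : 0 < Real.log R := Real.log_pos hR1
  have hT0 : 0 < T := by linarith
  have h1 : ∏ p ∈ pr R, (1 + (aw R T p ^ j - 1) / p) ≤
      ∏ p ∈ pr R, Real.exp ((aw R T p ^ j - 1) / p) := by
    apply prod_le_prod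
    · intro p hp
      have h2 : (1 : ℝ) < p := by exact_mod_cast (pr_prime hp).one_lt
      have h3 : 0 ≤ aw R T p ^ j := pow_nonneg (aw_nonneg hR hT p) j
      have h4 : -1 ≤ (aw R T p ^ j - 1) / p := by
        rw [le_div_iff₀ (by linarith)]
        linarith
      linarith
    · intro p _
      have := Real.add_one_le_exp ((aw R T p ^ j - 1) / p)
      linarith
  refine h1.trans ?_
  rw [← Real.exp_sum]
  have h2 : ∑ p ∈ pr R, (aw R T p ^ j - 1) / p =
      ∑ p ∈ pr R, aw R T p ^ j / p - ∑ p ∈ pr R, 1 / (p : ℝ) := by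
    rw [← sum_sub_distrib]
    apply sum_congr rfl
    intro p _
    ring
  have h3 := hC' R hR T hT
  have h4 := (abs_le.1 (hC R hR)).1
  have h5 := le_abs_self C'
  calc Real.exp (∑ p ∈ pr R, (aw R T p ^ j - 1) / p) ≤
      Real.exp ((|C'| + C) + ((2 ^ j : ℕ) : ℝ) * Real.log T - Real.log (Real.log R)) := by
        apply Real.exp_le_exp.2
        rw [h2]
        push_cast
        linarith
    _ = _ := by
        rw [Real.exp_sub, Real.exp_add, Real.exp_nat_mul, Real.exp_log hT0, Real.exp_log hl]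

end Pool.Agent.H.MP_711652_nt.SH
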