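import Mathlib
import Pool.Agent.H.MP_711652_nt.SH.Alg
import Pool.Agent.H.MP_711652_nt.SH.Mert

set_option autoImplicit false

namespace Pool.Agent.H.MP_711652_nt.SH

open Finset MeasureTheory FourierTransform ContDiff

/-- **The cutoff.** PROOF. `g0` = `ContDiffBump` centred at `0` with radii `1 - η`, `1`;
`h x = g0 x * exp x` is smooth with compact support, so a Schwartz function
(`HasCompactSupport.toSchwartzMap`), `F = 𝓕 h` is a Schwartz function, Fourier inversion
(`Continuous.fourierInv_fourier_eq`): `h x = ∫ F t exp (2 π i t x) dt`, divide by `exp x`. -/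
theorem cutoff (η : ℝ) (hη : 0 < η) (hη1 : η < 1) : ∃ (g0 : ℝ → ℝ) (F : ℝ → ℂ),
    (∀ x, 0 ≤ g0 x) ∧ (∀ x, g0 x ≤ 1) ∧ (∀ x, 0 ≤ x → x ≤ 1 - η → g0 x = 1) ∧
    (∀ x, 1 ≤ x → g0 x = 0) ∧ Continuous F ∧
    (∀ j : ℕ, Integrable (fun t => (1 + |t|) ^ j * ‖F t‖)) ∧
    ∀ x : ℝ, ((g0 x : ℝ) : ℂ) =
      ∫ t : ℝ, F t * Complex.exp (-(x * (1 - 2 * Real.pi * t * Complex.I))) := by
  obtain ⟨b, hb1, hb2⟩ : ∃ b : ContDiffBump (0 : ℝ), b.rIn = 1 - η ∧ b.rOut = 1 :=
    ⟨⟨1 - η, 1, by linarith, by linarith⟩, rfl, rfl⟩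
  have hcs : HasCompactSupport (fun x : ℝ => ((b x * Real.exp x : ℝ) : ℂ)) := by
    have h1 : HasCompactSupport (fun x : ℝ => b x * Real.exp x) := b.hasCompactSupport.mul_right
    exact h1.comp_left (g := fun y : ℝ => (y : ℂ)) Complex.ofReal_zero
  have hcd : ContDiff ℝ ∞ (fun x : ℝ => ((b x * Real.exp x : ℝ) : ℂ)) :=
    Complex.ofRealCLM.contDiff.comp (b.contDiff.mul Real.contDiff_exp)
  obtain ⟨h, hh⟩ : ∃ h : SchwartzMap ℝ ℂ, ∀ x, h x = ((b x * Real.exp x : ℝ) : ℂ) :=
    ⟨hcs.toSchwartzMap hcd, fun x => rfl⟩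
  obtain ⟨F, hF⟩ : ∃ F : SchwartzMap ℝ ℂ, F = 𝓕 h := ⟨_, rfl⟩
  refine ⟨b, F, fun x => b.nonneg, fun x => b.le_one, fun x hx0 hx1 => ?_, fun x hx => ?_,
    F.continuous, fun j => ?_, fun x => ?_⟩
  · apply b.one_of_mem_closedBall
    rw [Metric.mem_closedBall, Real.dist_eq, sub_zero, abs_of_nonneg hx0, hb1]
    exact hx1
  · apply b.zero_of_le_dist
    rw [Real.dist_eq, sub_zero, hb2]
    exact hx.trans (le_abs_self x)
  · have h1 : ∀ t : ℝ, (1 + |t|) ^ j * ‖F t‖ =
        ∑ i ∈ range (j + 1), (j.choose i : ℝ) * (‖t‖ ^ i * ‖F t‖) := by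
      intro t
      rw [add_comm, add_pow, sum_mul]
      apply sum_congr rfl
      intro i _
      rw [one_pow, mul_one, Real.norm_eq_abs]
      ring
    simp only [h1]
    apply integrable_finsetSum
    intro i _
    exact (F.integrable_pow_mul volume i).const_mul _
  · have h1 : (𝓕⁻ F) x = h x := by
      rw [hF, FourierTransform.fourierInv_fourier_eq]
    rw [SchwartzMap.fourierInv_coe, Real.fourierInv_eq', hh] at h1
    have h2 : ((b x : ℝ) : ℂ) = Complex.exp (-x) * ((b x * Real.exp x : ℝ) : ℂ) := by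
      push_cast
      rw [mul_comm, mul_assoc, ← Complex.exp_add, add_neg_cancel, Complex.exp_zero, mul_one]
    rw [h2, ← h1, ← integral_const_mul]
    apply integral_congr_ae
    refine Filter.Eventually.of_forall fun t => ?_
    simp only [smul_eq_mul, RCLike.inner_apply, conj_trivial]
    rw [mul_left_comm, ← mul_assoc, ← Complex.exp_add, mul_comm (F t)]
    congr 2
    push_cast
    ring

lemma four_sqf (R : ℕ) : Squarefree (PP R) := by
  unfold PP
  have hpr : ∀ p ∈ pr R, p.Prime := fun p hp => (mem_filter.1 hp).2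
  generalize pr R = S at hpr ⊢
  induction S using Finset.induction_on with
  | empty => simp
  | insert a s ha ih =>
    rw [prod_insert ha]
    have hap : a.Prime := hpr a (mem_insert_self _ _)
    have hs : ∀ p ∈ s, p.Prime := fun p hp => hpr p (mem_insert_of_mem hp)
    rw [Nat.squarefree_mul]
    · exact ⟨hap.squarefree, ih hs⟩
    · apply Nat.Coprime.prod_right
      intro p hp
      rw [Nat.coprime_primes hap (hs p hp)]
      rintro rfl
      exact ha hp

/-- A sum over the divisors as a product. -/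
lemma four_prod (R : ℕ) (a : ℕ → ℂ) :
    ∑ r ∈ (PP R).divisors, ∏ p ∈ r.primeFactors, a p = ∏ p ∈ pr R, (1 + a p) := by
  rw [Finset.prod_one_add]
  have hpr : ∀ p ∈ pr R, p.Prime := fun p hp => (mem_filter.1 hp).2
  have hPP : PP R ≠ 0 := prod_ne_zero_iff.2 fun p hp => (hpr p hp).ne_zero
  have hpf : (PP R).primeFactors = pr R := Nat.primeFactors_prod hpr
  refine sum_nbij' (fun r => r.primeFactors) (fun T => ∏ p ∈ T, p) ?_ ?_ ?_ ?_ ?_
  · intro r hr
    rw [mem_powerset, ← hpf]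
    exact Nat.primeFactors_mono (Nat.dvd_of_mem_divisors hr) hPP
  · intro T hT
    rw [mem_powerset] at hT
    rw [Nat.mem_divisors]
    exact ⟨prod_dvd_prod_of_subset _ _ _ hT, hPP⟩
  · intro r hr
    exact Nat.prod_primeFactors_of_squarefree ((four_sqf R).squarefree_of_dvd
      (Nat.dvd_of_mem_divisors hr))
  · intro T hT
    rw [mem_powerset] at hT
    exact Nat.primeFactors_prod fun p hp => hpr p (hT hp)
  · intro r _
    rfl

/-- `1 - exp (-w)` in the right half plane. -/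
lemma four_exp (w : ℂ) (hw : 0 ≤ w.re) : ‖1 - Complex.exp (-w)‖ ≤ ‖w‖ := by
  have h1 := Convex.norm_image_sub_le_of_norm_hasDerivWithin_le (𝕜 := ℂ)
    (f := fun z => Complex.exp (-z)) (f' := fun z => -Complex.exp (-z)) (C := 1)
    (s := {z : ℂ | 0 ≤ z.re}) (x := w) (y := 0)
    (fun z _ => by
      have h2 := ((hasDerivAt_id z).neg).cexp
      simpa using h2.hasDerivWithinAt)
    (fun z hz => by
      rw [norm_neg, Complex.norm_exp, Complex.neg_re]
      exact Real.exp_le_one_iff.2 (neg_nonpos.2 hz))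
    (convex_halfSpace_re_ge 0) hw (by simp)
  simpa using h1

/-- The exponent. -/
lemma four_z (t : ℝ) : ‖(1 - 2 * Real.pi * t * Complex.I : ℂ)‖ ≤ 7 * (1 + |t|) := by
  have h1 : ‖(1 - 2 * Real.pi * t * Complex.I : ℂ)‖ ≤ ‖(1 : ℂ)‖ + ‖(2 * Real.pi * t * Complex.I : ℂ)‖ :=
    norm_sub_le _ _
  have h2 : ‖(2 * Real.pi * t * Complex.I : ℂ)‖ = 2 * Real.pi * |t| := by
    rw [norm_mul, norm_mul, norm_mul, Complex.norm_I, mul_one, Complex.norm_real, Complex.norm_real,
      Real.norm_eq_abs, Real.norm_eq_abs, abs_of_pos Real.pi_pos]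
    norm_num
  rw [h2, norm_one] at h1
  have h3 := Real.pi_lt_d2
  have h4 := abs_nonneg t
  nlinarith

/-- The local factor of the integrand. -/
noncomputable def fourA (R n : ℕ) (t : ℝ) (p : ℕ) : ℂ :=
  (if p ∣ n then (1 - p : ℂ) else 1) / ((p : ℂ) - 1) *
    Complex.exp (-(((Real.log p / Real.log R : ℝ) : ℂ) * (1 - 2 * Real.pi * t * Complex.I)))

lemma four_term (R n r : ℕ) (hr : Squarefree r) (t : ℝ) :
    (∏ p ∈ r.primeFactors, (if p ∣ n then (1 - p : ℂ) else 1)) / (Nat.totient r : ℂ) *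
      Complex.exp (-(((Real.log r / Real.log R : ℝ) : ℂ) * (1 - 2 * Real.pi * t * Complex.I))) =
    ∏ p ∈ r.primeFactors, fourA R n t p := by
  have hpr : ∀ p ∈ r.primeFactors, p.Prime := fun p hp => Nat.prime_of_mem_primeFactors hp
  have e1 : (Nat.totient r : ℂ) = ∏ p ∈ r.primeFactors, ((p : ℂ) - 1) := by
    rw [Nat.totient_eq_div_primeFactors_mul, Nat.prod_primeFactors_of_squarefree hr,
      Nat.div_self (Nat.pos_of_ne_zero hr.ne_zero), one_mul, Nat.cast_prod]
    apply prod_congr rfl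
    intro p hp
    rw [Nat.cast_sub (hpr p hp).one_lt.le, Nat.cast_one]
  have e2 : Real.log r = ∑ p ∈ r.primeFactors, Real.log p := by
    conv_lhs => rw [← Nat.prod_primeFactors_of_squarefree hr]
    rw [Nat.cast_prod, Real.log_prod]
    intro p hp
    exact_mod_cast (hpr p hp).ne_zero
  rw [e1, e2]
  unfold fourA
  rw [prod_mul_distrib, prod_div_distrib, ← Complex.exp_sum]
  congr 2
  rw [sum_div, Complex.ofReal_sum, sum_mul, ← sum_neg_distrib]

lemma four_x (R p : ℕ) (hR : 2 ≤ R) (hp : p.Prime) : 0 ≤ Real.log p / Real.log R := by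
  have h1 : (1 : ℝ) ≤ R := by exact_mod_cast (by omega : 1 ≤ R)
  exact div_nonneg (Real.log_nonneg (by exact_mod_cast hp.one_lt.le)) (Real.log_nonneg h1)

lemma four_fac (R n p : ℕ) (hR : 2 ≤ R) (hp : p.Prime) (t : ℝ) :
    ‖1 + fourA R n t p‖ ≤ (p : ℝ) / (p - 1) * (if p ∣ n then aw R (1 + |t|) p else 1) := by
  have hp1 : (1 : ℝ) < p := by exact_mod_cast hp.one_lt
  have hp0 : (0 : ℝ) < (p : ℝ) - 1 := by linarith
  have hpc : ((p : ℂ) - 1) ≠ 0 := by
    intro h
    have h2 : (p : ℂ) = ((1 : ℕ) : ℂ) := by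
      rw [Nat.cast_one]
      exact sub_eq_zero.1 h
    exact hp.one_lt.ne' (Nat.cast_injective h2)
  have hx := four_x R p hR hp
  obtain ⟨x, hxd⟩ : ∃ x : ℝ, x = Real.log p / Real.log R := ⟨_, rfl⟩
  rw [← hxd] at hx
  obtain ⟨w, hw⟩ : ∃ w : ℂ, w = (x : ℂ) * (1 - 2 * Real.pi * t * Complex.I) := ⟨_, rfl⟩
  have hwre : w.re = x := by
    rw [hw]
    simp
  have hwn : ‖w‖ ≤ 7 * (1 + |t|) * x := by
    rw [hw, norm_mul, Complex.norm_real, Real.norm_eq_abs, abs_of_nonneg hx]
    have := mul_le_mul_of_nonneg_left (four_z t) hx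
    linarith
  have he1 : ‖Complex.exp (-w)‖ ≤ 1 := by
    rw [Complex.norm_exp, Complex.neg_re, hwre]
    exact Real.exp_le_one_iff.2 (neg_nonpos.2 hx)
  have hA : fourA R n t p = (if p ∣ n then (1 - p : ℂ) else 1) / ((p : ℂ) - 1) *
      Complex.exp (-w) := by
    unfold fourA
    rw [hw, hxd]
  have hpp : 1 ≤ (p : ℝ) / (p - 1) := by
    rw [le_div_iff₀ hp0]
    linarith
  rw [hA]
  split_ifs with hd
  · have h1 : (1 - p : ℂ) / ((p : ℂ) - 1) = -1 := by
      rw [div_eq_iff hpc]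
      ring
    rw [h1, neg_one_mul, ← sub_eq_add_neg]
    have h2 : ‖1 - Complex.exp (-w)‖ ≤ aw R (1 + |t|) p := by
      unfold aw
      apply le_min
      · have h3 := norm_sub_le 1 (Complex.exp (-w))
        rw [norm_one] at h3
        linarith
      · refine (four_exp w (by rw [hwre]; exact hx)).trans (hwn.trans (le_of_eq ?_))
        rw [hxd]
    refine h2.trans ?_
    have h3 : 0 ≤ aw R (1 + |t|) p := (norm_nonneg _).trans h2
    calc aw R (1 + |t|) p = 1 * aw R (1 + |t|) p := (one_mul _).symm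
      _ ≤ (p : ℝ) / (p - 1) * aw R (1 + |t|) p := mul_le_mul_of_nonneg_right hpp h3
  · rw [mul_one]
    have h1 : ‖1 / ((p : ℂ) - 1) * Complex.exp (-w)‖ ≤ 1 / ((p : ℝ) - 1) := by
      rw [norm_mul, norm_div, norm_one]
      have h2 : ‖(p : ℂ) - 1‖ = (p : ℝ) - 1 := by
        have h3 : (p : ℂ) - 1 = (((p : ℝ) - 1 : ℝ) : ℂ) := by push_cast; ring
        rw [h3, Complex.norm_real, Real.norm_eq_abs, abs_of_pos hp0]
      rw [h2]
      calc 1 / ((p : ℝ) - 1) * ‖Complex.exp (-w)‖ ≤ 1 / ((p : ℝ) - 1) * 1 :=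
            mul_le_mul_of_nonneg_left he1 (by positivity)
        _ = 1 / ((p : ℝ) - 1) := mul_one _
    have h2 := norm_add_le 1 (1 / ((p : ℂ) - 1) * Complex.exp (-w))
    rw [norm_one] at h2
    have h3 : (p : ℝ) / (p - 1) = 1 + 1 / (p - 1) := by
      field_simp
      ring
    linarith

lemma four_aw_nonneg (R p : ℕ) (hR : 2 ≤ R) (hp : p.Prime) (t : ℝ) : 0 ≤ aw R (1 + |t|) p := by
  unfold aw
  have h1 := four_x R p hR hp
  have h2 := abs_nonneg t
  exact le_min (by norm_num) (by positivity)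

lemma four_aw_le (R p : ℕ) (T : ℝ) : aw R T p ≤ 2 := min_le_left _ _

lemma four_aw_cont (R p : ℕ) : Continuous (fun t : ℝ => aw R (1 + |t|) p) := by
  unfold aw
  fun_prop

/-- The bound for the integrand. -/
lemma four_norm (R n : ℕ) (hR : 2 ≤ R) (t : ℝ) :
    ‖∏ p ∈ pr R, (1 + fourA R n t p)‖ ≤ (∏ p ∈ pr R, ((p : ℝ) / (p - 1))) *
      ∏ p ∈ (pr R).filter (fun p => p ∣ n), aw R (1 + |t|) p := by
  rw [norm_prod, prod_filter, ← prod_mul_distrib]
  apply prod_le_prod
  · intro p _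
    exact norm_nonneg _
  · intro p hp
    exact four_fac R n p hR (mem_filter.1 hp).2 t

/-- **The bound for the divisor sum.** PROOF. `Sg_eq` and `cut g0 R r = ∫ F t r ^ (-s) dt`,
`s = (1 - 2 π i t) / log R`, for the finitely many `r ∣ PP R`:
`nrm * Sg n = ∫ F t ∏_{p ≤ R} (1 + c_p(n) / ((p - 1) p ^ s)) dt`, where the factor is
`1 + 1 / ((p - 1) p ^ s)` if `p ∤ n`, of absolute value at most `p / (p - 1)`, and `1 - p ^ (-s)` if `p ∣ n`,
of absolute value `≤ min 2 (|s| log p) ≤ aw R (1 + |t|) p` (as `2 π < 7`, `Re s > 0`). Use `prod_inv` and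
`nrm_ge`. -/
theorem good_exists (η : ℝ) (hη : 0 < η) (hη1 : η < 1) :
    ∃ (g0 K : ℝ → ℝ) (C : ℝ), Good η g0 K C := by
  obtain ⟨g0, F, h1, h2, h3, h4, h5, h6, h7⟩ := cutoff η hη hη1
  obtain ⟨C, hC, hprod⟩ := prod_inv
  have hF : Integrable F := by
    have h8 := h6 0
    simp only [pow_zero, one_mul] at h8
    exact (integrable_norm_iff h5.aestronglyMeasurable).1 h8
  refine ⟨g0, fun t => ‖F t‖, C / (1 - η), ⟨h1, h2, h3, h4, fun t => norm_nonneg _, h5.norm, h6, ?_,
    fun R hR n => ?_⟩⟩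
  · rw [le_div_iff₀ (by linarith)]
    linarith
  have hL : 0 < Real.log R := Real.log_pos (by exact_mod_cast (by omega : 1 < R))
  have hη0 : 0 < 1 - η := by linarith
  have hN := nrm_ge η hη hη1 g0 h1 h3 R hR
  have hN0 : 0 < nrm R (cut g0 R) := lt_of_lt_of_le (by positivity) hN
  -- the integral
  have hexpc : ∀ x : ℝ, Continuous (fun t : ℝ =>
      Complex.exp (-((x : ℂ) * (1 - 2 * Real.pi * t * Complex.I)))) := by
    intro x
    fun_prop
  have hexpn : ∀ x t : ℝ, ‖Complex.exp (-((x : ℂ) * (1 - 2 * Real.pi * t * Complex.I)))‖ =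
      Real.exp (-x) := by
    intro x t
    rw [Complex.norm_exp]
    congr 1
    simp
  have hint : ∀ x : ℝ, Integrable (fun t : ℝ =>
      F t * Complex.exp (-((x : ℂ) * (1 - 2 * Real.pi * t * Complex.I)))) := by
    intro x
    refine Integrable.mono' (g := fun t => Real.exp (-x) * ‖F t‖) (hF.norm.const_mul _)
      (h5.mul (hexpc x)).aestronglyMeasurable (Filter.Eventually.of_forall fun t => ?_)
    rw [norm_mul, hexpn, mul_comm]
  have hsum : (∑ r ∈ (PP R).divisors, (cut g0 R r : ℂ) / (Nat.totient r : ℂ) *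
      ∏ p ∈ r.primeFactors, (if p ∣ n then (1 - p : ℂ) else 1)) =
      ∫ t : ℝ, F t * ∏ p ∈ pr R, (1 + fourA R n t p) := by
    have e1 : ∀ r ∈ (PP R).divisors, (cut g0 R r : ℂ) / (Nat.totient r : ℂ) *
        ∏ p ∈ r.primeFactors, (if p ∣ n then (1 - p : ℂ) else 1) =
        ∫ t : ℝ, F t * ∏ p ∈ r.primeFactors, fourA R n t p := by
      intro r hr
      have hrs : Squarefree r := (four_sqf R).squarefree_of_dvd (Nat.dvd_of_mem_divisors hr)
      unfold cut
      rw [h7, div_mul_eq_mul_div, mul_div_assoc, ← integral_mul_const]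
      apply integral_congr_ae
      refine Filter.Eventually.of_forall fun t => ?_
      simp only
      rw [← four_term R n r hrs t]
      ring
    rw [sum_congr rfl e1, ← integral_finsetSum]
    · apply integral_congr_ae
      refine Filter.Eventually.of_forall fun t => ?_
      simp only
      rw [← mul_sum, four_prod]
    · intro r hr
      have hrs : Squarefree r := (four_sqf R).squarefree_of_dvd (Nat.dvd_of_mem_divisors hr)
      have h8 := (hint (Real.log r / Real.log R)).mul_const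
        ((∏ p ∈ r.primeFactors, (if p ∣ n then (1 - p : ℂ) else 1)) / (Nat.totient r : ℂ))
      refine h8.congr (Filter.Eventually.of_forall fun t => ?_)
      simp only
      rw [← four_term R n r hrs t]
      ring
  have hcast : ((Sg R (cut g0 R) n : ℝ) : ℂ) = ((1 / nrm R (cut g0 R) : ℝ) : ℂ) *
      ∫ t : ℝ, F t * ∏ p ∈ pr R, (1 + fourA R n t p) := by
    rw [Sg_eq, ← hsum, Complex.ofReal_mul]
    congr 1
    push_cast
    apply sum_congr rfl
    intro r _
    congr 1
    apply prod_congr rfl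
    intro p _
    split_ifs
    · push_cast
      rfl
    · exact Complex.ofReal_one
  have hnorm : |Sg R (cut g0 R) n| = 1 / nrm R (cut g0 R) *
      ‖∫ t : ℝ, F t * ∏ p ∈ pr R, (1 + fourA R n t p)‖ := by
    rw [← Real.norm_eq_abs, ← Complex.norm_real, hcast, norm_mul, Complex.norm_real,
      Real.norm_eq_abs, abs_of_pos (by positivity)]
  obtain ⟨D, hD⟩ : ∃ D, D = ∏ p ∈ pr R, ((p : ℝ) / (p - 1)) := ⟨_, rfl⟩
  have hawc : Continuous (fun t : ℝ => ∏ p ∈ (pr R).filter (fun p => p ∣ n), aw R (1 + |t|) p) :=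
    continuous_finsetProd _ fun p _ => four_aw_cont R p
  have hnn : ∀ t : ℝ, 0 ≤ ∏ p ∈ (pr R).filter (fun p => p ∣ n), aw R (1 + |t|) p := by
    intro t
    apply prod_nonneg
    intro p hp
    exact four_aw_nonneg R p hR (mem_filter.1 (mem_filter.1 hp).1).2 t
  have hint2 : Integrable (fun t : ℝ =>
      ‖F t‖ * ∏ p ∈ (pr R).filter (fun p => p ∣ n), aw R (1 + |t|) p) := by
    refine Integrable.mono' (g := fun t => ‖F t‖ * 2 ^ ((pr R).filter (fun p => p ∣ n)).card)
      (hF.norm.mul_const _) (h5.norm.mul hawc).aestronglyMeasurable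
      (Filter.Eventually.of_forall fun t => ?_)
    rw [Real.norm_eq_abs, abs_of_nonneg (mul_nonneg (norm_nonneg _) (hnn t))]
    apply mul_le_mul_of_nonneg_left _ (norm_nonneg _)
    rw [← prod_const]
    apply prod_le_prod
    · intro p hp
      exact four_aw_nonneg R p hR (mem_filter.1 (mem_filter.1 hp).1).2 t
    · intro p _
      exact four_aw_le R p _
  have hI : ‖∫ t : ℝ, F t * ∏ p ∈ pr R, (1 + fourA R n t p)‖ ≤
      D * ∫ t : ℝ, ‖F t‖ * ∏ p ∈ (pr R).filter (fun p => p ∣ n), aw R (1 + |t|) p := by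
    rw [← integral_const_mul]
    apply norm_integral_le_of_norm_le (hint2.const_mul D)
    refine Filter.Eventually.of_forall fun t => ?_
    rw [norm_mul]
    have h8 := four_norm R n hR t
    rw [← hD] at h8
    calc ‖F t‖ * ‖∏ p ∈ pr R, (1 + fourA R n t p)‖
        ≤ ‖F t‖ * (D * ∏ p ∈ (pr R).filter (fun p => p ∣ n), aw R (1 + |t|) p) :=
          mul_le_mul_of_nonneg_left h8 (norm_nonneg _)
      _ = _ := by ring
  obtain ⟨J, hJ⟩ : ∃ J, J = ∫ t : ℝ, ‖F t‖ *
      ∏ p ∈ (pr R).filter (fun p => p ∣ n), aw R (1 + |t|) p := ⟨_, rfl⟩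
  have hJ0 : 0 ≤ J := by
    rw [hJ]
    exact integral_nonneg fun t => mul_nonneg (norm_nonneg _) (hnn t)
  rw [← hJ] at hI ⊢
  rw [hnorm]
  have hD1 : D ≤ C * Real.log R := by
    rw [hD]
    exact hprod R hR
  calc 1 / nrm R (cut g0 R) * ‖∫ t : ℝ, F t * ∏ p ∈ pr R, (1 + fourA R n t p)‖
      ≤ 1 / nrm R (cut g0 R) * (D * J) := mul_le_mul_of_nonneg_left hI (by positivity)
    _ ≤ 1 / ((1 - η) * Real.log R) * ((C * Real.log R) * J) := by
        apply mul_le_mul _ (mul_le_mul_of_nonneg_right hD1 hJ0) _ (by positivity)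
        · exact one_div_le_one_div_of_le (by positivity) hN
        · refine mul_nonneg ?_ hJ0
          rw [hD]
          apply prod_nonneg
          intro p hp
          have hp1 : (1 : ℝ) < p := by exact_mod_cast (mem_filter.1 hp).2.one_lt
          exact div_nonneg (by linarith) (by linarith)
    _ = C / (1 - η) * J := by
        field_simp

end Pool.Agent.H.MP_711652_nt.SH
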