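import Mathlib
import Pool.Agent.H.MP_711652_nt.SH.Indep
import Pool.Agent.H.MP_711652_nt.QW.Variance

set_option autoImplicit false

namespace Pool.Agent.H.MP_711652_nt.SH

open Finset QW

/-- The divisor sum of the Ramanujan sums. -/
lemma sum_ram (g : ℕ) (hg : 0 < g) (h : ℕ) :
    ∑ q ∈ g.divisors, ram q h = if g ∣ h then (g : ℝ) else 0 := by
  have key := (ArithmeticFunction.sum_eq_iff_sum_mul_moebius_eq (R := ℝ) (f := fun q => ram q h)
    (g := fun n => if n ∣ h then (n : ℝ) else 0)).2 ?_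
  · exact key g hg
  · intro n _
    rw [Nat.sum_divisorsAntidiagonal' (fun a b => ((ArithmeticFunction.moebius a : ℤ) : ℝ) *
      (if b ∣ h then (b : ℝ) else 0))]
    show _ = ram n h
    unfold ram
    rw [sum_filter]
    apply sum_congr rfl
    intro d _
    split_ifs <;> ring

lemma ram_one (h : ℕ) : ram 1 h = 1 := by
  have := sum_ram 1 one_pos h
  rw [if_pos (one_dvd h), Nat.divisors_one, sum_singleton] at this
  rw [this]
  norm_num

lemma gam_one (H : ℕ) : gam H 1 = (H : ℝ) ^ 2 := by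
  unfold gam
  simp only [ram_one]
  simp [sq]

/-- Exact covariance of the counting functions of two moduli in short intervals. -/
lemma cov_exact (q1 q2 : ℕ) (h1 : 0 < q1) (h2 : 0 < q2) (c1 c2 : ℤ) (X H : ℕ) :
    |∑ y ∈ range X, ((∑ i ∈ range H, ind q1 (c1 + i) y) - (H : ℝ) / q1) *
      ((∑ j ∈ range H, ind q2 (c2 + j) y) - (H : ℝ) / q2) -
      ((X : ℝ) / (Nat.lcm q1 q2 : ℕ) * (∑ i ∈ range H, ∑ j ∈ range H,
        (if ((Nat.gcd q1 q2 : ℕ) : ℤ) ∣ (c1 + i) - (c2 + j) then (1 : ℝ) else 0)) -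
        X * ((H : ℝ) / q1 * ((H : ℝ) / q2)))| ≤ 3 * (H : ℝ) ^ 2 := by
  set g := Nat.gcd q1 q2 with hg
  have hg0 : 0 < g := Nat.gcd_pos_of_pos_left _ h1
  have q1pos : (0 : ℝ) < q1 := by exact_mod_cast h1
  have q2pos : (0 : ℝ) < q2 := by exact_mod_cast h2
  have q1one : (1 : ℝ) ≤ q1 := by exact_mod_cast h1
  have q2one : (1 : ℝ) ≤ q2 := by exact_mod_cast h2
  have hH0 : (0 : ℝ) ≤ H := Nat.cast_nonneg H
  have hX0 : (0 : ℝ) ≤ X := Nat.cast_nonneg X
  set e : ℕ → ℕ → ℝ := fun i j => if (g : ℤ) ∣ (c1 + i) - (c2 + j) then 1 else 0 with he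
  set K := ∑ i ∈ range H, ∑ j ∈ range H, e i j with hKd
  have hK2 : K ≤ (H : ℝ) ^ 2 := by
    calc K ≤ ∑ i ∈ range H, ∑ j ∈ range H, (1 : ℝ) := by
          apply sum_le_sum; intro i _; apply sum_le_sum; intro j _
          rw [he]; simp only; split_ifs <;> norm_num
      _ = (H : ℝ) ^ 2 := by simp [sq]
  -- second moment
  set S12 := ∑ y ∈ range X, (∑ i ∈ range H, ind q1 (c1 + i) y) * (∑ j ∈ range H, ind q2 (c2 + j) y)
    with hS12
  set S1 := ∑ y ∈ range X, ∑ i ∈ range H, ind q1 (c1 + i) y with hS1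
  set S2 := ∑ y ∈ range X, ∑ j ∈ range H, ind q2 (c2 + j) y with hS2
  have hs12 : |S12 - (X : ℝ) / (Nat.lcm q1 q2 : ℕ) * K| ≤ K := by
    have e1 : S12 = ∑ i ∈ range H, ∑ j ∈ range H, ∑ y ∈ range X,
        ind q1 (c1 + i) y * ind q2 (c2 + j) y := by
      rw [hS12]
      simp only [sum_mul_sum]
      rw [sum_comm]
      apply sum_congr rfl
      intro i _
      rw [sum_comm]
    have e2 : S12 - (X : ℝ) / (Nat.lcm q1 q2 : ℕ) * K = ∑ i ∈ range H, ∑ j ∈ range H,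
        ((∑ y ∈ range X, ind q1 (c1 + i) y * ind q2 (c2 + j) y) -
          (X : ℝ) / (Nat.lcm q1 q2 : ℕ) * e i j) := by
      rw [e1, hKd, mul_sum, ← sum_sub_distrib]
      apply sum_congr rfl
      intro i _
      rw [mul_sum, ← sum_sub_distrib]
    rw [e2]
    refine (abs_sum_le_sum_abs _ _).trans ?_
    rw [hKd]
    apply sum_le_sum
    intro i _
    refine (abs_sum_le_sum_abs _ _).trans ?_
    apply sum_le_sum
    intro j _
    exact sum_ind_mul q1 q2 h1 h2 (c1 + i) (c2 + j) X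
  have hfirst : ∀ (q : ℕ) (_ : 0 < q) (c : ℤ),
      |(∑ y ∈ range X, ∑ i ∈ range H, ind q (c + i) y) - (X : ℝ) * H / q| ≤ H := by
    intro q hq c
    rw [sum_comm]
    have e3 : (∑ i ∈ range H, ∑ y ∈ range X, ind q (c + i) y) - (X : ℝ) * H / q =
        ∑ i ∈ range H, ((∑ y ∈ range X, ind q (c + i) y) - (X : ℝ) / q) := by
      rw [sum_sub_distrib, sum_const, card_range, nsmul_eq_mul]
      ring
    rw [e3]
    calc _ ≤ ∑ i ∈ range H, |(∑ y ∈ range X, ind q (c + i) y) - (X : ℝ) / q| :=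
          abs_sum_le_sum_abs _ _
      _ ≤ ∑ i ∈ range H, (1 : ℝ) := sum_le_sum (fun i _ => sum_ind q hq _ X)
      _ = H := by simp
  have hs1 := hfirst q1 h1 c1
  have hs2 := hfirst q2 h2 c2
  rw [← hS1] at hs1
  rw [← hS2] at hs2
  have expand : ∑ y ∈ range X, ((∑ i ∈ range H, ind q1 (c1 + i) y) - (H : ℝ) / q1) *
      ((∑ j ∈ range H, ind q2 (c2 + j) y) - (H : ℝ) / q2) =
      S12 - (H : ℝ) / q1 * S2 - (H : ℝ) / q2 * S1 + X * ((H : ℝ) / q1 * ((H : ℝ) / q2)) := by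
    rw [hS12, hS1, hS2, mul_sum, mul_sum, ← sum_sub_distrib, ← sum_sub_distrib]
    have : (X : ℝ) * ((H : ℝ) / q1 * ((H : ℝ) / q2)) =
        ∑ y ∈ range X, ((H : ℝ) / q1 * ((H : ℝ) / q2)) := by simp
    rw [this, ← sum_add_distrib]
    apply sum_congr rfl
    intro y _
    ring
  rw [expand]
  have hA : |(H : ℝ) / q1 * S2 - X * ((H : ℝ) / q1 * ((H : ℝ) / q2))| ≤ (H : ℝ) ^ 2 := by
    have e5 : (H : ℝ) / q1 * S2 - X * ((H : ℝ) / q1 * ((H : ℝ) / q2)) =
        (H : ℝ) / q1 * (S2 - (X : ℝ) * H / q2) := by ring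
    rw [e5, abs_mul, abs_of_nonneg (by positivity)]
    calc (H : ℝ) / q1 * |S2 - (X : ℝ) * H / q2| ≤ (H : ℝ) / q1 * H := by gcongr
      _ ≤ H * H := by
        apply mul_le_mul_of_nonneg_right _ hH0
        exact div_le_self hH0 q1one
      _ = (H : ℝ) ^ 2 := by ring
  have hB : |(H : ℝ) / q2 * S1 - X * ((H : ℝ) / q1 * ((H : ℝ) / q2))| ≤ (H : ℝ) ^ 2 := by
    have e5 : (H : ℝ) / q2 * S1 - X * ((H : ℝ) / q1 * ((H : ℝ) / q2)) =
        (H : ℝ) / q2 * (S1 - (X : ℝ) * H / q1) := by ring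
    rw [e5, abs_mul, abs_of_nonneg (by positivity)]
    calc (H : ℝ) / q2 * |S1 - (X : ℝ) * H / q1| ≤ (H : ℝ) / q2 * H := by gcongr
      _ ≤ H * H := by
        apply mul_le_mul_of_nonneg_right _ hH0
        exact div_le_self hH0 q2one
      _ = (H : ℝ) ^ 2 := by ring
  rw [abs_le] at *
  constructor <;> linarith [hs12.1, hs12.2, hA.1, hA.2, hB.1, hB.2]

/-- The covariance of two moduli with Ramanujan sums. -/
lemma cov_ram (P m m' : ℕ) (hP : 0 < P) (hm : m ∣ P) (hm' : m' ∣ P) (M H : ℕ) :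
    |∑ y ∈ range M, ((∑ i ∈ range H, ind m (1 + i) y) - (H : ℝ) / m) *
      ((∑ j ∈ range H, ind m' (1 + j) y) - (H : ℝ) / m') -
      M * ∑ q ∈ P.divisors.erase 1, gam H q * ((if q ∣ m then 1 / (m : ℝ) else 0) *
        (if q ∣ m' then 1 / (m' : ℝ) else 0))| ≤ 3 * (H : ℝ) ^ 2 := by
  have h1 : 0 < m := Nat.pos_of_dvd_of_pos hm hP
  have h2 : 0 < m' := Nat.pos_of_dvd_of_pos hm' hP
  have hcov := cov_exact m m' h1 h2 1 1 M H
  refine le_trans (le_of_eq ?_) hcov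
  congr 1
  congr 1
  set g := Nat.gcd m m' with hg
  have hg0 : 0 < g := Nat.gcd_pos_of_pos_left _ h1
  have m1 : (m : ℝ) ≠ 0 := by exact_mod_cast h1.ne'
  have m2 : (m' : ℝ) ≠ 0 := by exact_mod_cast h2.ne'
  have g1 : (g : ℝ) ≠ 0 := by exact_mod_cast hg0.ne'
  have hlcm : ((Nat.lcm m m' : ℕ) : ℝ) * g = m * m' := by
    have := Nat.gcd_mul_lcm m m'
    have h7 : ((Nat.gcd m m' : ℕ) : ℝ) * (Nat.lcm m m' : ℕ) = m * m' := by exact_mod_cast this
    rw [hg]; linarith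
  have l1 : ((Nat.lcm m m' : ℕ) : ℝ) ≠ 0 := by exact_mod_cast (Nat.lcm_pos h1 h2).ne'
  -- the sum over the divisors of the gcd
  have h3 : ∑ q ∈ g.divisors, gam H q = g * ∑ i ∈ range H, ∑ j ∈ range H,
      (if (g : ℤ) ∣ (1 + (i : ℤ)) - (1 + j) then (1 : ℝ) else 0) := by
    unfold gam
    rw [sum_comm, mul_sum]
    apply sum_congr rfl
    intro i _
    rw [sum_comm, mul_sum]
    apply sum_congr rfl
    intro j _
    rw [sum_ram g hg0]
    have h4 : (g : ℤ) ∣ (1 + (i : ℤ)) - (1 + j) ↔ g ∣ ((i : ℤ) - j).natAbs := by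
      rw [Int.natCast_dvd]
      have : (1 + (i : ℤ)) - (1 + j) = (i : ℤ) - j := by ring
      rw [this]
    by_cases h5 : g ∣ ((i : ℤ) - j).natAbs
    · rw [if_pos h5, if_pos (h4.2 h5), mul_one]
    · rw [if_neg h5, if_neg fun h => h5 (h4.1 h), mul_zero]
  have h5 : ∑ q ∈ P.divisors.erase 1, gam H q * ((if q ∣ m then 1 / (m : ℝ) else 0) *
        (if q ∣ m' then 1 / (m' : ℝ) else 0)) =
      (∑ q ∈ g.divisors.erase 1, gam H q) * (1 / (m * m')) := by
    rw [sum_mul]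
    symm
    refine sum_subset_zero_on_sdiff ?_ ?_ ?_
    · intro q hq
      rw [mem_erase, Nat.mem_divisors] at hq ⊢
      exact ⟨hq.1, (hq.2.1.trans (Nat.gcd_dvd_left m m')).trans hm, hP.ne'⟩
    · intro q hq
      rw [mem_sdiff, mem_erase, mem_erase, Nat.mem_divisors, Nat.mem_divisors] at hq
      by_cases h6 : q ∣ m
      · by_cases h7 : q ∣ m'
        · exact absurd ⟨hq.1.1, Nat.dvd_gcd h6 h7, hg0.ne'⟩ hq.2
        · rw [if_neg h7, mul_zero, mul_zero]
      · rw [if_neg h6, zero_mul, mul_zero]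
    · intro q hq
      rw [mem_erase, Nat.mem_divisors] at hq
      rw [if_pos (hq.2.1.trans (Nat.gcd_dvd_left m m')),
        if_pos (hq.2.1.trans (Nat.gcd_dvd_right m m')), div_mul_div_comm, one_mul]
  have h6 : ∑ q ∈ g.divisors.erase 1, gam H q = (∑ q ∈ g.divisors, gam H q) - (H : ℝ) ^ 2 := by
    rw [← gam_one H, eq_sub_iff_add_eq]
    exact sum_erase_add _ _ (Nat.one_mem_divisors.2 hg0.ne')
  rw [h5, h6, h3]
  have h7 : ((Nat.lcm m m' : ℕ) : ℝ) = m * m' / g := by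
    rw [eq_div_iff g1, hlcm]
  rw [h7]
  field_simp

/-- **Exact variance.** PROOF. As `cov_bound` / `variance` in `QW/Variance`, but keep the main term: by
`sum_ind`, `sum_ind_mul` the covariance of the moduli `m, m'` is
`M ∑_{i, j < H} (1_{g ∣ i - j} / lcm - 1/(m m'))` up to `3 H ^ 2`, `g = gcd m m'`, `1 / lcm = g / (m m')`,
`g 1_{g ∣ h} = ∑_{q ∣ g} ram q h`, `ram 1 h = 1`. So the main term is
`M ∑_{m, m'} (c m / m) (c m' / m') ∑_{q ∣ g, q ≠ 1} gam H q = M ∑_{q ≠ 1} gam H q (Vq q) ^ 2`. -/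
theorem var_exact (P : ℕ) (hP : 0 < P) (c : ℕ → ℝ) (M H : ℕ) :
    ∑ y ∈ range M, ((∑ n ∈ Ioc y (y + H), ∑ m ∈ P.divisors.filter (fun m => m ∣ n), c m) -
      H * Vq P.divisors c 1) ^ 2 ≤
    M * ∑ q ∈ P.divisors.erase 1, gam H q * (Vq P.divisors c q) ^ 2 +
      3 * (H : ℝ) ^ 2 * (∑ m ∈ P.divisors, |c m|) ^ 2 := by
  have hV1 : Vq P.divisors c 1 = ∑ m ∈ P.divisors, c m / m := by
    unfold Vq
    rw [filter_true_of_mem fun m _ => one_dvd m]
  have h1 : ∀ y : ℕ, (∑ n ∈ Ioc y (y + H), ∑ m ∈ P.divisors.filter (fun m => m ∣ n), c m) -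
      H * Vq P.divisors c 1 =
      ∑ m ∈ P.divisors, c m * ((∑ i ∈ range H, ind m (1 + i) y) - (H : ℝ) / m) := by
    intro y
    have h2 : ∀ n ∈ Ioc y (y + H), ∑ m ∈ P.divisors.filter (fun m => m ∣ n), c m =
        ∑ m ∈ P.divisors, (if m ∣ n then c m else 0) := fun n _ => sum_filter _ _
    rw [hV1, sum_congr rfl h2, sum_comm, mul_sum, ← sum_sub_distrib]
    apply sum_congr rfl
    intro m _
    rw [mul_sub]
    congr 1
    · have : Ioc y (y + H) = (range H).image (fun i => y + 1 + i) := by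
        ext n
        simp only [mem_Ioc, mem_image, mem_range]
        constructor
        · intro h
          exact ⟨n - (y + 1), by omega, by omega⟩
        · rintro ⟨i, hi, rfl⟩
          omega
      rw [this, sum_image (by intro a _ b _ h; simpa using h), mul_sum]
      apply sum_congr rfl
      intro i _
      unfold ind
      have e : (m : ℤ) ∣ (y : ℤ) + (1 + i) ↔ m ∣ y + 1 + i := by
        rw [← Int.natCast_dvd_natCast]
        push_cast
        rw [add_assoc]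
      by_cases h3 : m ∣ y + 1 + i
      · rw [if_pos h3, if_pos (e.2 h3), mul_one]
      · rw [if_neg h3, if_neg fun h => h3 (e.1 h), mul_zero]
    · ring
  simp only [h1, sq, sum_mul_sum]
  rw [sum_comm]
  have h2 : ∀ m ∈ P.divisors, ∑ y ∈ range M, ∑ m' ∈ P.divisors,
      c m * ((∑ i ∈ range H, ind m (1 + i) y) - (H : ℝ) / m) *
        (c m' * ((∑ i ∈ range H, ind m' (1 + i) y) - (H : ℝ) / m')) ≤
      ∑ m' ∈ P.divisors, (c m * c m' * (M * ∑ q ∈ P.divisors.erase 1, gam H q *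
        ((if q ∣ m then 1 / (m : ℝ) else 0) * (if q ∣ m' then 1 / (m' : ℝ) else 0))) +
        |c m| * |c m'| * (3 * (H : ℝ) ^ 2)) := by
    intro m hm
    rw [sum_comm]
    apply sum_le_sum
    intro m' hm'
    have h3 := cov_ram P m m' hP (Nat.dvd_of_mem_divisors hm) (Nat.dvd_of_mem_divisors hm') M H
    have h4 : ∑ y ∈ range M, c m * ((∑ i ∈ range H, ind m (1 + i) y) - (H : ℝ) / m) *
        (c m' * ((∑ i ∈ range H, ind m' (1 + i) y) - (H : ℝ) / m')) =
        c m * c m' * ∑ y ∈ range M, ((∑ i ∈ range H, ind m (1 + i) y) - (H : ℝ) / m) *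
          ((∑ i ∈ range H, ind m' (1 + i) y) - (H : ℝ) / m') := by
      rw [mul_sum]
      apply sum_congr rfl
      intro y _
      ring
    rw [h4]
    have h5 : c m * c m' * (∑ y ∈ range M, ((∑ i ∈ range H, ind m (1 + i) y) - (H : ℝ) / m) *
          ((∑ i ∈ range H, ind m' (1 + i) y) - (H : ℝ) / m') -
        M * ∑ q ∈ P.divisors.erase 1, gam H q *
        ((if q ∣ m then 1 / (m : ℝ) else 0) * (if q ∣ m' then 1 / (m' : ℝ) else 0))) ≤
        |c m| * |c m'| * (3 * (H : ℝ) ^ 2) := by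
      refine (le_abs_self _).trans ?_
      rw [abs_mul, abs_mul]
      exact mul_le_mul_of_nonneg_left h3 (by positivity)
    linarith
  refine (sum_le_sum h2).trans (le_of_eq ?_)
  simp only [sum_add_distrib]
  congr 1
  · unfold Vq
    have h3 : ∀ q ∈ P.divisors.erase 1, gam H q * ((∑ m ∈ P.divisors.filter (fun m => q ∣ m),
        c m / m) * ∑ m ∈ P.divisors.filter (fun m => q ∣ m), c m / m) =
        ∑ m ∈ P.divisors, ∑ m' ∈ P.divisors, c m * c m' * (gam H q *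
        ((if q ∣ m then 1 / (m : ℝ) else 0) * (if q ∣ m' then 1 / (m' : ℝ) else 0))) := by
      intro q _
      rw [sum_filter, sum_mul_sum, mul_sum]
      apply sum_congr rfl
      intro m _
      rw [mul_sum]
      apply sum_congr rfl
      intro m' _
      split_ifs <;> ring
    rw [sum_congr rfl h3, mul_sum]
    have h4 : ∀ q ∈ P.divisors.erase 1, (M : ℝ) * ∑ m ∈ P.divisors, ∑ m' ∈ P.divisors,
        c m * c m' * (gam H q *
        ((if q ∣ m then 1 / (m : ℝ) else 0) * (if q ∣ m' then 1 / (m' : ℝ) else 0))) =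
        ∑ m ∈ P.divisors, ∑ m' ∈ P.divisors,
        M * (c m * c m' * (gam H q *
        ((if q ∣ m then 1 / (m : ℝ) else 0) * (if q ∣ m' then 1 / (m' : ℝ) else 0)))) := by
      intro q _
      rw [mul_sum]
      apply sum_congr rfl
      intro m _
      rw [mul_sum]
    rw [sum_congr rfl h4]
    symm
    rw [sum_comm]
    apply sum_congr rfl
    intro m _
    rw [sum_comm]
    apply sum_congr rfl
    intro m' _
    rw [mul_sum, mul_sum]
    apply sum_congr rfl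
    intro q _
    ring
  · rw [mul_sum]
    apply sum_congr rfl
    intro m _
    rw [mul_sum]
    apply sum_congr rfl
    intro m' _
    ring

lemma Ea_ind2 {R m m' : ℕ} (hm : m ∣ PP R) (hm' : m' ∣ PP R) :
    Ea R (fun n => (if m ∣ n then (1 : ℝ) else 0) * (if m' ∣ n then (1 : ℝ) else 0)) =
      (Nat.gcd m m' : ℕ) / (m * m') := by
  have h1 : (fun n : ℕ => (if m ∣ n then (1 : ℝ) else 0) * (if m' ∣ n then (1 : ℝ) else 0)) =
      fun n => if Nat.lcm m m' ∣ n then (1 : ℝ) else 0 := by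
    funext n
    by_cases h2 : m ∣ n
    · by_cases h3 : m' ∣ n
      · rw [if_pos h2, if_pos h3, if_pos (Nat.lcm_dvd h2 h3), mul_one]
      · rw [if_neg h3, if_neg fun h => h3 ((Nat.dvd_lcm_right m m').trans h), mul_zero]
    · rw [if_neg h2, if_neg fun h => h2 ((Nat.dvd_lcm_left m m').trans h), zero_mul]
  rw [h1, Ea_ind (Nat.lcm_dvd hm hm')]
  have m1 : (m : ℝ) ≠ 0 := by exact_mod_cast (div_pos' hm).ne'
  have m2 : (m' : ℝ) ≠ 0 := by exact_mod_cast (div_pos' hm').ne'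
  have l1 : ((Nat.lcm m m' : ℕ) : ℝ) ≠ 0 := by
    exact_mod_cast (Nat.lcm_pos (div_pos' hm) (div_pos' hm')).ne'
  have h7 : ((Nat.gcd m m' : ℕ) : ℝ) * (Nat.lcm m m' : ℕ) = m * m' := by
    exact_mod_cast Nat.gcd_mul_lcm m m'
  rw [div_eq_div_iff l1 (mul_ne_zero m1 m2), one_mul, ← h7]

/-- PROOF. `Ea 1_{m ∣ n} 1_{m' ∣ n} = 1 / lcm m m' = gcd / (m m')`, `gcd = ∑_{q ∣ gcd} φ(q)`. -/
theorem sum_phi_V (R : ℕ) (c : ℕ → ℝ) :
    ∑ q ∈ (PP R).divisors, (Nat.totient q : ℝ) * (Vq (PP R).divisors c q) ^ 2 =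
      Ea R (fun n => (∑ m ∈ (PP R).divisors.filter (fun m => m ∣ n), c m) ^ 2) := by
  have h1 : (fun n : ℕ => (∑ m ∈ (PP R).divisors.filter (fun m => m ∣ n), c m) ^ 2) = fun n =>
      ∑ m ∈ (PP R).divisors, ∑ m' ∈ (PP R).divisors, c m * c m' *
        ((if m ∣ n then (1 : ℝ) else 0) * (if m' ∣ n then (1 : ℝ) else 0)) := by
    funext n
    rw [sum_filter, sq, sum_mul_sum]
    apply sum_congr rfl
    intro m _
    apply sum_congr rfl
    intro m' _
    split_ifs <;> ring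
  rw [h1, Ea_sum]
  have h2 : ∀ q ∈ (PP R).divisors, (Nat.totient q : ℝ) * (Vq (PP R).divisors c q) ^ 2 =
      ∑ m ∈ (PP R).divisors, ∑ m' ∈ (PP R).divisors, c m * c m' * (1 / (m * m') *
        (if q ∣ Nat.gcd m m' then (Nat.totient q : ℝ) else 0)) := by
    intro q _
    unfold Vq
    rw [sum_filter, sq, sum_mul_sum, mul_sum]
    apply sum_congr rfl
    intro m _
    rw [mul_sum]
    apply sum_congr rfl
    intro m' _
    have h3 : q ∣ Nat.gcd m m' ↔ q ∣ m ∧ q ∣ m' := Nat.dvd_gcd_iff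
    by_cases h4 : q ∣ m <;> by_cases h5 : q ∣ m'
    · rw [if_pos h4, if_pos h5, if_pos (h3.2 ⟨h4, h5⟩)]
      ring
    · rw [if_pos h4, if_neg h5, if_neg fun h => h5 (h3.1 h).2]
      ring
    · rw [if_neg h4, if_pos h5, if_neg fun h => h4 (h3.1 h).1]
      ring
    · rw [if_neg h4, if_neg h5, if_neg fun h => h5 (h3.1 h).2]
      ring
  rw [sum_congr rfl h2, sum_comm]
  apply sum_congr rfl
  intro m hm
  rw [sum_comm, Ea_sum]
  apply sum_congr rfl
  intro m' hm'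
  rw [Ea_mul, Ea_ind2 (mem_div.1 hm) (mem_div.1 hm'), ← mul_sum, ← mul_sum]
  congr 1
  have h3 : ∑ q ∈ (PP R).divisors, (if q ∣ Nat.gcd m m' then (Nat.totient q : ℝ) else 0) =
      (Nat.gcd m m' : ℕ) := by
    rw [← sum_filter]
    have h4 : (PP R).divisors.filter (fun q => q ∣ Nat.gcd m m') = (Nat.gcd m m').divisors := by
      ext q
      rw [mem_filter, mem_div, Nat.mem_divisors]
      constructor
      · rintro ⟨-, h5⟩
        exact ⟨h5, (Nat.gcd_pos_of_pos_left _ (div_pos' (mem_div.1 hm))).ne'⟩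
      · rintro ⟨h5, -⟩
        exact ⟨(h5.trans (Nat.gcd_dvd_left m m')).trans (mem_div.1 hm), h5⟩
    rw [h4]
    exact_mod_cast Nat.sum_totient (Nat.gcd m m')
  rw [h3]
  ring

/-- PROOF. `Ea (1_{m ∣ n} ∏_{p ∣ q} (if p ∣ n then p - 1 else -1)) = φ(q) / m` if `q ∣ m`, else `0`
(`avg_prod`). -/
theorem phi_V (R : ℕ) (c : ℕ → ℝ) (q : ℕ) (hq : q ∣ PP R) :
    (Nat.totient q : ℝ) * Vq (PP R).divisors c q =
      Ea R (fun n => (∑ m ∈ (PP R).divisors.filter (fun m => m ∣ n), c m) *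
        ∏ p ∈ q.primeFactors, (if p ∣ n then (p - 1 : ℝ) else -1)) := by
  have h1 : (fun n : ℕ => (∑ m ∈ (PP R).divisors.filter (fun m => m ∣ n), c m) *
        ∏ p ∈ q.primeFactors, (if p ∣ n then (p - 1 : ℝ) else -1)) = fun n =>
      ∑ m ∈ (PP R).divisors, c m * ∏ p ∈ pr R, (if p ∣ n then
        (if p ∣ q then (p - 1 : ℝ) else 1) else
        ((if p ∣ m then (0 : ℝ) else 1) * (if p ∣ q then (-1 : ℝ) else 1))) := by
    funext n
    rw [sum_filter, sum_mul]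
    apply sum_congr rfl
    intro m hm
    have hm' := mem_div.1 hm
    have e1 : ∏ p ∈ q.primeFactors, (if p ∣ n then (p - 1 : ℝ) else -1) =
        ∏ p ∈ pr R, if p ∣ q then (if p ∣ n then (p - 1 : ℝ) else -1) else 1 := by
      rw [← inter_eq_right.2 (div_pf hq), ← Finset.prod_ite_mem]
      apply prod_congr rfl
      intro p hp
      have h2 : p ∈ q.primeFactors ↔ p ∣ q := by
        rw [Nat.mem_primeFactors]
        exact ⟨fun h => h.2.1, fun h => ⟨pr_prime hp, h, (div_pos' hq).ne'⟩⟩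
      by_cases h3 : p ∣ q
      · rw [if_pos (h2.2 h3), if_pos h3]
      · rw [if_neg fun h => h3 (h2.1 h), if_neg h3]
    have e2 : (if m ∣ n then c m else 0) = c m * ∏ p ∈ pr R,
        if p ∣ m then (if p ∣ n then (1 : ℝ) else 0) else 1 := by
      have e3 : ∏ p ∈ pr R, (if p ∣ m then (if p ∣ n then (1 : ℝ) else 0) else 1) =
          ∏ p ∈ m.primeFactors, (if p ∣ n then (1 : ℝ) else 0) := by
        rw [← inter_eq_right.2 (div_pf hm'), ← Finset.prod_ite_mem]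
        apply prod_congr rfl
        intro p hp
        have h2 : p ∈ m.primeFactors ↔ p ∣ m := by
          rw [Nat.mem_primeFactors]
          exact ⟨fun h => h.2.1, fun h => ⟨pr_prime hp, h, (div_pos' hm').ne'⟩⟩
        by_cases h3 : p ∣ m
        · rw [if_pos (h2.2 h3), if_pos h3]
        · rw [if_neg fun h => h3 (h2.1 h), if_neg h3]
      rw [e3, Finset.prod_ite_zero]
      have h4 := prod_dvd_iff (T := m.primeFactors)
        (fun p hp => Nat.prime_of_mem_primeFactors hp) n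
      rw [Nat.prod_primeFactors_of_squarefree (div_squarefree hm')] at h4
      by_cases h5 : m ∣ n
      · rw [if_pos h5, if_pos (h4.1 h5), prod_const_one, mul_one]
      · rw [if_neg h5, if_neg fun h => h5 (h4.2 h), mul_zero]
    rw [e1, e2, mul_assoc, ← prod_mul_distrib]
    congr 1
    apply prod_congr rfl
    intro p _
    by_cases h2 : p ∣ n <;> by_cases h3 : p ∣ m <;> by_cases h4 : p ∣ q <;> simp [h2, h3, h4]
  rw [h1, Ea_sum]
  unfold Vq
  rw [sum_filter, mul_sum]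
  apply sum_congr rfl
  intro m hm
  have hm' := mem_div.1 hm
  rw [Ea_mul, avg_prod R (fun p => (if p ∣ m then (0 : ℝ) else 1) * (if p ∣ q then (-1 : ℝ) else 1))
    (fun p => if p ∣ q then (p - 1 : ℝ) else 1)]
  have hpf : ∀ {a : ℕ}, a ∣ PP R → ∀ f : ℕ → ℝ,
      ∏ p ∈ pr R, (if p ∣ a then f p else 1) = ∏ p ∈ a.primeFactors, f p := by
    intro a ha f
    rw [← inter_eq_right.2 (div_pf ha), ← Finset.prod_ite_mem]
    apply prod_congr rfl
    intro p hp
    have h2 : p ∈ a.primeFactors ↔ p ∣ a := by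
      rw [Nat.mem_primeFactors]
      exact ⟨fun h => h.2.1, fun h => ⟨pr_prime hp, h, (div_pos' ha).ne'⟩⟩
    by_cases h3 : p ∣ a
    · rw [if_pos (h2.2 h3), if_pos h3]
    · rw [if_neg fun h => h3 (h2.1 h), if_neg h3]
  by_cases hqm : q ∣ m
  · rw [if_pos hqm]
    have h2 : ∀ p ∈ pr R, ((1 - 1 / (p : ℝ)) * ((if p ∣ m then (0 : ℝ) else 1) *
        (if p ∣ q then (-1 : ℝ) else 1)) + 1 / (p : ℝ) * (if p ∣ q then (p - 1 : ℝ) else 1)) =
        (if p ∣ m then 1 / (p : ℝ) else 1) * (if p ∣ q then ((p : ℝ) - 1) else 1) := by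
      intro p hp
      have hp0 : (p : ℝ) ≠ 0 := by exact_mod_cast (pr_prime hp).ne_zero
      by_cases h3 : p ∣ m
      · simp only [h3, if_true]
        ring
      · have h4 : ¬ p ∣ q := fun h => h3 (h.trans hqm)
        simp only [h3, h4, if_false]
        field_simp
        ring
    rw [prod_congr rfl h2, prod_mul_distrib, hpf hm' (fun p => 1 / (p : ℝ)),
      hpf hq (fun p => (p : ℝ) - 1), ← totient_sq (div_squarefree hq)]
    have h5 : ∏ p ∈ m.primeFactors, (1 / (p : ℝ)) = 1 / m := by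
      rw [prod_div_distrib, prod_const_one, ← Nat.cast_prod,
        Nat.prod_primeFactors_of_squarefree (div_squarefree hm')]
    rw [h5]
    ring
  · rw [if_neg hqm, mul_zero]
    symm
    have h3 : ∃ p ∈ q.primeFactors, ¬ p ∣ m := by
      by_contra h
      push Not at h
      apply hqm
      rw [← Nat.prod_primeFactors_of_squarefree (div_squarefree hq)]
      exact (prod_dvd_iff (fun p hp => Nat.prime_of_mem_primeFactors hp) m).2 h
    obtain ⟨p, hp, hpm⟩ := h3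
    have hpR : p ∈ pr R := div_pf hq hp
    rw [prod_eq_zero hpR, mul_zero]
    have hp0 : (p : ℝ) ≠ 0 := by exact_mod_cast (pr_prime hpR).ne_zero
    rw [if_neg hpm, if_pos (Nat.dvd_of_mem_primeFactors hp), if_pos (Nat.dvd_of_mem_primeFactors hp)]
    field_simp
    ring

/-- PROOF. `(∑_{d ∣ n} lam d) ^ 2 = ∑_{d, e} lam d lam e 1_{lcm d e ∣ n}`. -/
theorem Sg_sq (R : ℕ) (g : ℕ → ℝ) (n : ℕ) :
    (Sg R g n) ^ 2 = ∑ m ∈ (PP R).divisors.filter (fun m => m ∣ n), sqc R g m := by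
  unfold Sg sqc
  rw [sq, sum_mul_sum, ← sum_product']
  set T := ((PP R).divisors.filter (fun d => d ∣ n)) ×ˢ ((PP R).divisors.filter (fun d => d ∣ n))
    with hT
  have hmaps : ∀ x ∈ T, Nat.lcm x.1 x.2 ∈ (PP R).divisors.filter (fun m => m ∣ n) := by
    intro x hx
    rw [hT, mem_product, mem_filter, mem_filter, mem_div, mem_div] at hx
    rw [mem_filter, mem_div]
    exact ⟨Nat.lcm_dvd hx.1.1 hx.2.1, Nat.lcm_dvd hx.1.2 hx.2.2⟩
  rw [← sum_fiberwise_of_maps_to hmaps]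
  apply sum_congr rfl
  intro m hm
  rw [mem_filter] at hm
  apply sum_congr _ fun _ _ => rfl
  ext x
  rw [mem_filter, mem_filter, hT, mem_product, mem_product, mem_filter, mem_filter]
  constructor
  · rintro ⟨⟨h1, h2⟩, h3⟩
    exact ⟨⟨h1.1, h2.1⟩, h3⟩
  · rintro ⟨⟨h1, h2⟩, h3⟩
    refine ⟨⟨⟨h1, ?_⟩, ⟨h2, ?_⟩⟩, h3⟩
    · exact (Nat.dvd_lcm_left x.1 x.2).trans (h3 ▸ hm.2)
    · exact (Nat.dvd_lcm_right x.1 x.2).trans (h3 ▸ hm.2)

theorem sqc_abs (R : ℕ) (g : ℕ → ℝ) :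
    ∑ m ∈ (PP R).divisors, |sqc R g m| ≤ (∑ d ∈ (PP R).divisors, |lam R g d|) ^ 2 := by
  rw [sq, sum_mul_sum, ← sum_product']
  have hmaps : ∀ x ∈ (PP R).divisors ×ˢ (PP R).divisors, Nat.lcm x.1 x.2 ∈ (PP R).divisors := by
    intro x hx
    rw [mem_product, mem_div, mem_div] at hx
    rw [mem_div]
    exact Nat.lcm_dvd hx.1 hx.2
  rw [← sum_fiberwise_of_maps_to hmaps]
  apply sum_le_sum
  intro m _
  unfold sqc
  refine (abs_sum_le_sum_abs _ _).trans (le_of_eq ?_)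
  apply sum_congr rfl
  intro x _
  rw [abs_mul]

end Pool.Agent.H.MP_711652_nt.SH
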