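import Mathlib
import Pool.Agent.H.MP_711652_nt.SH.Alg
import Pool.Agent.H.MP_711652_nt.SH.VarE

set_option autoImplicit false

namespace Pool.Agent.H.MP_711652_nt.SH

open Finset

lemma ram_zero (q : ℕ) (hq : 0 < q) : ram q 0 = Nat.totient q := by
  have key := (ArithmeticFunction.sum_eq_iff_sum_mul_moebius_eq (R := ℝ)
    (f := fun q => (Nat.totient q : ℝ)) (g := fun n => (n : ℝ))).1 ?_
  · rw [← key q hq, Nat.sum_divisorsAntidiagonal' (fun a b =>
      ((ArithmeticFunction.moebius a : ℤ) : ℝ) * (b : ℝ))]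
    unfold ram
    rw [filter_true_of_mem fun d _ => dvd_zero d]
  · intro n _
    show _ = (n : ℝ)
    exact_mod_cast Nat.sum_totient n

/-- The number of `j < H` in the class of `i` modulo `d`. -/
lemma card_class (d : ℕ) (hd : 0 < d) (H i : ℕ) :
    |(∑ j ∈ range H, if d ∣ ((i : ℤ) - j).natAbs then (1 : ℝ) else 0) - (H : ℝ) / d| ≤ 1 := by
  have h1 := QW.sum_ind d hd (-i) H
  have h2 : ∀ j ∈ range H, (if d ∣ ((i : ℤ) - j).natAbs then (1 : ℝ) else 0) =
      QW.ind d (-i) j := by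
    intro j _
    unfold QW.ind
    have h3 : d ∣ ((i : ℤ) - j).natAbs ↔ (d : ℤ) ∣ (j : ℤ) + -(i : ℤ) := by
      rw [← Int.natCast_dvd, ← dvd_neg]
      have : -((i : ℤ) - j) = (j : ℤ) + -(i : ℤ) := by ring
      rw [this]
    by_cases h4 : d ∣ ((i : ℤ) - j).natAbs
    · rw [if_pos h4, if_pos (h3.1 h4)]
    · rw [if_neg h4, if_neg fun h => h4 (h3.2 h)]
  rw [sum_congr rfl h2]
  exact h1

lemma gam_eq (H q : ℕ) : gam H q = ∑ d ∈ q.divisors,
    ((ArithmeticFunction.moebius (q / d) : ℤ) : ℝ) * (∑ i ∈ range H, ∑ j ∈ range H,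
      (if d ∣ ((i : ℤ) - j).natAbs then (d : ℝ) else 0)) := by
  unfold gam ram
  have h1 : ∀ d ∈ q.divisors, ((ArithmeticFunction.moebius (q / d) : ℤ) : ℝ) *
      (∑ i ∈ range H, ∑ j ∈ range H, (if d ∣ ((i : ℤ) - j).natAbs then (d : ℝ) else 0)) =
      ∑ i ∈ range H, ∑ j ∈ range H, (if d ∣ ((i : ℤ) - j).natAbs then
        ((ArithmeticFunction.moebius (q / d) : ℤ) : ℝ) * (d : ℝ) else 0) := by
    intro d _
    rw [mul_sum]
    apply sum_congr rfl
    intro i _
    rw [mul_sum]
    apply sum_congr rfl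
    intro j _
    split_ifs <;> ring
  rw [sum_congr rfl h1]
  symm
  rw [sum_comm]
  apply sum_congr rfl
  intro i _
  rw [sum_comm]
  apply sum_congr rfl
  intro j _
  rw [← sum_filter]

lemma sum_moebius (q : ℕ) (hq : 1 < q) :
    ∑ d ∈ q.divisors, ((ArithmeticFunction.moebius (q / d) : ℤ) : ℝ) = 0 := by
  have key := (ArithmeticFunction.sum_eq_iff_sum_mul_moebius_eq (R := ℝ)
    (f := fun n => if n = 1 then (1 : ℝ) else 0) (g := fun _ => (1 : ℝ))).1 ?_
  · have h1 := key q (by omega)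
    rw [Nat.sum_divisorsAntidiagonal' (fun a _ =>
      ((ArithmeticFunction.moebius a : ℤ) : ℝ) * (1 : ℝ))] at h1
    simp only [mul_one] at h1
    rw [h1, if_neg (by omega)]
  · intro n hn
    show ∑ i ∈ n.divisors, (if i = 1 then (1 : ℝ) else 0) = 1
    rw [sum_ite_eq', if_pos (Nat.one_mem_divisors.2 hn.ne')]

/-- PROOF. With `T d = ∑_{i,j<H} (d 1_{d ∣ i - j} - 1)`: `0 ≤ T d` (Cauchy-Schwarz over the classes
mod `d`) and `T d ≤ d H` (`#{j < H : d ∣ i - j} ≤ H / d + 1`), and
`gam H q = ∑_{d ∣ q} μ(q/d) T d` for `q > 1` as `∑_{d ∣ q} μ(q/d) = 0`. -/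
theorem gam_small (H q : ℕ) (hq : 1 < q) : gam H q ≤ q * q.divisors.card * H := by
  rw [gam_eq]
  have h0 := sum_moebius q hq
  have h1 : ∀ d ∈ q.divisors, ((ArithmeticFunction.moebius (q / d) : ℤ) : ℝ) *
      (∑ i ∈ range H, ∑ j ∈ range H, (if d ∣ ((i : ℤ) - j).natAbs then (d : ℝ) else 0)) ≤
      ((ArithmeticFunction.moebius (q / d) : ℤ) : ℝ) * (H : ℝ) ^ 2 + (q : ℝ) * H := by
    intro d hd
    have hd' := Nat.dvd_of_mem_divisors hd
    have hd0 : 0 < d := Nat.pos_of_dvd_of_pos hd' (by omega)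
    have hdR : (0 : ℝ) < d := by exact_mod_cast hd0
    have hdq : (d : ℝ) ≤ q := by exact_mod_cast Nat.le_of_dvd (by omega) hd'
    have h2 : |(∑ i ∈ range H, ∑ j ∈ range H, (if d ∣ ((i : ℤ) - j).natAbs then (d : ℝ) else 0)) -
        (H : ℝ) ^ 2| ≤ H * d := by
      have h3 : (∑ i ∈ range H, ∑ j ∈ range H,
          (if d ∣ ((i : ℤ) - j).natAbs then (d : ℝ) else 0)) - (H : ℝ) ^ 2 =
          ∑ i ∈ range H, (d * ((∑ j ∈ range H,
            if d ∣ ((i : ℤ) - j).natAbs then (1 : ℝ) else 0) - (H : ℝ) / d)) := by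
        have h4 : (H : ℝ) ^ 2 = ∑ i ∈ range H, (H : ℝ) := by simp [sq]
        rw [h4, ← sum_sub_distrib]
        apply sum_congr rfl
        intro i _
        rw [mul_sub, mul_sum]
        congr 1
        · apply sum_congr rfl
          intro j _
          split_ifs <;> ring
        · field_simp
      rw [h3]
      refine (abs_sum_le_sum_abs _ _).trans ?_
      calc ∑ i ∈ range H, |d * ((∑ j ∈ range H,
            if d ∣ ((i : ℤ) - j).natAbs then (1 : ℝ) else 0) - (H : ℝ) / d)| ≤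
          ∑ i ∈ range H, (d : ℝ) := by
            apply sum_le_sum
            intro i _
            rw [abs_mul, abs_of_pos hdR]
            have := card_class d hd0 H i
            nlinarith
        _ = H * d := by simp
    have hmu : |((ArithmeticFunction.moebius (q / d) : ℤ) : ℝ)| ≤ 1 := by
      exact_mod_cast ArithmeticFunction.abs_moebius_le_one
    have h5 : ((ArithmeticFunction.moebius (q / d) : ℤ) : ℝ) * ((∑ i ∈ range H, ∑ j ∈ range H,
        (if d ∣ ((i : ℤ) - j).natAbs then (d : ℝ) else 0)) - (H : ℝ) ^ 2) ≤ 1 * (H * d) := by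
      refine (le_abs_self _).trans ?_
      rw [abs_mul]
      exact mul_le_mul hmu h2 (abs_nonneg _) zero_le_one
    have h6 : (H : ℝ) * d ≤ q * H := by
      rw [mul_comm]
      exact mul_le_mul_of_nonneg_right hdq (Nat.cast_nonneg _)
    linarith
  refine (sum_le_sum h1).trans (le_of_eq ?_)
  rw [sum_add_distrib, ← sum_mul, h0, zero_mul, zero_add, sum_const, nsmul_eq_mul]
  ring

/-- `8 p ≤ c (p - 1) ^ 3`. -/
lemma tau_cube {q : ℕ} (hq : Squarefree q) :
    (q : ℝ) * (q.divisors.card : ℝ) ^ 3 ≤ 64 * (Nat.totient q : ℝ) ^ 3 := by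
  have hq' : (q : ℝ) = ∏ p ∈ q.primeFactors, (p : ℝ) := by
    conv_lhs => rw [← Nat.prod_primeFactors_of_squarefree hq]
    push_cast
    rfl
  have h1 : (q : ℝ) * (q.divisors.card : ℝ) ^ 3 = ∏ p ∈ q.primeFactors, ((p : ℝ) * 8) := by
    rw [card_divisors_sq hq, prod_mul_distrib, ← hq', prod_const, ← pow_mul, mul_comm _ 3,
      pow_mul]
    norm_num
  have h2 : ∏ p ∈ q.primeFactors, ((p : ℝ) * 8) ≤ ∏ p ∈ q.primeFactors,
      (((if p = 2 then (16 : ℝ) else 1) * (if p = 3 then (3 : ℝ) else 1)) * ((p : ℝ) - 1) ^ 3) := by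
    apply prod_le_prod
    · intro p _
      positivity
    · intro p hp
      have hpp := Nat.prime_of_mem_primeFactors hp
      by_cases h2 : p = 2
      · subst h2
        norm_num
      · by_cases h3 : p = 3
        · subst h3
          norm_num
        · rw [if_neg h2, if_neg h3]
          have h5 : 5 ≤ p := by
            have h4 := hpp.two_le
            have h6 : p ≠ 4 := by
              rintro rfl
              exact absurd hpp (by norm_num)
            omega
          have h7 : (5 : ℝ) ≤ p := by exact_mod_cast h5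
          obtain ⟨s, hs⟩ : ∃ s : ℝ, (p : ℝ) = s + 1 := ⟨p - 1, by ring⟩
          have h8 : 4 ≤ s := by linarith
          rw [hs]
          have h9 : s ^ 3 = s * s * s := by ring
          have h10 : 16 ≤ s * s := by nlinarith
          have h11 : 16 * s ≤ s * s * s := by nlinarith
          have e : s + 1 - 1 = s := by ring
          rw [e, h9]
          linarith
  rw [h1]
  refine h2.trans ?_
  rw [prod_mul_distrib, prod_mul_distrib, prod_pow, ← totient_sq hq, prod_ite_eq', prod_ite_eq']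
  apply mul_le_mul_of_nonneg_right _ (by positivity)
  split_ifs <;> norm_num

/-- PROOF. `ram q 0 = φ(q)`, `|ram q h| ≤ ∑_{d ∣ q, d ∣ h} d`, so
`gam H q ≤ H φ(q) + 2 ∑_{0<h<H} (H - h) ∑_{d ∣ q, d ∣ h} d ≤ H φ(q) + 2 H ^ 2 τ(q)`, and
`τ(q) q ^ (1/3) ≤ 4 φ(q)` for squarefree `q` (the factors `2 p ^ (1/3) / (p - 1)` are `< 1` for `p ≥ 5`,
`2.52 * 1.45 < 4`), so `H τ(q) ≤ q ^ (1/3) τ(q) ≤ 4 φ(q)`. -/
theorem gam_large (H q : ℕ) (hq : Squarefree q) (hH : H ^ 3 ≤ q) :
    gam H q ≤ 9 * H * Nat.totient q := by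
  have hq0 : 0 < q := Nat.pos_of_ne_zero hq.ne_zero
  have hφ : (0 : ℝ) ≤ Nat.totient q := Nat.cast_nonneg _
  have hH0 : (0 : ℝ) ≤ H := Nat.cast_nonneg _
  have h1 : ∀ i ∈ range H, ∑ j ∈ range H, ram q ((i : ℤ) - j).natAbs ≤
      Nat.totient q + H * q.divisors.card := by
    intro i hi
    rw [← sum_erase_add _ _ hi]
    have h2 : ram q ((i : ℤ) - i).natAbs = Nat.totient q := by
      rw [sub_self, Int.natAbs_zero, ram_zero q hq0]
    rw [h2, add_comm]
    apply add_le_add le_rfl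
    have h3 : ∀ j ∈ (range H).erase i, ram q ((i : ℤ) - j).natAbs ≤
        ∑ d ∈ q.divisors, (if d ∣ ((i : ℤ) - j).natAbs then (d : ℝ) else 0) := by
      intro j _
      unfold ram
      rw [sum_filter]
      apply sum_le_sum
      intro d _
      split_ifs
      · have hmu : ((ArithmeticFunction.moebius (q / d) : ℤ) : ℝ) ≤ 1 := by
          have := (abs_le.1 (ArithmeticFunction.abs_moebius_le_one (n := q / d))).2
          exact_mod_cast this
        have hd : (0 : ℝ) ≤ d := Nat.cast_nonneg _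
        nlinarith
      · exact le_rfl
    refine (sum_le_sum h3).trans ?_
    rw [sum_comm]
    calc ∑ d ∈ q.divisors, ∑ j ∈ (range H).erase i,
          (if d ∣ ((i : ℤ) - j).natAbs then (d : ℝ) else 0) ≤ ∑ d ∈ q.divisors, (H : ℝ) := by
          apply sum_le_sum
          intro d hd
          have hd0 : 0 < d := Nat.pos_of_mem_divisors hd
          have hdR : (0 : ℝ) < d := by exact_mod_cast hd0
          have h4 := (abs_le.1 (card_class d hd0 H i)).2
          rw [← sum_erase_add _ _ hi] at h4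
          rw [sub_self, Int.natAbs_zero, if_pos (dvd_zero d)] at h4
          have h5 : ∑ j ∈ (range H).erase i, (if d ∣ ((i : ℤ) - j).natAbs then (d : ℝ) else 0) =
              d * ∑ j ∈ (range H).erase i,
                (if d ∣ ((i : ℤ) - j).natAbs then (1 : ℝ) else 0) := by
            rw [mul_sum]
            apply sum_congr rfl
            intro j _
            split_ifs <;> ring
          rw [h5]
          have h6 : ∑ j ∈ (range H).erase i,
                (if d ∣ ((i : ℤ) - j).natAbs then (1 : ℝ) else 0) ≤ (H : ℝ) / d := by linarith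
          calc _ ≤ (d : ℝ) * ((H : ℝ) / d) := mul_le_mul_of_nonneg_left h6 hdR.le
            _ = H := by field_simp
      _ = H * q.divisors.card := by
          rw [sum_const, nsmul_eq_mul]
          ring
  have h2 : gam H q ≤ H * (Nat.totient q + H * q.divisors.card) := by
    unfold gam
    refine (sum_le_sum h1).trans (le_of_eq ?_)
    rw [sum_const, card_range, nsmul_eq_mul]
  have h3 : (H : ℝ) * q.divisors.card ≤ 4 * Nat.totient q := by
    have h4 := tau_cube hq
    have h5 : (H : ℝ) ^ 3 ≤ q := by exact_mod_cast hH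
    have h6 : ((H : ℝ) * q.divisors.card) ^ 3 ≤ (4 * Nat.totient q) ^ 3 := by
      rw [mul_pow, mul_pow]
      calc (H : ℝ) ^ 3 * (q.divisors.card : ℝ) ^ 3 ≤ q * (q.divisors.card : ℝ) ^ 3 := by gcongr
        _ ≤ 64 * (Nat.totient q : ℝ) ^ 3 := h4
        _ = _ := by norm_num
    exact le_of_pow_le_pow_left₀ (by norm_num) (by positivity) h6
  calc gam H q ≤ H * (Nat.totient q + H * q.divisors.card) := h2
    _ ≤ H * (Nat.totient q + 4 * Nat.totient q) := by gcongr
    _ = 5 * (H * Nat.totient q) := by ring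
    _ ≤ 9 * (H * Nat.totient q) := by
        have : 0 ≤ (H : ℝ) * Nat.totient q := by positivity
        linarith
    _ = _ := by ring

/-- PROOF. `q / φ(q) ≤ τ(q)` and `100 ^ ω(q) ≤ τ(q) ^ 7` for squarefree `q`; `Ts_le` of `QW/DivSums`. -/
theorem small_sum (Q : ℕ) : ∃ N : ℕ, ∑ q ∈ (Icc 1 Q).filter Squarefree,
    (q : ℝ) * q.divisors.card * 100 ^ q.primeFactors.card / (Nat.totient q : ℝ) ^ 2 ≤
      (1 + Real.log Q) ^ N ∧ N = 1024 := by
  refine ⟨2 ^ 10, ?_, by norm_num⟩
  refine le_trans ?_ (QW.Ts_le 10 Q)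
  unfold QW.Ts
  refine le_trans ?_ (sum_le_sum_of_subset_of_nonneg (filter_subset Squarefree (Icc 1 Q))
    fun m _ _ => by positivity)
  apply sum_le_sum
  intro q hq
  rw [mem_filter, mem_Icc] at hq
  have hq0 : (0 : ℝ) < q := by exact_mod_cast hq.1.1
  have hφ : (0 : ℝ) < Nat.totient q := by exact_mod_cast Nat.totient_pos.2 hq.1.1
  have h1 := div_totient_le hq.2
  have h2 : (100 : ℝ) ^ q.primeFactors.card ≤ (q.divisors.card : ℝ) ^ 7 := by
    rw [card_divisors_sq hq.2, ← pow_mul, mul_comm, pow_mul]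
    exact pow_le_pow_left₀ (by norm_num) (by norm_num) _
  have h3 : ((q : ℝ) / Nat.totient q) ^ 2 ≤ (q.divisors.card : ℝ) ^ 2 :=
    pow_le_pow_left₀ (by positivity) h1 2
  calc (q : ℝ) * q.divisors.card * 100 ^ q.primeFactors.card / (Nat.totient q : ℝ) ^ 2 =
      ((q : ℝ) / Nat.totient q) ^ 2 * (q.divisors.card * 100 ^ q.primeFactors.card) / q := by
        field_simp
    _ ≤ (q.divisors.card : ℝ) ^ 2 * (q.divisors.card * (q.divisors.card : ℝ) ^ 7) / q := by
        gcongr
    _ = _ := by ring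

end Pool.Agent.H.MP_711652_nt.SH
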