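import Mathlib
import Pool.Agent.H.MP_711652_nt.SH.Indep
import Pool.Agent.H.MP_711652_nt.SH.Mert

set_option autoImplicit false

namespace Pool.Agent.H.MP_711652_nt.SH

open Finset MeasureTheory

/-- The product over the primes dividing `n`. -/
noncomputable def Aw (R : ℕ) (n : ℕ) (t : ℝ) : ℝ :=
  ∏ p ∈ (pr R).filter (fun p => p ∣ n), aw R (1 + |t|) p

lemma one_le_T (t : ℝ) : 1 ≤ 1 + |t| := by
  have := abs_nonneg t
  linarith

lemma Aw_nonneg {R : ℕ} (hR : 2 ≤ R) (n : ℕ) (t : ℝ) : 0 ≤ Aw R n t :=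
  prod_nonneg fun p _ => aw_nonneg hR (one_le_T t) p

lemma Aw_le {R : ℕ} (hR : 2 ≤ R) (n : ℕ) (t : ℝ) :
    Aw R n t ≤ 2 ^ ((pr R).filter (fun p => p ∣ n)).card := by
  unfold Aw
  rw [← prod_const]
  exact prod_le_prod (fun p _ => aw_nonneg hR (one_le_T t) p) fun p _ => aw_le_two R _ p

lemma Aw_cont (R : ℕ) (n : ℕ) : Continuous (Aw R n) := by
  unfold Aw aw
  fun_prop

lemma int_bdd {K f : ℝ → ℝ} (hK0 : ∀ t, 0 ≤ K t) (hKi : Integrable K) (hf : Continuous f) (B : ℝ)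
    (hf0 : ∀ t, 0 ≤ f t) (hfB : ∀ t, f t ≤ B) : Integrable (fun t => K t * f t) := by
  refine (hKi.mul_const B).mono' (hKi.aestronglyMeasurable.mul hf.aestronglyMeasurable) ?_
  filter_upwards with t
  rw [Real.norm_of_nonneg (mul_nonneg (hK0 t) (hf0 t))]
  exact mul_le_mul_of_nonneg_left (hfB t) (hK0 t)

/-- Cauchy-Schwarz. -/
lemma cs {K f : ℝ → ℝ} (hK0 : ∀ t, 0 ≤ K t) (hKi : Integrable K) (hf : Continuous f) (B : ℝ)
    (hf0 : ∀ t, 0 ≤ f t) (hfB : ∀ t, f t ≤ B) :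
    (∫ t, K t * f t) ^ 2 ≤ (∫ t, K t) * ∫ t, K t * f t ^ 2 := by
  have h1 := int_bdd hK0 hKi hf B hf0 hfB
  have h2 : Integrable (fun t => K t * f t ^ 2) :=
    int_bdd hK0 hKi (hf.pow 2) (B ^ 2) (fun t => sq_nonneg _)
      fun t => pow_le_pow_left₀ (hf0 t) (hfB t) 2
  have h3 : ∀ x : ℝ, 0 ≤ (∫ t, K t) * (x * x) + (-2 * ∫ t, K t * f t) * x +
      ∫ t, K t * f t ^ 2 := by
    intro x
    have h4 : ∫ t, K t * (x - f t) ^ 2 = (∫ t, K t) * (x * x) + (-2 * ∫ t, K t * f t) * x +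
        ∫ t, K t * f t ^ 2 := by
      have h5 : (fun t => K t * (x - f t) ^ 2) = fun t => (K t * (x * x) +
          (-2 * x) * (K t * f t)) + K t * f t ^ 2 := by
        funext t
        ring
      have h6 : Integrable (fun t => K t * (x * x) + (-2 * x) * (K t * f t)) :=
        (hKi.mul_const _).add (h1.const_mul _)
      rw [h5, integral_add h6 h2,
        integral_add (hKi.mul_const _) (h1.const_mul _), integral_mul_const, integral_const_mul]
      ring
    rw [← h4]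
    exact integral_nonneg fun t => mul_nonneg (hK0 t) (sq_nonneg _)
  have h4 := discrim_le_zero h3
  unfold discrim at h4
  nlinarith

lemma cs4 {K f : ℝ → ℝ} (hK0 : ∀ t, 0 ≤ K t) (hKi : Integrable K) (hf : Continuous f) (B : ℝ)
    (hf0 : ∀ t, 0 ≤ f t) (hfB : ∀ t, f t ≤ B) :
    (∫ t, K t * f t) ^ 4 ≤ (∫ t, K t) ^ 3 * ∫ t, K t * f t ^ 4 := by
  have h1 := cs hK0 hKi hf B hf0 hfB
  have h2 : (∫ t, K t * f t ^ 2) ^ 2 ≤ (∫ t, K t) * ∫ t, K t * (f t ^ 2) ^ 2 :=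
    cs (f := fun t => f t ^ 2) hK0 hKi (hf.pow 2) (B ^ 2) (fun t => sq_nonneg (f t))
      fun t => pow_le_pow_left₀ (hf0 t) (hfB t) 2
  have h3 : (fun t => K t * (f t ^ 2) ^ 2) = fun t => K t * f t ^ 4 := by
    funext t
    ring
  have hI : 0 ≤ ∫ t, K t := integral_nonneg hK0
  rw [h3] at h2
  calc (∫ t, K t * f t) ^ 4 = ((∫ t, K t * f t) ^ 2) ^ 2 := by ring
    _ ≤ ((∫ t, K t) * ∫ t, K t * f t ^ 2) ^ 2 := pow_le_pow_left₀ (sq_nonneg _) h1 2
    _ = (∫ t, K t) ^ 2 * (∫ t, K t * f t ^ 2) ^ 2 := by ring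
    _ ≤ (∫ t, K t) ^ 2 * ((∫ t, K t) * ∫ t, K t * f t ^ 4) :=
        mul_le_mul_of_nonneg_left h2 (by positivity)
    _ = _ := by ring

lemma Ea_integral (R : ℕ) (F : ℕ → ℝ → ℝ) (hF : ∀ n, Integrable (F n)) :
    Ea R (fun n => ∫ t, F n t) = ∫ t, Ea R (fun n => F n t) := by
  unfold Ea
  rw [← integral_finsetSum _ fun n _ => hF n, ← integral_div]

lemma Ea_const_mul_fun (R : ℕ) (K : ℝ → ℝ) (F : ℕ → ℝ → ℝ) (t : ℝ) :
    Ea R (fun n => K t * F n t) = K t * Ea R (fun n => F n t) := Ea_mul R (K t) fun n => F n t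

lemma Aw_pow (R n j : ℕ) (t : ℝ) :
    Aw R n t ^ j = ∏ p ∈ pr R, if p ∣ n then aw R (1 + |t|) p ^ j else 1 := by
  unfold Aw
  rw [← prod_pow, prod_filter]

/-- **Fourth moment.** PROOF. `Good.bound`, Hoelder (Jensen): `(∫ K A) ^ 4 ≤ (∫ K) ^ 3 ∫ K A ^ 4` with
`A t = ∏_{p ∣ n} aw R (1 + |t|) p`; exchange `Ea` (a finite sum) and the integral; `avg_prod` with
`v p = aw ^ 4`, `u p = 1`: `Ea ∏_{p ∣ n} aw ^ 4 = ∏ (1 + (aw ^ 4 - 1)/p) ≤ C (1 + |t|) ^ 16 / log R`
(`prod_aw`), and `(1 + |t|) ^ 16 K` is integrable. -/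
theorem fourth (η : ℝ) (g0 K : ℝ → ℝ) (C : ℝ) (h : Good η g0 K C) : ∃ C' : ℝ, 1 ≤ C' ∧
    ∀ R : ℕ, 2 ≤ R → Ea R (fun n => (Sg R (cut g0 R) n) ^ 4) ≤ C' / Real.log R := by
  obtain ⟨C₂, hC₂, haw⟩ := prod_aw 4 (by norm_num)
  have hKi : Integrable K := by
    have := h.Ki 0
    simpa using this
  have hC0 : 0 ≤ C := zero_le_one.trans h.C1
  have hI : 0 ≤ ∫ t, K t := integral_nonneg h.K0
  set D := C ^ 4 * (∫ t, K t) ^ 3 * (C₂ * ∫ t, (1 + |t|) ^ (2 ^ 4) * K t) with hD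
  refine ⟨max 1 D, le_max_left _ _, fun R hR => ?_⟩
  have hR1 : (1 : ℝ) < R := by exact_mod_cast (show 1 < R by omega)
  have hl : 0 < Real.log R := Real.log_pos hR1
  have h1 : ∀ n, (Sg R (cut g0 R) n) ^ 4 ≤ C ^ 4 * (∫ t, K t) ^ 3 * ∫ t, K t * Aw R n t ^ 4 := by
    intro n
    have h2 := h.bound R hR n
    have h3 : |Sg R (cut g0 R) n| ^ 4 ≤ (C * ∫ t, K t * Aw R n t) ^ 4 :=
      pow_le_pow_left₀ (abs_nonneg _) h2 4
    have h4 : |Sg R (cut g0 R) n| ^ 4 = (Sg R (cut g0 R) n) ^ 4 := by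
      rw [show (4 : ℕ) = 2 * 2 by norm_num, pow_mul, pow_mul, sq_abs]
    rw [← h4]
    refine h3.trans ?_
    rw [mul_pow, mul_assoc]
    apply mul_le_mul_of_nonneg_left _ (by positivity)
    exact cs4 h.K0 hKi (Aw_cont R n) _ (Aw_nonneg hR n) (Aw_le hR n)
  have h2 : Ea R (fun n => (Sg R (cut g0 R) n) ^ 4) ≤
      C ^ 4 * (∫ t, K t) ^ 3 * Ea R (fun n => ∫ t, K t * Aw R n t ^ 4) := by
    rw [← Ea_mul]
    exact Ea_mono _ _ _ h1
  have hint : ∀ n, Integrable (fun t => K t * Aw R n t ^ 4) := fun n =>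
    int_bdd h.K0 hKi ((Aw_cont R n).pow 4) _ (fun t => pow_nonneg (Aw_nonneg hR n t) 4)
      fun t => pow_le_pow_left₀ (Aw_nonneg hR n t) (Aw_le hR n t) 4
  rw [Ea_integral R _ hint] at h2
  have h3 : ∫ t, Ea R (fun n => K t * Aw R n t ^ 4) ≤
      ∫ t, C₂ / Real.log R * ((1 + |t|) ^ (2 ^ 4) * K t) := by
    apply integral_mono_of_nonneg
    · filter_upwards with t
      exact Ea_nonneg R _ fun n => mul_nonneg (h.K0 t) (pow_nonneg (Aw_nonneg hR n t) 4)
    · exact (h.Ki (2 ^ 4)).const_mul _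
    · filter_upwards with t
      rw [Ea_const_mul_fun R K (fun n t => Aw R n t ^ 4) t]
      simp only [Aw_pow]
      rw [avg_prod R (fun _ => 1) (fun p => aw R (1 + |t|) p ^ 4)]
      have h4 : ∏ p ∈ pr R, ((1 - 1 / (p : ℝ)) * 1 + 1 / (p : ℝ) * aw R (1 + |t|) p ^ 4) =
          ∏ p ∈ pr R, (1 + (aw R (1 + |t|) p ^ 4 - 1) / p) := by
        apply prod_congr rfl
        intro p _
        ring
      rw [h4]
      calc K t * ∏ p ∈ pr R, (1 + (aw R (1 + |t|) p ^ 4 - 1) / p) ≤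
          K t * (C₂ * (1 + |t|) ^ (2 ^ 4) / Real.log R) :=
            mul_le_mul_of_nonneg_left (haw R hR _ (one_le_T t)) (h.K0 t)
        _ = _ := by ring
  rw [integral_const_mul] at h3
  calc Ea R (fun n => (Sg R (cut g0 R) n) ^ 4) ≤
      C ^ 4 * (∫ t, K t) ^ 3 * ∫ t, Ea R (fun n => K t * Aw R n t ^ 4) := h2
    _ ≤ C ^ 4 * (∫ t, K t) ^ 3 * (C₂ / Real.log R * ∫ t, (1 + |t|) ^ (2 ^ 4) * K t) := by
        apply mul_le_mul_of_nonneg_left h3 (by positivity)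
    _ = D / Real.log R := by rw [hD]; ring
    _ ≤ max 1 D / Real.log R := div_le_div_of_nonneg_right (le_max_right _ _) hl.le

/-- **Second moment against a Ramanujan sum.** PROOF. The same with squares and `avg_prod`: for
`p ∣ q` the factor is `(1 - 1/p) + (p - 1) aw ^ 2 / p ≤ 5 ≤ 10 (1 + (aw ^ 2 - 1)/p)`. -/
theorem second_q (η : ℝ) (g0 K : ℝ → ℝ) (C : ℝ) (h : Good η g0 K C) : ∃ C' : ℝ, 1 ≤ C' ∧
    ∀ R : ℕ, 2 ≤ R → ∀ q : ℕ, q ∣ PP R →
    Ea R (fun n => (Sg R (cut g0 R) n) ^ 2 *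
      ∏ p ∈ q.primeFactors, (if p ∣ n then (p - 1 : ℝ) else 1)) ≤
      C' * 10 ^ q.primeFactors.card / Real.log R := by
  obtain ⟨C₂, hC₂, haw⟩ := prod_aw 2 (by norm_num)
  have hKi : Integrable K := by
    have := h.Ki 0
    simpa using this
  have hC0 : 0 ≤ C := zero_le_one.trans h.C1
  have hI : 0 ≤ ∫ t, K t := integral_nonneg h.K0
  set D := C ^ 2 * (∫ t, K t) * (C₂ * ∫ t, (1 + |t|) ^ (2 ^ 2) * K t) with hD
  refine ⟨max 1 D, le_max_left _ _, fun R hR q hq => ?_⟩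
  have hR1 : (1 : ℝ) < R := by exact_mod_cast (show 1 < R by omega)
  have hl : 0 < Real.log R := Real.log_pos hR1
  set W : ℕ → ℝ := fun n => ∏ p ∈ q.primeFactors, (if p ∣ n then (p - 1 : ℝ) else 1) with hW
  have hW0 : ∀ n, 0 ≤ W n := by
    intro n
    apply prod_nonneg
    intro p hp
    have : (2 : ℝ) ≤ p := by exact_mod_cast (Nat.prime_of_mem_primeFactors hp).two_le
    split_ifs
    · linarith
    · exact zero_le_one
  have h1 : ∀ n, (Sg R (cut g0 R) n) ^ 2 * W n ≤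
      C ^ 2 * (∫ t, K t) * ∫ t, K t * (Aw R n t ^ 2 * W n) := by
    intro n
    have h2 := h.bound R hR n
    have h3 : |Sg R (cut g0 R) n| ^ 2 ≤ (C * ∫ t, K t * Aw R n t) ^ 2 :=
      pow_le_pow_left₀ (abs_nonneg _) h2 2
    rw [sq_abs] at h3
    have h4 : (Sg R (cut g0 R) n) ^ 2 ≤ C ^ 2 * ((∫ t, K t) * ∫ t, K t * Aw R n t ^ 2) := by
      refine h3.trans ?_
      rw [mul_pow]
      apply mul_le_mul_of_nonneg_left _ (by positivity)
      exact cs h.K0 hKi (Aw_cont R n) _ (Aw_nonneg hR n) (Aw_le hR n)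
    have h5 : ∫ t, K t * (Aw R n t ^ 2 * W n) = (∫ t, K t * Aw R n t ^ 2) * W n := by
      rw [← integral_mul_const]
      congr 1
      funext t
      ring
    rw [h5]
    calc (Sg R (cut g0 R) n) ^ 2 * W n ≤
        C ^ 2 * ((∫ t, K t) * ∫ t, K t * Aw R n t ^ 2) * W n :=
          mul_le_mul_of_nonneg_right h4 (hW0 n)
      _ = _ := by ring
  have h2 : Ea R (fun n => (Sg R (cut g0 R) n) ^ 2 * W n) ≤
      C ^ 2 * (∫ t, K t) * Ea R (fun n => ∫ t, K t * (Aw R n t ^ 2 * W n)) := by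
    rw [← Ea_mul]
    exact Ea_mono _ _ _ h1
  have hint : ∀ n, Integrable (fun t => K t * (Aw R n t ^ 2 * W n)) := fun n =>
    int_bdd h.K0 hKi (((Aw_cont R n).pow 2).mul continuous_const) _
      (fun t => mul_nonneg (pow_nonneg (Aw_nonneg hR n t) 2) (hW0 n))
      fun t => mul_le_mul_of_nonneg_right
        (pow_le_pow_left₀ (Aw_nonneg hR n t) (Aw_le hR n t) 2) (hW0 n)
  rw [Ea_integral R _ hint] at h2
  have h3 : ∫ t, Ea R (fun n => K t * (Aw R n t ^ 2 * W n)) ≤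
      ∫ t, C₂ * 10 ^ q.primeFactors.card / Real.log R * ((1 + |t|) ^ (2 ^ 2) * K t) := by
    apply integral_mono_of_nonneg
    · filter_upwards with t
      exact Ea_nonneg R _ fun n =>
        mul_nonneg (h.K0 t) (mul_nonneg (pow_nonneg (Aw_nonneg hR n t) 2) (hW0 n))
    · exact (h.Ki (2 ^ 2)).const_mul _
    · filter_upwards with t
      rw [Ea_const_mul_fun R K (fun n t => Aw R n t ^ 2 * W n) t]
      have e1 : (fun n => Aw R n t ^ 2 * W n) = fun n => ∏ p ∈ pr R, if p ∣ n then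
          aw R (1 + |t|) p ^ 2 * (if p ∈ q.primeFactors then (p - 1 : ℝ) else 1) else 1 := by
        funext n
        have e2 : W n = ∏ p ∈ pr R, if p ∈ q.primeFactors then
            (if p ∣ n then (p - 1 : ℝ) else 1) else 1 := by
          rw [Finset.prod_ite_mem, inter_eq_right.2 (div_pf hq)]
        rw [e2, Aw_pow, ← prod_mul_distrib]
        apply prod_congr rfl
        intro p _
        by_cases h5 : p ∣ n <;> by_cases h6 : p ∈ q.primeFactors
        · rw [if_pos h5, if_pos h6, if_pos h5, if_pos h5, if_pos h6]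
        · rw [if_pos h5, if_neg h6, if_pos h5, if_neg h6]
        · rw [if_neg h5, if_pos h6, if_neg h5, if_neg h5, one_mul]
        · rw [if_neg h5, if_neg h6, if_neg h5, one_mul]
      rw [e1, avg_prod R (fun _ => 1) (fun p => aw R (1 + |t|) p ^ 2 *
        (if p ∈ q.primeFactors then (p - 1 : ℝ) else 1))]
      have h4 : ∏ p ∈ pr R, ((1 - 1 / (p : ℝ)) * 1 + 1 / (p : ℝ) * (aw R (1 + |t|) p ^ 2 *
          (if p ∈ q.primeFactors then (p - 1 : ℝ) else 1))) ≤
          ∏ p ∈ pr R, ((if p ∈ q.primeFactors then (10 : ℝ) else 1) *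
            (1 + (aw R (1 + |t|) p ^ 2 - 1) / p)) := by
        apply prod_le_prod
        · intro p hp
          have hp1 : (2 : ℝ) ≤ p := by exact_mod_cast (pr_prime hp).two_le
          have h5 : 0 ≤ 1 - 1 / (p : ℝ) := by
            rw [sub_nonneg, div_le_one (by linarith)]
            linarith
          have h6 : (0 : ℝ) ≤ (if p ∈ q.primeFactors then (p - 1 : ℝ) else 1) := by
            split_ifs
            · linarith
            · exact zero_le_one
          have h7 : 0 ≤ 1 / (p : ℝ) := by positivity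
          have h8 : 0 ≤ aw R (1 + |t|) p ^ 2 := sq_nonneg _
          positivity
        · intro p hp
          have hp1 : (2 : ℝ) ≤ p := by exact_mod_cast (pr_prime hp).two_le
          have hp0 : (0 : ℝ) < p := by linarith
          have ha : aw R (1 + |t|) p ^ 2 ≤ 4 := by
            have := pow_le_pow_left₀ (aw_nonneg hR (one_le_T t) p) (aw_le_two R (1 + |t|) p) 2
            linarith
          have ha0 : 0 ≤ aw R (1 + |t|) p ^ 2 := sq_nonneg _
          split_ifs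
          · have h9 : (1 - 1 / (p : ℝ)) * 1 + 1 / (p : ℝ) * (aw R (1 + |t|) p ^ 2 * (p - 1)) ≤ 5 := by
              have e3 : (1 - 1 / (p : ℝ)) * 1 + 1 / (p : ℝ) * (aw R (1 + |t|) p ^ 2 * (p - 1)) =
                  (1 - 1 / (p : ℝ)) * (1 + aw R (1 + |t|) p ^ 2) := by
                field_simp
              rw [e3]
              have h10 : 0 ≤ 1 / (p : ℝ) := by positivity
              have h11 : 1 - 1 / (p : ℝ) ≤ 1 := by linarith
              nlinarith
            have h12 : (1 / 2 : ℝ) ≤ 1 + (aw R (1 + |t|) p ^ 2 - 1) / p := by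
              have h13 : (-1 / 2 : ℝ) ≤ (aw R (1 + |t|) p ^ 2 - 1) / p := by
                rw [le_div_iff₀ hp0]
                linarith
              linarith
            linarith
          · apply le_of_eq
            field_simp
            ring
      have h5 : ∏ p ∈ pr R, ((if p ∈ q.primeFactors then (10 : ℝ) else 1) *
            (1 + (aw R (1 + |t|) p ^ 2 - 1) / p)) = 10 ^ q.primeFactors.card *
            ∏ p ∈ pr R, (1 + (aw R (1 + |t|) p ^ 2 - 1) / p) := by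
        rw [prod_mul_distrib, Finset.prod_ite_mem, inter_eq_right.2 (div_pf hq), prod_const]
      rw [h5] at h4
      calc K t * ∏ p ∈ pr R, ((1 - 1 / (p : ℝ)) * 1 + 1 / (p : ℝ) * (aw R (1 + |t|) p ^ 2 *
          (if p ∈ q.primeFactors then (p - 1 : ℝ) else 1))) ≤
          K t * (10 ^ q.primeFactors.card * ∏ p ∈ pr R, (1 + (aw R (1 + |t|) p ^ 2 - 1) / p)) :=
            mul_le_mul_of_nonneg_left h4 (h.K0 t)
        _ ≤ K t * (10 ^ q.primeFactors.card * (C₂ * (1 + |t|) ^ (2 ^ 2) / Real.log R)) := by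
            apply mul_le_mul_of_nonneg_left _ (h.K0 t)
            exact mul_le_mul_of_nonneg_left (haw R hR _ (one_le_T t)) (by positivity)
        _ = _ := by ring
  rw [integral_const_mul] at h3
  calc Ea R (fun n => (Sg R (cut g0 R) n) ^ 2 * W n) ≤
      C ^ 2 * (∫ t, K t) * ∫ t, Ea R (fun n => K t * (Aw R n t ^ 2 * W n)) := h2
    _ ≤ C ^ 2 * (∫ t, K t) * (C₂ * 10 ^ q.primeFactors.card / Real.log R *
        ∫ t, (1 + |t|) ^ (2 ^ 2) * K t) := by
        apply mul_le_mul_of_nonneg_left h3 (by positivity)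
    _ = D * 10 ^ q.primeFactors.card / Real.log R := by rw [hD]; ring
    _ ≤ max 1 D * 10 ^ q.primeFactors.card / Real.log R := by
        apply div_le_div_of_nonneg_right _ hl.le
        exact mul_le_mul_of_nonneg_right (le_max_right _ _) (by positivity)

end Pool.Agent.H.MP_711652_nt.SH
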