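import Mathlib
import Pool.Agent.H.MP_711652_nt.SH.Mom
import Pool.Agent.H.MP_711652_nt.SH.VarE
import Pool.Agent.H.MP_711652_nt.SH.Gam
import Pool.Agent.H.MP_711652_nt.SH.Alg
import Pool.Agent.H.MP_711652_nt.SH.Four
import Pool.Agent.H.MP_711652_nt.QW.S1B

set_option autoImplicit false

namespace Pool.Agent.H.MP_711652_nt.SH

open Finset

lemma small_sum' : ∃ N : ℕ, ∀ Q : ℕ, ∑ q ∈ (Icc 1 Q).filter Squarefree,
    (q : ℝ) * q.divisors.card * 100 ^ q.primeFactors.card / (Nat.totient q : ℝ) ^ 2 ≤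
      (1 + Real.log Q) ^ N := by
  refine ⟨1024, fun Q => ?_⟩
  obtain ⟨N, h1, h2⟩ := small_sum Q
  rw [← h2]
  exact h1

open Filter in
lemma ev_loglog (A N : ℕ) : ∀ᶠ R : ℕ in atTop,
    (1 + 3 * (A * Real.log (Real.log R))) ^ N ≤ Real.log R := by
  have h1 := (Real.isLittleO_pow_log_id_atTop (n := N)).bound
    (show 0 < 1 / (1 + 3 * (A : ℝ)) ^ N by positivity)
  have h2 := (Real.tendsto_log_atTop.comp (tendsto_natCast_atTop_atTop (R := ℝ))).eventually h1
  have h3 := QW.ev_log_ge (Real.exp 1)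
  filter_upwards [h2, h3] with R hR hR3
  have hL0 : 0 < Real.log R := (Real.exp_pos 1).trans_le hR3
  have hll : 1 ≤ Real.log (Real.log R) := by
    rw [Real.le_log_iff_exp_le hL0]
    exact hR3
  simp only [Function.comp, id] at hR
  rw [Real.norm_of_nonneg (by positivity), Real.norm_of_nonneg hL0.le] at hR
  calc (1 + 3 * (A * Real.log (Real.log R))) ^ N ≤
      ((1 + 3 * (A : ℝ)) * Real.log (Real.log R)) ^ N := by
        apply pow_le_pow_left₀ (by positivity)
        linarith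
    _ = (1 + 3 * (A : ℝ)) ^ N * Real.log (Real.log R) ^ N := mul_pow _ _ _
    _ ≤ (1 + 3 * (A : ℝ)) ^ N * (1 / (1 + 3 * (A : ℝ)) ^ N * Real.log R) :=
        mul_le_mul_of_nonneg_left hR (by positivity)
    _ = Real.log R := by field_simp

/-- The size of the Fourier coefficients of the square. -/
lemma V_bound (η : ℝ) (g0 K : ℝ → ℝ) (C : ℝ) (h : Good η g0 K C) : ∃ C' : ℝ, 1 ≤ C' ∧
    ∀ R : ℕ, 2 ≤ R → ∀ q : ℕ, q ∣ PP R →
    (Vq (PP R).divisors (sqc R (cut g0 R)) q) ^ 2 ≤
      (C' / Real.log R) ^ 2 * (100 ^ q.primeFactors.card / (Nat.totient q : ℝ) ^ 2) := by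
  obtain ⟨C', hC', h2⟩ := second_q η g0 K C h
  refine ⟨C', hC', fun R hR q hq => ?_⟩
  have h3 := phi_V R (sqc R (cut g0 R)) q hq
  simp only [← Sg_sq] at h3
  have h4 := h2 R hR q hq
  have hφ : (0 : ℝ) < Nat.totient q := by exact_mod_cast Nat.totient_pos.2 (div_pos' hq)
  have hR1 : (1 : ℝ) < R := by exact_mod_cast (show 1 < R by omega)
  have hl : 0 < Real.log R := Real.log_pos hR1
  have h5 : |(Nat.totient q : ℝ) * Vq (PP R).divisors (sqc R (cut g0 R)) q| ≤
      C' * 10 ^ q.primeFactors.card / Real.log R := by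
    rw [h3]
    refine le_trans ?_ h4
    unfold Ea
    rw [abs_div, Nat.abs_cast]
    apply div_le_div_of_nonneg_right _ (Nat.cast_nonneg _)
    refine (abs_sum_le_sum_abs _ _).trans ?_
    apply sum_le_sum
    intro n _
    rw [abs_mul, abs_of_nonneg (sq_nonneg _)]
    apply mul_le_mul_of_nonneg_left _ (sq_nonneg _)
    rw [abs_prod]
    apply prod_le_prod (fun p _ => abs_nonneg _)
    intro p hp
    have hp2 : (2 : ℝ) ≤ p := by exact_mod_cast (Nat.prime_of_mem_primeFactors hp).two_le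
    split_ifs
    · rw [abs_of_nonneg (by linarith)]
    · norm_num
  have h6 : ((Nat.totient q : ℝ) * Vq (PP R).divisors (sqc R (cut g0 R)) q) ^ 2 ≤
      (C' * 10 ^ q.primeFactors.card / Real.log R) ^ 2 := by
    rw [← sq_abs]
    exact pow_le_pow_left₀ (abs_nonneg _) h5 2
  rw [mul_pow] at h6
  have h7 : (C' / Real.log R) ^ 2 * (100 ^ q.primeFactors.card / (Nat.totient q : ℝ) ^ 2) =
      (C' * 10 ^ q.primeFactors.card / Real.log R) ^ 2 / (Nat.totient q : ℝ) ^ 2 := by
    have h8 : (100 : ℝ) ^ q.primeFactors.card = (10 ^ q.primeFactors.card) ^ 2 := by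
      rw [← pow_mul, mul_comm, pow_mul]
      norm_num
    rw [h8]
    ring
  rw [h7, le_div_iff₀ (by positivity)]
  linarith

/-- **The main term of the variance.** PROOF. `V = Vq (divisors) (sqc)`. For `q < H ^ 3`: `gam_small` and
`|V q| ≤ C 10 ^ ω(q) / (φ(q) log R)` (`phi_V`, `Sg_sq`, `second_q`), sum by `small_sum` with
`(1 + 3 log H) ^ 1024 ≤ log R` for large `R`; for `q ≥ H ^ 3`: `gam_large`, `sum_phi_V`, `Sg_sq`,
`fourth`. -/
theorem main_var (η : ℝ) (g0 K : ℝ → ℝ) (C : ℝ) (h : Good η g0 K C) (A : ℕ) : ∃ (C' : ℝ) (R₀ : ℕ),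
    ∀ R : ℕ, R₀ ≤ R → ∀ H : ℕ, (H : ℝ) ≤ (Real.log R) ^ A →
    ∑ q ∈ (PP R).divisors.erase 1, gam H q * (Vq (PP R).divisors (sqc R (cut g0 R)) q) ^ 2 ≤
      C' * H / Real.log R := by
  obtain ⟨C₁, hC₁, hV⟩ := V_bound η g0 K C h
  obtain ⟨C₂, hC₂, h4⟩ := fourth η g0 K C h
  obtain ⟨N, hN⟩ := small_sum'
  obtain ⟨R₁, hR₁⟩ := Filter.eventually_atTop.1 (ev_loglog A N)
  refine ⟨C₁ ^ 2 + 9 * C₂, max R₁ 3, fun R hR H hH => ?_⟩
  have hR2 : 2 ≤ R := by
    have := le_trans (le_max_right R₁ 3) hR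
    omega
  have hR3 : (3 : ℝ) ≤ R := by exact_mod_cast le_trans (le_max_right R₁ 3) hR
  have hl : 1 < Real.log R := by
    rw [Real.lt_log_iff_exp_lt (by linarith)]
    have := Real.exp_one_lt_d9
    linarith
  have hl0 : 0 < Real.log R := by linarith
  have hH0 : (0 : ℝ) ≤ H := Nat.cast_nonneg _
  have hll : 0 ≤ Real.log (Real.log R) := Real.log_nonneg hl.le
  set V := Vq (PP R).divisors (sqc R (cut g0 R)) with hVd
  -- the large moduli
  have hlarge : ∑ q ∈ ((PP R).divisors.erase 1).filter (fun q => H ^ 3 ≤ q), gam H q * V q ^ 2 ≤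
      9 * C₂ * H / Real.log R := by
    calc ∑ q ∈ ((PP R).divisors.erase 1).filter (fun q => H ^ 3 ≤ q), gam H q * V q ^ 2 ≤
        ∑ q ∈ ((PP R).divisors.erase 1).filter (fun q => H ^ 3 ≤ q),
          9 * H * ((Nat.totient q : ℝ) * V q ^ 2) := by
          apply sum_le_sum
          intro q hq
          rw [mem_filter, mem_erase, mem_div] at hq
          have := gam_large H q (div_squarefree hq.1.2) hq.2
          calc gam H q * V q ^ 2 ≤ 9 * H * Nat.totient q * V q ^ 2 :=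
                mul_le_mul_of_nonneg_right this (sq_nonneg _)
            _ = _ := by ring
      _ ≤ ∑ q ∈ (PP R).divisors, 9 * H * ((Nat.totient q : ℝ) * V q ^ 2) := by
          apply sum_le_sum_of_subset_of_nonneg
          · exact (filter_subset _ _).trans (erase_subset _ _)
          · intro q _ _
            positivity
      _ = 9 * H * Ea R (fun n => (Sg R (cut g0 R) n) ^ 4) := by
          rw [← mul_sum, hVd, sum_phi_V]
          congr 2
          funext n
          rw [← Sg_sq]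
          ring
      _ ≤ 9 * H * (C₂ / Real.log R) := by
          apply mul_le_mul_of_nonneg_left (h4 R hR2) (by positivity)
      _ = _ := by ring
  -- the small moduli
  have hsmall : ∑ q ∈ ((PP R).divisors.erase 1).filter (fun q => ¬ H ^ 3 ≤ q),
      gam H q * V q ^ 2 ≤ C₁ ^ 2 * H / Real.log R := by
    calc ∑ q ∈ ((PP R).divisors.erase 1).filter (fun q => ¬ H ^ 3 ≤ q), gam H q * V q ^ 2 ≤
        ∑ q ∈ ((PP R).divisors.erase 1).filter (fun q => ¬ H ^ 3 ≤ q),
          H * (C₁ / Real.log R) ^ 2 * ((q : ℝ) * q.divisors.card * 100 ^ q.primeFactors.card /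
            (Nat.totient q : ℝ) ^ 2) := by
          apply sum_le_sum
          intro q hq
          rw [mem_filter, mem_erase, mem_div] at hq
          have hq0 : 0 < q := div_pos' hq.1.2
          have h5 := gam_small H q (by have := hq.1.1; omega)
          have h6 := hV R hR2 q hq.1.2
          calc gam H q * V q ^ 2 ≤ q * q.divisors.card * H * V q ^ 2 :=
                mul_le_mul_of_nonneg_right h5 (sq_nonneg _)
            _ ≤ q * q.divisors.card * H * ((C₁ / Real.log R) ^ 2 *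
                (100 ^ q.primeFactors.card / (Nat.totient q : ℝ) ^ 2)) :=
                mul_le_mul_of_nonneg_left h6 (by positivity)
            _ = _ := by ring
      _ ≤ ∑ q ∈ (Icc 1 (H ^ 3)).filter Squarefree,
          H * (C₁ / Real.log R) ^ 2 * ((q : ℝ) * q.divisors.card * 100 ^ q.primeFactors.card /
            (Nat.totient q : ℝ) ^ 2) := by
          apply sum_le_sum_of_subset_of_nonneg
          · intro q hq
            rw [mem_filter, mem_erase, mem_div] at hq
            rw [mem_filter, mem_Icc]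
            exact ⟨⟨div_pos' hq.1.2, (not_le.1 hq.2).le⟩, div_squarefree hq.1.2⟩
          · intro q _ _
            positivity
      _ ≤ H * (C₁ / Real.log R) ^ 2 * (1 + Real.log ((H ^ 3 : ℕ) : ℝ)) ^ N := by
          rw [← mul_sum]
          exact mul_le_mul_of_nonneg_left (hN _) (by positivity)
      _ ≤ H * (C₁ / Real.log R) ^ 2 * Real.log R := by
          apply mul_le_mul_of_nonneg_left _ (by positivity)
          refine le_trans ?_ (hR₁ R (le_trans (le_max_left _ _) hR))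
          have h5 : 0 ≤ Real.log ((H ^ 3 : ℕ) : ℝ) := Real.log_natCast_nonneg _
          apply pow_le_pow_left₀ (by linarith)
          have h6 : Real.log ((H ^ 3 : ℕ) : ℝ) ≤ 3 * (A * Real.log (Real.log R)) := by
            push_cast
            rw [Real.log_pow]
            rcases Nat.eq_zero_or_pos H with h7 | h7
            · rw [h7]
              simp only [Nat.cast_zero, Real.log_zero, mul_zero]
              positivity
            · have h8 : (0 : ℝ) < H := by exact_mod_cast h7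
              have h9 := Real.log_le_log h8 hH
              rw [Real.log_pow] at h9
              push_cast
              linarith
          linarith
      _ = _ := by field_simp
  rw [← sum_filter_add_sum_filter_not ((PP R).divisors.erase 1) (fun q => H ^ 3 ≤ q)]
  calc _ ≤ 9 * C₂ * H / Real.log R + C₁ ^ 2 * H / Real.log R := add_le_add hlarge hsmall
    _ = _ := by ring

lemma sum_lam (R : ℕ) (hR : 2 ≤ R) (g : ℕ → ℝ) (h0 : ∀ r, 0 ≤ g r) (h1 : ∀ r, g r ≤ 1)
    (h2 : ∀ r, R < r → g r = 0) (hN : 1 ≤ nrm R g) :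
    ∑ d ∈ (PP R).divisors, |lam R g d| ≤ R * (1 + Real.log R) ^ 4 := by
  have hlR : 0 ≤ Real.log R := Real.log_natCast_nonneg R
  calc ∑ d ∈ (PP R).divisors, |lam R g d| ≤
      ∑ d ∈ (PP R).divisors.filter (fun d => d ≤ R),
        R * (1 + Real.log R) ^ 2 * (((d.divisors.card : ℝ)) ^ 1 / d) := by
        rw [sum_filter]
        apply sum_le_sum
        intro d hd
        obtain ⟨h3, h4⟩ := lam_bound R hR g h0 h1 h2 (by linarith) d (mem_div.1 hd)
        have hd0 : (0 : ℝ) < d := by exact_mod_cast div_pos' (mem_div.1 hd)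
        split_ifs with h5
        · have hdR : (d : ℝ) ≤ R := by exact_mod_cast h5
          calc |lam R g d| ≤ d.divisors.card * (1 + Real.log R) ^ 2 / nrm R g := h4
            _ ≤ d.divisors.card * (1 + Real.log R) ^ 2 := div_le_self (by positivity) hN
            _ = d * (1 + Real.log R) ^ 2 * (((d.divisors.card : ℝ)) ^ 1 / d) := by
                field_simp
            _ ≤ _ := by gcongr
        · rw [h3 (by omega), abs_zero]
    _ ≤ ∑ d ∈ Icc 1 R, R * (1 + Real.log R) ^ 2 * (((d.divisors.card : ℝ)) ^ 1 / d) := by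
        apply sum_le_sum_of_subset_of_nonneg
        · intro d hd
          rw [mem_filter] at hd
          rw [mem_Icc]
          exact ⟨div_pos' (mem_div.1 hd.1), hd.2⟩
        · intro d _ _
          positivity
    _ = R * (1 + Real.log R) ^ 2 * QW.Ts 1 R := by
        rw [← mul_sum]
        rfl
    _ ≤ R * (1 + Real.log R) ^ 2 * (1 + Real.log R) ^ (2 ^ 1) :=
        mul_le_mul_of_nonneg_left (QW.Ts_le 1 R) (by positivity)
    _ = _ := by ring

/-- **The variance of the majorant in short windows.** PROOF. `η = ε / 100`,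
`R = ⌊X ^ (1 / 4 - ε / 100)⌋`; `var_exact`, `main_var`, `lam_bound`
(`3 H ^ 2 (∑ |lam|) ^ 4 ≤ X`), the mean is `Vq 1 = Ea (Sg ^ 2) = nrm⁻² ∑ g ^ 2 / φ ≤ 1 / nrm`
(`mean_sq`, `g ^ 2 ≤ g`, `nrm_ge`) `≤ (4 + ε / 2) / log X`. -/
theorem majorant (ε : ℝ) (hε : 0 < ε) (hε1 : ε ≤ 1) (A : ℕ) : ∃ (C : ℝ) (X₀ : ℕ), 1 ≤ C ∧
    ∀ X : ℕ, X₀ ≤ X → ∃ (ν : ℕ → ℝ) (μ : ℝ), (∀ n, 0 ≤ ν n) ∧ 0 ≤ μ ∧
    μ ≤ (4 + ε / 2) / Real.log X ∧ (∀ n : ℕ, n.Prime → X ≤ n ^ 2 → ν n = 1) ∧
    ∀ H : ℕ, 1 ≤ H → (H : ℝ) ≤ (Real.log X) ^ A →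
      ∑ y ∈ range (4 * X), (∑ n ∈ Ioc y (y + H), ν n - H * μ) ^ 2 ≤ C * X * H / Real.log X := by
  obtain ⟨g0, K, C₀, hG⟩ := good_exists (ε / 100) (by positivity) (by linarith)
  obtain ⟨C', R₀, hvar⟩ := main_var (ε / 100) g0 K C₀ hG (2 * A)
  refine ⟨20 * |C'| + 1, ?_⟩
  obtain ⟨X₁, hX₁⟩ := Filter.eventually_atTop.1 ((QW.s1_params (ε / 2) (by linarith) (by linarith)
    (A + 2 + 16)).and ((QW.ev_log_ge (25 + 5 * Real.log (R₀ + 2))).and
    (Filter.eventually_ge_atTop 2)))
  refine ⟨X₁, by have := abs_nonneg C'; linarith, fun X hX => ?_⟩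
  obtain ⟨⟨R, hR2, hXR, hRX, hR4⟩, hLbig, hX2⟩ := hX₁ X hX
  set L := Real.log X with hL
  set g := cut g0 R with hg
  have hR1 : (1 : ℝ) < R := by exact_mod_cast (show 1 < R by omega)
  have hlR : 0 < Real.log R := Real.log_pos hR1
  have hR0l : 0 ≤ Real.log ((R₀ : ℝ) + 2) := Real.log_nonneg (by
    have : (0 : ℝ) ≤ R₀ := Nat.cast_nonneg _
    linarith)
  have hL25 : 25 ≤ L := by linarith
  have hL0 : 0 < L := by linarith
  have hLR5 : L ≤ 5 * Real.log R := by
    refine hXR.trans ?_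
    apply mul_le_mul_of_nonneg_right _ hlR.le
    linarith
  have hlR5 : 5 ≤ Real.log R := by linarith
  have hRR0 : R₀ ≤ R := by
    have h1 : Real.log ((R₀ : ℝ) + 2) ≤ Real.log R := by linarith
    have h2 : (R₀ : ℝ) + 2 ≤ R := by
      rwa [Real.log_le_log_iff (by positivity) (by linarith)] at h1
    have h3 : (R₀ : ℝ) ≤ R := by linarith
    exact_mod_cast h3
  have hX0 : (0 : ℝ) < X := by exact_mod_cast (show 0 < X by omega)
  -- the cutoff
  have g0n : ∀ r, 0 ≤ g r := fun r => hG.nonneg _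
  have g1 : ∀ r, g r ≤ 1 := fun r => hG.le_one _
  have g2 : ∀ r, R < r → g r = 0 := by
    intro r hr
    apply hG.zero
    rw [le_div_iff₀ hlR, one_mul]
    exact Real.log_le_log (by linarith) (by exact_mod_cast hr.le)
  have hnrm : (1 - ε / 100) * Real.log R ≤ nrm R g :=
    nrm_ge (ε / 100) (by positivity) (by linarith) g0 hG.nonneg hG.one R hR2
  have hnrm1 : 1 ≤ nrm R g := by
    have : (1 / 2 : ℝ) * 5 ≤ (1 - ε / 100) * Real.log R := by
      apply mul_le_mul _ hlR5 (by norm_num) (by linarith)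
      linarith
    linarith
  -- the mean
  have hmean : Vq (PP R).divisors (sqc R g) 1 = Ea R (fun n => (Sg R g n) ^ 2) := by
    have h1 := phi_V R (sqc R g) 1 (one_dvd _)
    simp only [← Sg_sq] at h1
    simpa using h1
  have hmean2 : Ea R (fun n => (Sg R g n) ^ 2) ≤ 1 / nrm R g := by
    rw [mean_sq]
    have h1 : ∑ r ∈ (PP R).divisors, g r ^ 2 / Nat.totient r ≤ nrm R g := by
      unfold nrm
      apply sum_le_sum
      intro r _
      apply div_le_div_of_nonneg_right _ (Nat.cast_nonneg _)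
      have h2 := g0n r
      have h3 := g1 r
      nlinarith
    calc (1 / nrm R g) ^ 2 * ∑ r ∈ (PP R).divisors, g r ^ 2 / Nat.totient r ≤
        (1 / nrm R g) ^ 2 * nrm R g := mul_le_mul_of_nonneg_left h1 (sq_nonneg _)
      _ = 1 / nrm R g := by
          have : nrm R g ≠ 0 := by linarith
          field_simp
  refine ⟨fun n => (Sg R g n) ^ 2, Vq (PP R).divisors (sqc R g) 1, fun n => sq_nonneg _, ?_, ?_,
    ?_, ?_⟩
  · rw [hmean]
    exact Ea_nonneg R _ fun n => sq_nonneg _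
  · rw [hmean]
    refine hmean2.trans ?_
    rw [div_le_div_iff₀ (by linarith) hL0, one_mul]
    have h1 : (4 + ε / 2) * ((1 - ε / 100) * Real.log R) ≤ (4 + ε / 2) * nrm R g :=
      mul_le_mul_of_nonneg_left hnrm (by linarith)
    refine le_trans ?_ h1
    have h2 : (4 + ε / 2 / 2) ≤ (4 + ε / 2) * (1 - ε / 100) := by nlinarith
    calc L ≤ (4 + ε / 2 / 2) * Real.log R := hXR
      _ ≤ (4 + ε / 2) * (1 - ε / 100) * Real.log R := mul_le_mul_of_nonneg_right h2 hlR.le
      _ = _ := by ring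
  · intro n hn hXn
    have h1 : R < n := by
      by_contra h
      have h2 : n ≤ R := by omega
      have h3 : (X : ℝ) ≤ (n : ℝ) ^ 2 := by exact_mod_cast hXn
      have h4 : (n : ℝ) ≤ R := by exact_mod_cast h2
      have h5 : (X : ℝ) ≤ (R : ℝ) ^ 2 := h3.trans (pow_le_pow_left₀ (Nat.cast_nonneg _) h4 2)
      have h6 : (R : ℝ) ^ 4 * L ^ (A + 2 + 16) ≤ (R : ℝ) ^ 2 := hR4.trans h5
      have h7 : 1 ≤ L ^ (A + 2 + 16) := one_le_pow₀ (by linarith)
      have h8 : (R : ℝ) ^ 2 < (R : ℝ) ^ 4 := pow_lt_pow_right₀ hR1 (by norm_num)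
      have h9 : (0 : ℝ) < (R : ℝ) ^ 4 := by positivity
      nlinarith
    have h2 : Nat.Coprime n (PP R) := by
      rw [Nat.Prime.coprime_iff_not_dvd hn]
      intro h3
      have h4 : n ∈ (PP R).primeFactors := Nat.mem_primeFactors.2 ⟨hn, h3, PP_ne R⟩
      rw [PP_primeFactors, mem_pr] at h4
      omega
    show (Sg R g n) ^ 2 = 1
    rw [Sg_coprime R g (by linarith) n h2, one_pow]
  · intro H hH1 hHA
    have hH0 : (1 : ℝ) ≤ H := by exact_mod_cast hH1
    have h1 := var_exact (PP R) (PP_pos R) (sqc R g) (4 * X) H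
    simp only [← Sg_sq] at h1
    refine h1.trans ?_
    have hHR : (H : ℝ) ≤ (Real.log R) ^ (2 * A) := by
      refine hHA.trans ?_
      rw [pow_mul]
      apply pow_le_pow_left₀ hL0.le
      nlinarith
    have h2 := hvar R hRR0 H hHR
    have h3 : ∑ m ∈ (PP R).divisors, |sqc R g m| ≤ (R * (1 + Real.log R) ^ 4) ^ 2 :=
      (sqc_abs R g).trans (pow_le_pow_left₀ (sum_nonneg fun _ _ => abs_nonneg _)
        (sum_lam R hR2 g g0n g1 g2 hnrm1) 2)
    have h4 : (∑ m ∈ (PP R).divisors, |sqc R g m|) ^ 2 ≤ (R : ℝ) ^ 4 * L ^ 16 := by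
      calc (∑ m ∈ (PP R).divisors, |sqc R g m|) ^ 2 ≤ ((R * (1 + Real.log R) ^ 4) ^ 2) ^ 2 :=
            pow_le_pow_left₀ (sum_nonneg fun _ _ => abs_nonneg _) h3 2
        _ = (R : ℝ) ^ 4 * (1 + Real.log R) ^ 16 := by ring
        _ ≤ (R : ℝ) ^ 4 * L ^ 16 := by
            apply mul_le_mul_of_nonneg_left _ (by positivity)
            apply pow_le_pow_left₀ (by linarith)
            linarith
    have h5 : 3 * (H : ℝ) ^ 2 * (∑ m ∈ (PP R).divisors, |sqc R g m|) ^ 2 ≤ X * H / L := by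
      rw [le_div_iff₀ hL0]
      calc 3 * (H : ℝ) ^ 2 * (∑ m ∈ (PP R).divisors, |sqc R g m|) ^ 2 * L ≤
          3 * (H : ℝ) ^ 2 * ((R : ℝ) ^ 4 * L ^ 16) * L := by gcongr
        _ = H * ((H : ℝ) * ((R : ℝ) ^ 4 * L ^ 16) * (3 * L)) := by ring
        _ ≤ H * (L ^ A * ((R : ℝ) ^ 4 * L ^ 16) * (L * L)) := by
            gcongr
            linarith
        _ = H * ((R : ℝ) ^ 4 * L ^ (A + 2 + 16)) := by ring
        _ ≤ H * X := by gcongr
        _ = _ := by ring
    have h6 : ((4 * X : ℕ) : ℝ) * ∑ q ∈ (PP R).divisors.erase 1,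
        gam H q * (Vq (PP R).divisors (sqc R g) q) ^ 2 ≤ 20 * |C'| * X * H / L := by
      have h7 : C' * H / Real.log R ≤ |C'| * H * (5 / L) := by
        have h8 : 1 / Real.log R ≤ 5 / L := by
          rw [div_le_div_iff₀ hlR hL0, one_mul]
          exact hLR5
        calc C' * H / Real.log R ≤ |C'| * H / Real.log R := by
              apply div_le_div_of_nonneg_right _ hlR.le
              exact mul_le_mul_of_nonneg_right (le_abs_self _) (by linarith)
          _ = |C'| * H * (1 / Real.log R) := by ring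
          _ ≤ _ := mul_le_mul_of_nonneg_left h8 (by positivity)
      push_cast
      calc (4 * (X : ℝ)) * ∑ q ∈ (PP R).divisors.erase 1,
          gam H q * (Vq (PP R).divisors (sqc R g) q) ^ 2 ≤
          (4 * (X : ℝ)) * (|C'| * H * (5 / L)) :=
            mul_le_mul_of_nonneg_left (h2.trans h7) (by positivity)
        _ = _ := by ring
    calc _ ≤ 20 * |C'| * X * H / L + X * H / L := add_le_add h6 h5
      _ = _ := by ring

end Pool.Agent.H.MP_711652_nt.SH
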