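import Mathlib
import Pool.Agent.H.MP_711652_nt.SH.VarS
import Pool.Agent.H.MP_711652_nt.QW.S1B
import Pool.Agent.H.MP_711652_nt.QW.Maxi

set_option autoImplicit false

namespace Pool.Agent.H.MP_711652_nt.SH

open Finset Pool.Agent.H.MP_711652_nt.QW

/-- The excess of the density of the primes of a window over `4 + ε`. -/
noncomputable def exc (X H : ℕ) (ε : ℝ) (w : ℕ) : ℝ :=
  max 0 (prIn w (w + H) * Real.log X / H - (4 + ε))

lemma exc_nonneg (X H : ℕ) (ε : ℝ) (w : ℕ) : 0 ≤ exc X H ε w := le_max_left _ _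

lemma exc_prIn_le (w H : ℕ) : prIn w (w + H) ≤ H := by
  unfold prIn
  refine (card_filter_le _ _).trans ?_
  rw [Nat.card_Ioc, Nat.add_sub_cancel_left]

/-- The excess at the points at which the majorant works. -/
lemma exc_pt (X H w : ℕ) (L ε μ : ℝ) (ν : ℕ → ℝ) (hL : L = Real.log X) (hL0 : 0 < L)
    (hε : 0 < ε) (hH : 1 ≤ H) (hν : ∀ n, 0 ≤ ν n) (hμ : μ ≤ (4 + ε / 2) / L)
    (h1 : ∀ n : ℕ, n.Prime → X ≤ n ^ 2 → ν n = 1) (hw : X ≤ w ^ 2) :
    exc X H ε w ≤ (L / H) ^ 2 / (2 * ε) * (∑ n ∈ Ioc w (w + H), ν n - H * μ) ^ 2 := by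
  have hH0 : (0 : ℝ) < H := by exact_mod_cast hH
  obtain ⟨D, hD⟩ : ∃ D, D = ∑ n ∈ Ioc w (w + H), ν n - H * μ := ⟨_, rfl⟩
  rw [← hD]
  have h2 : (prIn w (w + H) : ℝ) ≤ ∑ n ∈ Ioc w (w + H), ν n := by
    unfold prIn
    rw [card_eq_sum_ones, Nat.cast_sum]
    calc ∑ n ∈ (Ioc w (w + H)).filter Nat.Prime, ((1 : ℕ) : ℝ)
        = ∑ n ∈ (Ioc w (w + H)).filter Nat.Prime, ν n := by
          apply sum_congr rfl
          intro n hn
          rw [mem_filter, mem_Ioc] at hn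
          rw [h1 n hn.2 (hw.trans (Nat.pow_le_pow_left hn.1.1.le 2)), Nat.cast_one]
      _ ≤ ∑ n ∈ Ioc w (w + H), ν n := by
          apply sum_le_sum_of_subset_of_nonneg (filter_subset _ _)
          intro n _ _
          exact hν n
  unfold exc
  rw [← hL]
  apply max_le (by positivity)
  have h3 : (prIn w (w + H) : ℝ) * L / H ≤ (H * μ + D) * L / H := by
    gcongr
    linarith
  have h4 : (H * μ + D) * L / H = μ * L + L / H * D := by
    field_simp
  have h5 : μ * L ≤ 4 + ε / 2 := by rwa [le_div_iff₀ hL0] at hμ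
  obtain ⟨t, ht⟩ : ∃ t, t = L / H * D := ⟨_, rfl⟩
  have h6 : (L / H) ^ 2 / (2 * ε) * D ^ 2 = t ^ 2 / (2 * ε) := by
    rw [ht]
    ring
  have h7 : t - ε / 2 ≤ t ^ 2 / (2 * ε) := by
    rw [le_div_iff₀ (by positivity)]
    nlinarith [sq_nonneg (t - ε)]
  rw [h6]
  rw [h4, ← ht] at h3
  linarith

open Filter in
lemma exc_ev (A : ℕ) : ∀ᶠ X : ℕ in atTop, ((X.sqrt : ℝ) + 1) * (Real.log X) ^ A ≤ X := by
  filter_upwards [ev_log_pow_rpow A (1 / 4) (by norm_num), eventually_ge_atTop 16] with X h1 h2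
  have hX0 : (0 : ℝ) < X := by exact_mod_cast (by omega : 0 < X)
  have hX16 : (16 : ℝ) ≤ X := by exact_mod_cast h2
  have h3 : (X.sqrt : ℝ) ≤ (X : ℝ) ^ (1 / 2 : ℝ) := by
    rw [← Real.sqrt_eq_rpow]
    exact Real.nat_sqrt_le_real_sqrt
  have h4 : (1 : ℝ) ≤ (X : ℝ) ^ (1 / 2 : ℝ) := Real.one_le_rpow (by linarith) (by norm_num)
  have h5 : (2 : ℝ) ≤ (X : ℝ) ^ (1 / 4 : ℝ) := by
    have h6 : (16 : ℝ) ^ (1 / 4 : ℝ) = 2 := by
      have : (16 : ℝ) = 2 ^ (4 : ℝ) := by norm_num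
      rw [this, ← Real.rpow_mul (by norm_num)]
      norm_num
    rw [← h6]
    exact Real.rpow_le_rpow (by norm_num) hX16 (by norm_num)
  have hL : 0 ≤ (Real.log X) ^ A := by
    have : 0 ≤ Real.log X := Real.log_nonneg (by linarith)
    positivity
  calc ((X.sqrt : ℝ) + 1) * (Real.log X) ^ A
      ≤ (2 * (X : ℝ) ^ (1 / 2 : ℝ)) * (X : ℝ) ^ (1 / 4 : ℝ) := by
        apply mul_le_mul (by linarith) h1 hL (by positivity)
    _ ≤ ((X : ℝ) ^ (1 / 4 : ℝ) * (X : ℝ) ^ (1 / 2 : ℝ)) * (X : ℝ) ^ (1 / 4 : ℝ) := by gcongr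
    _ = X := by
        rw [← Real.rpow_add hX0, ← Real.rpow_add hX0]
        norm_num

/-- **The excess is small in mean.** PROOF. `L = log X`, `D w = prIn w (w + H) L / H`,
`Δ w = ∑_{window} ν - H μ`. If `w ^ 2 ≥ X` then `D w ≤ (L / H) (H μ + Δ w) ≤ 4 + ε / 2 + (L / H) Δ w`, so
`exc w ≤ max 0 ((L / H) Δ - ε / 2) ≤ ((L / H) Δ) ^ 2 / (2 ε)`; sum: `(L / H) ^ 2 C X H / L / (2 ε)`. The
`w` with `w ^ 2 < X` contribute at most `(√X + 1) L`. -/
theorem excess (ε : ℝ) (hε : 0 < ε) (A : ℕ) : ∃ (C : ℝ) (X₀ : ℕ), 1 ≤ C ∧ ∀ X : ℕ, X₀ ≤ X →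
    ∀ H : ℕ, 1 ≤ H → (H : ℝ) ≤ (Real.log X) ^ A →
    ∑ w ∈ range (4 * X), exc X H ε w ≤ C * X * Real.log X / H := by
  obtain ⟨ε', hε'⟩ : ∃ ε', ε' = min ε 1 := ⟨_, rfl⟩
  have hε0 : 0 < ε' := by
    rw [hε']
    exact lt_min hε one_pos
  have hε1 : ε' ≤ 1 := by
    rw [hε']
    exact min_le_right _ _
  have hεle : ε' ≤ ε := by
    rw [hε']
    exact min_le_left _ _
  obtain ⟨C, X₁, hC, hmaj⟩ := majorant ε' hε0 hε1 A
  obtain ⟨X₂, hX₂⟩ := Filter.eventually_atTop.1 ((exc_ev A).and (ev_log_ge 1))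
  refine ⟨C / (2 * ε') + 1, X₁ + X₂, ?_, fun X hX H hH hHA => ?_⟩
  · have : 0 < C / (2 * ε') := by positivity
    linarith
  obtain ⟨hsq, hL1⟩ := hX₂ X (by omega)
  obtain ⟨ν, μ, hν, hμ0, hμ, hprime, hvar⟩ := hmaj X (by omega)
  obtain ⟨L, hL⟩ : ∃ L, L = Real.log X := ⟨_, rfl⟩
  rw [← hL] at hL1 hsq hμ hHA ⊢
  have hL0 : 0 < L := by linarith
  have hH0 : (0 : ℝ) < H := by exact_mod_cast hH
  have hv := hvar H hH (by rw [← hL]; exact hHA)
  rw [← hL] at hv
  have hmono : ∀ w, exc X H ε w ≤ exc X H ε' w := by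
    intro w
    unfold exc
    apply max_le_max le_rfl
    linarith
  -- pointwise bound
  have hpt : ∀ w ∈ range (4 * X), exc X H ε w ≤
      (L / H) ^ 2 / (2 * ε') * (∑ n ∈ Ioc w (w + H), ν n - H * μ) ^ 2 +
        (if w < X.sqrt + 1 then L else 0) := by
    intro w _
    refine (hmono w).trans ?_
    by_cases hw : w < X.sqrt + 1
    · rw [if_pos hw]
      have h1 : exc X H ε' w ≤ L := by
        unfold exc
        rw [← hL]
        apply max_le hL0.le
        have h2 : (prIn w (w + H) : ℝ) ≤ H := by exact_mod_cast exc_prIn_le w H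
        have h3 : (prIn w (w + H) : ℝ) * L / H ≤ L := by
          rw [div_le_iff₀ hH0]
          nlinarith
        linarith
      have h2 : 0 ≤ (L / H) ^ 2 / (2 * ε') * (∑ n ∈ Ioc w (w + H), ν n - H * μ) ^ 2 := by
        positivity
      linarith
    · rw [if_neg hw, add_zero]
      have h1 : X ≤ w ^ 2 := by
        have h2 : X < (X.sqrt + 1) ^ 2 := by
          have := Nat.lt_succ_sqrt X
          rw [sq]
          exact this
        exact h2.le.trans (Nat.pow_le_pow_left (by omega) 2)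
      exact exc_pt X H w L ε' μ ν hL hL0 hε0 hH hν hμ hprime h1
  refine (sum_le_sum hpt).trans ?_
  rw [sum_add_distrib, ← mul_sum]
  have h1 : (L / H) ^ 2 / (2 * ε') *
      ∑ w ∈ range (4 * X), (∑ n ∈ Ioc w (w + H), ν n - H * μ) ^ 2 ≤
      C / (2 * ε') * X * L / H := by
    calc _ ≤ (L / H) ^ 2 / (2 * ε') * (C * X * H / L) :=
          mul_le_mul_of_nonneg_left hv (by positivity)
      _ = C / (2 * ε') * X * L / H := by
          field_simp
  have h2 : ∑ w ∈ range (4 * X), (if w < X.sqrt + 1 then L else 0) ≤ X * L / H := by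
    rw [← sum_filter, sum_const, nsmul_eq_mul]
    have h3 : ((range (4 * X)).filter (fun w => w < X.sqrt + 1)).card ≤ X.sqrt + 1 := by
      have h4 : (range (4 * X)).filter (fun w => w < X.sqrt + 1) ⊆ range (X.sqrt + 1) := by
        intro w hw
        exact mem_range.2 (mem_filter.1 hw).2
      have h5 := card_le_card h4
      rwa [card_range] at h5
    have h4 : (((range (4 * X)).filter (fun w => w < X.sqrt + 1)).card : ℝ) ≤ X.sqrt + 1 := by
      exact_mod_cast h3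
    rw [le_div_iff₀ hH0]
    calc (((range (4 * X)).filter (fun w => w < X.sqrt + 1)).card : ℝ) * L * H
        ≤ ((X.sqrt : ℝ) + 1) * L * L ^ A := by gcongr
      _ = ((X.sqrt : ℝ) + 1) * L ^ A * L := by ring
      _ ≤ X * L := mul_le_mul_of_nonneg_right hsq hL0.le
  have h3 : (C / (2 * ε') + 1) * X * L / H = C / (2 * ε') * X * L / H + X * L / H := by ring
  rw [h3]
  exact add_le_add h1 h2

/-- **Maximal inequality for a function.** PROOF. Rising sun lemma on both sides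
(`BiLip.rising_right`, `BiLip.rising_left`, as `sparse_max` in `QW/Maxi`). -/
theorem max_fun (e : ℕ → ℝ) (he : ∀ k, 0 ≤ e k) (κ : ℝ) (hκ : 0 < κ) (N : ℕ) :
    ∃ E : Finset ℕ, E ⊆ range N ∧ κ * E.card ≤ 4 * ∑ k ∈ range N, e k ∧
    ∀ y < N, y ∉ E → ∀ a b : ℕ, a ≤ y → y ≤ b → b ≤ N → ∑ k ∈ Ico a b, e k ≤ κ * ((b : ℝ) - a) := by
  classical
  obtain ⟨F, hF⟩ : ∃ F : ℕ → ℝ, ∀ i, F i = (∑ k ∈ range i, e k) / κ := ⟨_, fun _ => rfl⟩
  have hdiff : ∀ a b : ℕ, a ≤ b → ∑ k ∈ Ico a b, e k = κ * (F b - F a) := by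
    intro a b hab
    rw [sum_Ico_eq_sub _ hab, hF, hF]
    field_simp
  have hmono : Monotone F := by
    intro i j hij
    have h1 := hdiff i j hij
    have h2 : 0 ≤ ∑ k ∈ Ico i j, e k := sum_nonneg fun k _ => he k
    rw [h1] at h2
    have h3 := nonneg_of_mul_nonneg_right h2 hκ
    linarith
  have hF0 : κ * (F N - F 0) = ∑ k ∈ range N, e k := by
    rw [← hdiff 0 N (Nat.zero_le _), Nat.Ico_zero_eq_range]
  set B1 := (range N).filter (fun k : ℕ => ∃ m : ℕ, k < m ∧ m ≤ N ∧ ((m : ℝ) - k) ≤ F m - F k)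
    with hB1
  set B2 := (range N).filter (fun k : ℕ => ∃ m : ℕ, m < k ∧ ((k : ℝ) - m) ≤ F k - F m) with hB2
  have c1 : (B1.card : ℝ) ≤ F N - F 0 :=
    BiLip.rising_right F hmono N B1 (fun k hk => (mem_filter.1 hk).2)
  have c2 : (B2.card : ℝ) ≤ F N - F 0 :=
    BiLip.rising_left F hmono N B2 (filter_subset _ _) (fun k hk => (mem_filter.1 hk).2)
  refine ⟨B1 ∪ B2, ?_, ?_, ?_⟩
  · intro k hk
    rw [mem_union, hB1, hB2, mem_filter, mem_filter] at hk
    rcases hk with h | h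
    · exact h.1
    · exact h.1
  · have h1 : ((B1 ∪ B2).card : ℝ) ≤ B1.card + B2.card := by exact_mod_cast card_union_le _ _
    have h2 : ((B1 ∪ B2).card : ℝ) ≤ 2 * (F N - F 0) := by linarith
    have h3 := mul_le_mul_of_nonneg_left h2 hκ.le
    have h4 : 0 ≤ ∑ k ∈ range N, e k := sum_nonneg fun k _ => he k
    have h5 : κ * (2 * (F N - F 0)) = 2 * ∑ k ∈ range N, e k := by
      rw [← hF0]
      ring
    linarith
  · intro y hy hyE a b hay hyb hbN
    rw [mem_union, not_or] at hyE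
    obtain ⟨n1, n2⟩ := hyE
    rw [hdiff a b (hay.trans hyb)]
    have h1 : F b - F y ≤ (b : ℝ) - y := by
      rcases hyb.eq_or_lt with h | h
      · rw [← h, sub_self, sub_self]
      · by_contra hcon
        exact n1 (mem_filter.2 ⟨mem_range.2 hy, b, h, hbN, (not_le.1 hcon).le⟩)
    have h2 : F y - F a ≤ (y : ℝ) - a := by
      rcases hay.eq_or_lt with h | h
      · rw [h, sub_self, sub_self]
      · by_contra hcon
        exact n2 (mem_filter.2 ⟨mem_range.2 hy, a, h, (not_le.1 hcon).le⟩)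
    apply mul_le_mul_of_nonneg_left _ hκ.le
    linarith

/-- The windows of length `H` around an interval. -/
lemma exc_windows (u v H : ℕ) (hH : 1 ≤ H) :
    (H : ℝ) * prIn u v ≤ (if u + 1 < H then (H : ℝ) * H else 0) +
      ∑ w ∈ Ico (u + 1 - H) v, (prIn w (w + H) : ℝ) := by
  have h1 := avg_windows u v H Nat.Prime
  split_ifs with hu
  · have h2 : ((H * ((Ioc u v).filter Nat.Prime).card : ℕ) : ℝ) ≤
        ((H * H + ∑ w ∈ Ico (u + 1 - H) v, ((Ioc w (w + H)).filter Nat.Prime).card : ℕ) : ℝ) := by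
      exact_mod_cast h1
    push_cast at h2
    exact h2
  · rw [zero_add]
    have h3 : H * prIn u v ≤ ∑ w ∈ Ico (u + 1 - H) v, prIn w (w + H) := by
      classical
      unfold prIn
      set A2 := (Ioc u v).filter Nat.Prime with hA2
      have h4 : (A2.sigma (fun n => Ico (n - H) n)).card = H * A2.card := by
        rw [card_sigma, mul_comm, ← smul_eq_mul, ← sum_const]
        apply sum_congr rfl
        intro n hn
        rw [hA2, mem_filter, mem_Ioc] at hn
        rw [Nat.card_Ico]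
        omega
      have h5 : ((Ico (u + 1 - H) v).sigma (fun w => (Ioc w (w + H)).filter Nat.Prime)).card =
          ∑ w ∈ Ico (u + 1 - H) v, ((Ioc w (w + H)).filter Nat.Prime).card := by
        rw [card_sigma]
      rw [← h4, ← h5]
      apply card_le_card_of_injOn (fun q => (⟨q.2, q.1⟩ : Sigma (fun _ : ℕ => ℕ)))
      · intro q hq
        rw [mem_coe, mem_sigma, hA2, mem_filter, mem_Ioc, mem_Ico] at hq
        rw [mem_coe, mem_sigma, mem_Ico, mem_filter, mem_Ioc]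
        simp only
        obtain ⟨⟨⟨g1, g2⟩, g3⟩, g5, g6⟩ := hq
        exact ⟨⟨by omega, by omega⟩, ⟨by omega, by omega⟩, g3⟩
      · intro q _ r _ hqr
        simp only [Sigma.mk.injEq, heq_eq_eq] at hqr
        exact Sigma.ext hqr.2 (heq_of_eq hqr.1)
    exact_mod_cast h3

/-- The final inequality. -/
lemma exc_final (W H L K ε P T : ℝ) (hε : 0 < ε) (hε1 : ε ≤ 1) (hL : 0 < L) (hH : 0 < H)
    (hK : 100 / ε ≤ K) (hW : K * H ≤ W) (hT : T * (K * L) ≤ W)
    (hP : P ≤ T + (W + H) * (4 + ε / 2 + ε / 8) / L) : P ≤ (4 + ε) * W / L := by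
  have hK0 : 0 < K := lt_of_lt_of_le (by positivity) hK
  have hW0 : 0 < W := lt_of_lt_of_le (by positivity) hW
  have hKε : 100 ≤ K * ε := by rwa [div_le_iff₀ hε] at hK
  have h1 : H ≤ ε / 100 * W := by
    have h2 : 100 * H ≤ ε * W := by
      calc 100 * H ≤ K * ε * H := mul_le_mul_of_nonneg_right hKε hH.le
        _ = ε * (K * H) := by ring
        _ ≤ ε * W := mul_le_mul_of_nonneg_left hW hε.le
    linarith
  have h2 : T * L ≤ ε / 100 * W := by
    have h3 : T * L * K ≤ W := by linarith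
    have h4 : T * L ≤ W / K := by rwa [le_div_iff₀ hK0]
    have h5 : W / K ≤ ε / 100 * W := by
      rw [div_le_iff₀ hK0]
      nlinarith
    linarith
  rw [le_div_iff₀ hL]
  have h3 : P * L ≤ T * L + (W + H) * (4 + ε / 2 + ε / 8) := by
    have h4 := mul_le_mul_of_nonneg_right hP hL.le
    have h5 : (T + (W + H) * (4 + ε / 2 + ε / 8) / L) * L =
        T * L + (W + H) * (4 + ε / 2 + ε / 8) := by
      field_simp
    linarith
  have h4 : (W + H) * (4 + ε / 2 + ε / 8) ≤ (W + ε / 100 * W) * (4 + ε / 2 + ε / 8) := by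
    apply mul_le_mul_of_nonneg_right _ (by positivity)
    linarith
  have h5 : (W + ε / 100 * W) * (4 + ε / 2 + ε / 8) + ε / 100 * W ≤ (4 + ε) * W := by
    have h6 : (1 + ε / 100) * (4 + ε / 2 + ε / 8) + ε / 100 ≤ 4 + ε := by nlinarith
    have h7 := mul_le_mul_of_nonneg_right h6 hW0.le
    linarith
  linarith

/-- **Sharp Brun-Titchmarsh at all scales for almost all integers.** PROOF. `K = ⌈100/ε⌉`,
`H = ⌊H₀ / K⌋`, `e = exc X H (ε/2)`, `E` = the set of `max_fun` with `κ = ε/8` on `range (4 X)` together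
with `range ⌈K H L⌉`. For `W = v - u ≥ H₀ ≥ K H` and `y ∉ E`: by `avg_windows`
`H prIn u v ≤ H * H + ∑_{w ∈ [u+1-H, v)} prIn w (w + H)`, the term `H * H` only if `u + 1 < H` (split; then
`W ≥ y - H ≥ K H L / 2`), so `prIn u v L ≤ (W + H) (4 + ε/2) + κ (W + H) + ε W / 8`. -/
theorem bt_sharp (ε : ℝ) (hε : 0 < ε) (A : ℕ) : ∃ (C : ℝ) (X₀ : ℕ), 1 ≤ C ∧ ∀ X : ℕ, X₀ ≤ X →
    ∀ H₀ : ℕ, Real.log X ≤ H₀ → (H₀ : ℝ) ≤ (Real.log X) ^ A →
    ∃ E : Finset ℕ, (E.card : ℝ) ≤ C * X * Real.log X / H₀ ∧ ∀ y < X, y ∉ E →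
    ∀ u v : ℕ, u ≤ y → y ≤ v → (H₀ : ℝ) ≤ (v : ℝ) - u → v ≤ u + X →
    (prIn u v : ℝ) ≤ (4 + ε) * ((v : ℝ) - u) / Real.log X := by
  obtain ⟨ε', hε'⟩ : ∃ ε', ε' = min ε 1 := ⟨_, rfl⟩
  have hε0 : 0 < ε' := by
    rw [hε']
    exact lt_min hε one_pos
  have hε1 : ε' ≤ 1 := by
    rw [hε']
    exact min_le_right _ _
  have hεle : ε' ≤ ε := by
    rw [hε']
    exact min_le_left _ _
  obtain ⟨C, X₁, hC, hexc⟩ := excess (ε' / 2) (by positivity) A
  obtain ⟨K, hK⟩ : ∃ K : ℕ, K = ⌈100 / ε'⌉₊ := ⟨_, rfl⟩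
  have hKε : 100 / ε' ≤ K := by
    rw [hK]
    exact Nat.le_ceil _
  have hK1 : (1 : ℝ) ≤ K := by
    have h1 : (100 : ℝ) / 1 ≤ 100 / ε' := div_le_div_of_nonneg_left (by norm_num) hε0 hε1
    linarith
  have hK0 : 0 < K := by exact_mod_cast (by linarith : (0 : ℝ) < K)
  obtain ⟨X₂, hX₂⟩ := Filter.eventually_atTop.1 ((ev_log_pow_rpow (2 * A) 1 one_pos).and
    (ev_log_ge (K + 1)))
  refine ⟨64 * K * C / ε' + 3, X₁ + X₂, ?_, fun X hX H₀ hH₀ hH₀A => ?_⟩
  · have : 0 < 64 * K * C / ε' := by positivity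
    linarith
  obtain ⟨hLA, hLK⟩ := hX₂ X (by omega)
  rw [Real.rpow_one] at hLA
  obtain ⟨L, hL⟩ : ∃ L, L = Real.log X := ⟨_, rfl⟩
  rw [← hL] at hLA hLK hH₀ hH₀A ⊢
  have hL0 : 0 < L := by linarith
  have hH₀0 : (0 : ℝ) < H₀ := by linarith
  obtain ⟨H, hH⟩ : ∃ H, H = H₀ / K := ⟨_, rfl⟩
  have hKH₀ : K ≤ H₀ := by
    have : (K : ℝ) ≤ H₀ := by linarith
    exact_mod_cast this
  have hH1 : 1 ≤ H := by
    rw [hH, Nat.le_div_iff_mul_le hK0]
    omega
  have hH0 : (0 : ℝ) < H := by exact_mod_cast hH1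
  have hKH : K * H ≤ H₀ := by
    rw [hH]
    exact Nat.mul_div_le H₀ K
  have hKHR : (K : ℝ) * H ≤ H₀ := by exact_mod_cast hKH
  have hH₀H : (H₀ : ℝ) ≤ 2 * K * H := by
    have h1 : H₀ < K * H + K := by
      rw [hH]
      have h2 := Nat.lt_mul_div_succ H₀ hK0
      rw [Nat.mul_add, mul_one] at h2
      exact h2
    have h3 : K * 1 ≤ K * H := Nat.mul_le_mul_left K hH1
    have h4 : H₀ ≤ 2 * K * H := by
      have h5 : 2 * K * H = K * H + K * H := by ring
      omega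
    exact_mod_cast h4
  have hHA : (H : ℝ) ≤ L ^ A := by
    have h1 : (H : ℝ) ≤ K * H := by nlinarith
    linarith
  have hsum := hexc X (by omega) H hH1 (by rw [← hL]; exact hHA)
  rw [← hL] at hsum
  obtain ⟨E1, hE1s, hE1c, hE1⟩ := max_fun (exc X H (ε' / 2)) (exc_nonneg X H _) (ε' / 8)
    (by positivity) (4 * X)
  obtain ⟨M, hM⟩ : ∃ M, M = ⌈(K : ℝ) * H * L⌉₊ + H := ⟨_, rfl⟩
  classical
  refine ⟨E1 ∪ range M, ?_, ?_⟩
  · have h1 : ((E1 ∪ range M).card : ℝ) ≤ E1.card + M := by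
      have h2 := card_union_le E1 (range M)
      rw [card_range] at h2
      exact_mod_cast h2
    have h2 : (E1.card : ℝ) ≤ 64 * K * C / ε' * X * L / H₀ := by
      have h3 : ε' / 8 * E1.card ≤ 4 * (C * X * L / H) := by linarith
      have h4 : C * X * L / H ≤ 2 * K * (C * X * L / H₀) := by
        rw [← mul_div_assoc, div_le_div_iff₀ hH0 hH₀0]
        have h5 : (C * X * L) * H₀ ≤ (C * X * L) * (2 * K * H) :=
          mul_le_mul_of_nonneg_left hH₀H (by positivity)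
        linarith
      have h5 : (E1.card : ℝ) = 8 / ε' * (ε' / 8 * E1.card) := by
        field_simp
      rw [h5]
      calc 8 / ε' * (ε' / 8 * E1.card) ≤ 8 / ε' * (4 * (2 * K * (C * X * L / H₀))) := by
            apply mul_le_mul_of_nonneg_left _ (by positivity)
            linarith
        _ = 64 * K * C / ε' * X * L / H₀ := by ring
    have h3 : (M : ℝ) ≤ 3 * X * L / H₀ := by
      have h4 : (⌈(K : ℝ) * H * L⌉₊ : ℝ) < K * H * L + 1 := Nat.ceil_lt_add_one (by positivity)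
      have h5 : (M : ℝ) ≤ 3 * (H₀ * L) := by
        rw [hM]
        push_cast
        have h6 : (K : ℝ) * H * L ≤ H₀ * L := mul_le_mul_of_nonneg_right hKHR hL0.le
        have h7 : 1 ≤ (H₀ : ℝ) * L := by nlinarith
        have h8 : (H : ℝ) ≤ H₀ * L := by
          have h9 : (H : ℝ) ≤ K * H := by nlinarith
          nlinarith
        linarith
      refine h5.trans ?_
      rw [le_div_iff₀ hH₀0]
      have h6 : (H₀ : ℝ) * H₀ ≤ X := by
        calc (H₀ : ℝ) * H₀ ≤ L ^ A * L ^ A := by gcongr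
          _ = L ^ (2 * A) := by rw [← pow_add]; congr 1; omega
          _ ≤ X := hLA
      calc 3 * (H₀ * L) * H₀ = 3 * L * (H₀ * H₀) := by ring
        _ ≤ 3 * L * X := mul_le_mul_of_nonneg_left h6 (by positivity)
        _ = 3 * X * L := by ring
    calc ((E1 ∪ range M).card : ℝ) ≤ 64 * K * C / ε' * X * L / H₀ + 3 * X * L / H₀ := by linarith
      _ = (64 * K * C / ε' + 3) * X * L / H₀ := by ring
  · intro y hy hyE u v huy hyv hW hvX
    rw [mem_union, not_or, mem_range, not_lt] at hyE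
    obtain ⟨hyE1, hyM⟩ := hyE
    have hmain : (prIn u v : ℝ) ≤ (4 + ε') * ((v : ℝ) - u) / L := by
      obtain ⟨a, ha⟩ : ∃ a, a = u + 1 - H := ⟨_, rfl⟩
      have h1 := hE1 y (by omega) hyE1 a v (by omega) hyv (by omega)
      have hav : a ≤ v := by omega
      have h2 := exc_windows u v H hH1
      rw [← ha] at h2
      have h3 : ((v : ℝ) - a) ≤ (v : ℝ) - u + H := by
        have h4 : u ≤ a + H := by omega
        have h5 : (u : ℝ) ≤ a + H := by exact_mod_cast h4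
        linarith
      have h4 : ∑ w ∈ Ico a v, (prIn w (w + H) : ℝ) ≤
          H / L * (((v : ℝ) - u + H) * (4 + ε' / 2 + ε' / 8)) := by
        have h5 : ∀ w ∈ Ico a v, (prIn w (w + H) : ℝ) ≤
            H / L * (4 + ε' / 2 + exc X H (ε' / 2) w) := by
          intro w _
          have h6 : (prIn w (w + H) : ℝ) * L / H - (4 + ε' / 2) ≤ exc X H (ε' / 2) w := by
            unfold exc
            rw [← hL]
            exact le_max_right _ _
          have h7 : (prIn w (w + H) : ℝ) = H / L * (prIn w (w + H) * L / H) := by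
            field_simp
          rw [h7]
          apply mul_le_mul_of_nonneg_left _ (by positivity)
          linarith
        refine (sum_le_sum h5).trans ?_
        rw [← mul_sum, sum_add_distrib, sum_const, Nat.card_Ico, nsmul_eq_mul,
          Nat.cast_sub hav]
        apply mul_le_mul_of_nonneg_left _ (by positivity)
        have h6 : ((v : ℝ) - a) * (4 + ε' / 2) ≤ ((v : ℝ) - u + H) * (4 + ε' / 2) :=
          mul_le_mul_of_nonneg_right h3 (by positivity)
        have h7 : ε' / 8 * ((v : ℝ) - a) ≤ ε' / 8 * ((v : ℝ) - u + H) :=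
          mul_le_mul_of_nonneg_left h3 (by positivity)
        linarith
      obtain ⟨T, hT⟩ : ∃ T : ℝ, T = if u + 1 < H then (H : ℝ) else 0 := ⟨_, rfl⟩
      have h5 : (if u + 1 < H then (H : ℝ) * H else 0) = H * T := by
        rw [hT]
        split_ifs
        · rfl
        · rw [mul_zero]
      rw [h5] at h2
      apply exc_final ((v : ℝ) - u) H L K ε' (prIn u v) T hε0 hε1 hL0 hH0 hKε
        (hKHR.trans hW)
      · rw [hT]
        split_ifs with hu
        · have h6 : (K : ℝ) * H * L ≤ ⌈(K : ℝ) * H * L⌉₊ := Nat.le_ceil _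
          have h7 : ((⌈(K : ℝ) * H * L⌉₊ + H : ℕ) : ℝ) ≤ (v : ℝ) := by
            have : ⌈(K : ℝ) * H * L⌉₊ + H ≤ v := by omega
            exact_mod_cast this
          push_cast at h7
          have h8 : (u : ℝ) ≤ H := by
            have : u ≤ H := by omega
            exact_mod_cast this
          have h9 : (H : ℝ) * (K * L) = K * H * L := by ring
          rw [h9]
          linarith
        · rw [zero_mul]
          linarith
      · have h6 : (H : ℝ) * prIn u v ≤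
            H * (T + ((v : ℝ) - u + H) * (4 + ε' / 2 + ε' / 8) / L) := by
          have h7 : (H : ℝ) * (T + ((v : ℝ) - u + H) * (4 + ε' / 2 + ε' / 8) / L) =
              H * T + H / L * (((v : ℝ) - u + H) * (4 + ε' / 2 + ε' / 8)) := by ring
          rw [h7]
          linarith
        exact le_of_mul_le_mul_left h6 hH0
    refine hmain.trans ?_
    apply div_le_div_of_nonneg_right _ hL0.le
    have hW0 : 0 ≤ (v : ℝ) - u := by linarith
    apply mul_le_mul_of_nonneg_right _ hW0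
    linarith

end Pool.Agent.H.MP_711652_nt.SH
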