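import Mathlib
import Pool.Agent.H.MP_711652_nt.SH.Exc
import Pool.Agent.H.MP_711652_nt.QW.JumpT

set_option autoImplicit false

namespace Pool.Agent.H.MP_711652_nt.SH

open Finset Pool.Agent.H.MP_711652_nt.QW

/-- The large densities. -/
noncomputable def eb (X b k : ℕ) : ℝ := if 12 < cb X b k then cb X b k else 0

lemma Js_cb_nonneg (X b k : ℕ) (hX : 1 ≤ X) : 0 ≤ cb X b k := by
  unfold cb
  have : 0 ≤ Real.log X := Real.log_nonneg (by exact_mod_cast hX)
  positivity

lemma Js_eb_nonneg (X b k : ℕ) (hX : 1 ≤ X) : 0 ≤ eb X b k := by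
  unfold eb
  split_ifs
  · exact Js_cb_nonneg X b k hX
  · exact le_rfl

lemma Js_eb_le (X b k : ℕ) (hb : 0 < b) (hX : 1 ≤ X) : eb X b k ≤ Real.log X := by
  unfold eb
  split_ifs
  · exact cb_le X b k hb hX
  · exact Real.log_nonneg (by exact_mod_cast hX)

lemma Js_cb_le_gb (X b k : ℕ) : cb X b k ≤ gb X b k + eb X b k := by
  unfold gb eb
  split_ifs with h
  · rw [min_eq_right h.le]
    linarith
  · rw [min_eq_left (not_lt.1 h)]
    linarith

lemma Js_cb_le_twelve (X b k : ℕ) : cb X b k ≤ 12 + eb X b k := by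
  have h1 := Js_cb_le_gb X b k
  have h2 : gb X b k ≤ 12 := min_le_right _ _
  linarith

lemma Js_exc_nonneg (X H : ℕ) (ε : ℝ) (w : ℕ) : 0 ≤ exc X H ε w := le_max_left _ _

lemma Js_exc (X b k w : ℕ) (hb : 0 < b) (hX : 1 ≤ X) (h1 : k * b ≤ w) (h2 : w < (k + 1) * b) :
    eb X b (k + 1) ≤ 12 * exc X (2 * b) 1 w := by
  unfold eb
  split_ifs with h
  swap
  · have := Js_exc_nonneg X (2 * b) 1 w
    linarith
  have hb' : (0 : ℝ) < b := by exact_mod_cast hb
  have hL : 0 ≤ Real.log X := Real.log_nonneg (by exact_mod_cast hX)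
  have h3 : prIn ((k + 1) * b) ((k + 1 + 1) * b) ≤ prIn w (w + 2 * b) := by
    apply prIn_mono h2.le
    have : (k + 1 + 1) * b = k * b + 2 * b := by ring
    omega
  have h3' : (prIn ((k + 1) * b) ((k + 1 + 1) * b) : ℝ) ≤ prIn w (w + 2 * b) := by
    exact_mod_cast h3
  have h4 : cb X b (k + 1) ≤ 2 * (prIn w (w + 2 * b) * Real.log X / ((2 * b : ℕ) : ℝ)) := by
    unfold cb
    push_cast
    have h5 : Real.log X / b * (prIn ((k + 1) * b) ((k + 1 + 1) * b) : ℝ) ≤
        Real.log X / b * prIn w (w + 2 * b) := by gcongr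
    have h6 : Real.log X / b * (prIn w (w + 2 * b) : ℝ) =
        2 * (prIn w (w + 2 * b) * Real.log X / (2 * b)) := by
      field_simp
    linarith
  have h7 : (prIn w (w + 2 * b) * Real.log X / ((2 * b : ℕ) : ℝ)) - (4 + 1) ≤
      exc X (2 * b) 1 w := le_max_right _ _
  linarith

lemma Js_sum (X b n : ℕ) (hb : 0 < b) (hX : 1 ≤ X) :
    b * ∑ k ∈ range (n + 1), eb X b k ≤
      b * Real.log X + 12 * ∑ w ∈ range (n * b), exc X (2 * b) 1 w := by
  have hb' : (0 : ℝ) < b := by exact_mod_cast hb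
  induction n with
  | zero =>
    rw [zero_add, sum_range_one, Nat.zero_mul, range_zero, sum_empty]
    have := Js_eb_le X b 0 hb hX
    nlinarith
  | succ n ih =>
    rw [sum_range_succ, mul_add]
    have h1 : (b : ℝ) * eb X b (n + 1) ≤ 12 * ∑ w ∈ Ico (n * b) ((n + 1) * b), exc X (2 * b) 1 w := by
      rw [mul_sum]
      have h2 : (b : ℝ) * eb X b (n + 1) = ∑ w ∈ Ico (n * b) ((n + 1) * b), eb X b (n + 1) := by
        rw [sum_const, Nat.card_Ico, nsmul_eq_mul]
        congr 2
        have : (n + 1) * b = n * b + b := by ring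
        omega
      rw [h2]
      apply sum_le_sum
      intro w hw
      rw [mem_Ico] at hw
      exact Js_exc X b n w hb hX hw.1 hw.2
    have h3 : ∑ w ∈ range (n * b), exc X (2 * b) 1 w + ∑ w ∈ Ico (n * b) ((n + 1) * b),
        exc X (2 * b) 1 w = ∑ w ∈ range ((n + 1) * b), exc X (2 * b) 1 w := by
      rw [range_eq_Ico, range_eq_Ico]
      exact sum_Ico_consecutive _ (Nat.zero_le _) (Nat.mul_le_mul_right b (Nat.le_succ n))
    rw [← h3, mul_add]
    linarith

/-- The density of the primes around `y` is close to an average of the truncated densities. -/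
lemma Js_dens (X b N y u v : ℕ) (κ : ℝ) (hb : 0 < b) (hX : 1 ≤ X) (hκ : 0 ≤ κ) (hκ1 : κ ≤ 1)
    (hmax : ∀ a c : ℕ, a ≤ y / b → y / b ≤ c → c ≤ N → ∑ k ∈ Ico a c, eb X b k ≤ κ * ((c : ℝ) - a))
    (huy : u ≤ y) (hyv : y ≤ v) (hW0 : u < v) (hvN : v / b + 1 ≤ N) :
    |dens X u v - av (gb X b) (u / b) (v / b + 1)| ≤ 2 * κ + 26 * (b / ((v : ℝ) - u)) := by
  set L := Real.log X with hLdef
  have hL : 0 ≤ L := Real.log_nonneg (by exact_mod_cast hX)
  set p := u / b with hp
  set q := v / b + 1 with hq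
  have hbR : (0 : ℝ) < b := by exact_mod_cast hb
  have hpu : p * b ≤ u := Nat.div_mul_le_self u b
  have hpu2 : u < (p + 1) * b := by
    have := Nat.lt_div_mul_add (a := u) hb
    rw [hp, Nat.add_mul, one_mul]
    exact this
  have hqv : v < q * b := by
    have := Nat.lt_div_mul_add (a := v) hb
    rw [hq, Nat.add_mul, one_mul]
    exact this
  have hqv2 : (q - 1) * b ≤ v := by
    rw [hq, Nat.add_sub_cancel]
    exact Nat.div_mul_le_self v b
  have hpq' : p < q := by
    rw [hp, hq]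
    have := Nat.div_le_div_right (c := b) (huy.trans hyv)
    omega
  have hpq : p ≤ q := hpq'.le
  have hpy : p ≤ y / b := Nat.div_le_div_right huy
  have hyq : y / b ≤ q := (Nat.div_le_div_right hyv).trans (Nat.le_succ _)
  set d : ℝ := (q : ℝ) - p with hd
  have hd1 : 1 ≤ d := by
    have : ((p + 1 : ℕ) : ℝ) ≤ q := by exact_mod_cast hpq'
    push_cast at this
    rw [hd]
    linarith
  set W : ℝ := (v : ℝ) - u with hWdef
  have hWpos : 0 < W := by
    have : (u : ℝ) < v := by exact_mod_cast hW0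
    rw [hWdef]
    linarith
  set W2 : ℝ := d * b with hW2
  have hW2a : W ≤ W2 := by
    have h1 : (v : ℝ) ≤ q * b := by exact_mod_cast hqv.le
    have h2 : (p : ℝ) * b ≤ u := by exact_mod_cast hpu
    rw [hW2, hWdef, hd]
    linarith
  have hW2b : W2 ≤ W + 2 * b := by
    have h1 : ((q * b : ℕ) : ℝ) ≤ v + b := by
      have : q * b ≤ v + b := by
        have h3 : q * b = (q - 1) * b + b := by
          rw [hq, Nat.add_sub_cancel]
          ring
        omega
      exact_mod_cast this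
    have h2 : (u : ℝ) ≤ ((p + 1) * b : ℕ) := by exact_mod_cast hpu2.le
    push_cast at h1 h2
    rw [hW2, hWdef, hd]
    linarith
  have hW20 : 0 < W2 := by linarith
  -- the sums
  set T := ∑ k ∈ Ico p q, cb X b k with hT
  set S := ∑ k ∈ Ico p q, gb X b k with hS
  set E := ∑ k ∈ Ico p q, eb X b k with hE
  have hE0 : 0 ≤ E := sum_nonneg fun k _ => Js_eb_nonneg X b k hX
  have hE1 : E ≤ κ * d := hmax p q hpy hyq hvN
  have hST : S ≤ T := sum_le_sum fun k _ => min_le_left _ _
  have hTS : T ≤ S + E := by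
    rw [hT, hS, hE, ← sum_add_distrib]
    exact sum_le_sum fun k _ => Js_cb_le_gb X b k
  have hT12 : T ≤ 12 * d + E := by
    have h1 : T ≤ ∑ k ∈ Ico p q, (12 + eb X b k) := sum_le_sum fun k _ => Js_cb_le_twelve X b k
    rw [sum_add_distrib, sum_const, Nat.card_Ico, nsmul_eq_mul, Nat.cast_sub hpq] at h1
    rw [hd]
    linarith
  have hT0 : 0 ≤ T := sum_nonneg fun k _ => Js_cb_nonneg X b k hX
  set n1 : ℝ := (prIn u v : ℝ) with hn1
  set n2 : ℝ := (prIn (p * b) (q * b) : ℝ) with hn2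
  have hn10 : 0 ≤ n1 := Nat.cast_nonneg _
  have hTn : T = L / b * n2 := sum_cb X b p q hpq
  have hTn' : T * b = L * n2 := by
    rw [hTn]
    field_simp
  have hN1 : n1 ≤ n2 := by
    have : prIn u v ≤ prIn (p * b) (q * b) := prIn_mono hpu hqv.le
    rw [hn1, hn2]
    exact_mod_cast this
  have hN2 : L * n2 ≤ L * n1 + b * (cb X b p + cb X b (q - 1)) := by
    have h1 : prIn (p * b) (q * b) ≤ prIn u v + (prIn (p * b) ((p + 1) * b) +
        prIn ((q - 1) * b) ((q - 1 + 1) * b)) := by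
      rw [prIn_split hpu ((huy.trans hyv).trans hqv.le), prIn_split (huy.trans hyv) hqv.le]
      have h2 : prIn (p * b) u ≤ prIn (p * b) ((p + 1) * b) := prIn_mono le_rfl hpu2.le
      have h3 : prIn v (q * b) ≤ prIn ((q - 1) * b) ((q - 1 + 1) * b) := by
        apply prIn_mono hqv2
        have : q - 1 + 1 = q := Nat.sub_add_cancel (Nat.succ_le_of_lt (Nat.zero_lt_of_lt hpq'))
        rw [this]
      omega
    have h1' : n2 ≤ n1 + ((prIn (p * b) ((p + 1) * b) : ℝ) +
        prIn ((q - 1) * b) ((q - 1 + 1) * b)) := by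
      rw [hn1, hn2]
      exact_mod_cast h1
    have h4 : b * (cb X b p + cb X b (q - 1)) = L * ((prIn (p * b) ((p + 1) * b) : ℝ) +
        prIn ((q - 1) * b) ((q - 1 + 1) * b)) := by
      unfold cb
      rw [← hLdef]
      field_simp
    rw [h4, ← mul_add]
    gcongr
  have hcp : cb X b p ≤ 12 + E := by
    have h1 := Js_cb_le_twelve X b p
    have h2 : eb X b p ≤ E :=
      single_le_sum (f := fun k => eb X b k) (fun k _ => Js_eb_nonneg X b k hX)
        (mem_Ico.2 ⟨le_rfl, hpq'⟩)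
    linarith
  have hcq : cb X b (q - 1) ≤ 12 + E := by
    have h1 := Js_cb_le_twelve X b (q - 1)
    have h2 : eb X b (q - 1) ≤ E :=
      single_le_sum (f := fun k => eb X b k) (fun k _ => Js_eb_nonneg X b k hX)
        (mem_Ico.2 ⟨Nat.le_sub_one_of_lt hpq', Nat.sub_lt (Nat.zero_lt_of_lt hpq') Nat.one_pos⟩)
    linarith
  have hdens : dens X u v = n1 * L / W := rfl
  have hav : av (gb X b) p q = S / d := rfl
  have hd0 : 0 < d := by linarith
  have hbW : 0 ≤ b / W := by positivity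
  rw [hdens, hav, abs_le]
  constructor
  · -- `S / d ≤ n1 L / W + 24 b / W + 2 κ`
    have h1 : S / d ≤ L * n2 / W2 := by
      rw [div_le_div_iff₀ hd0 hW20, hW2]
      calc S * (d * b) ≤ T * (d * b) := by gcongr
        _ = T * b * d := by ring
        _ = L * n2 * d := by rw [hTn']
    have h2 : L * n2 / W2 ≤ L * n1 / W2 + b * (24 + 2 * (κ * d)) / W2 := by
      rw [← add_div]
      gcongr
      refine hN2.trans ?_
      have h8 : cb X b p + cb X b (q - 1) ≤ 24 + 2 * (κ * d) := by linarith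
      have : (b : ℝ) * (cb X b p + cb X b (q - 1)) ≤ b * (24 + 2 * (κ * d)) :=
        mul_le_mul_of_nonneg_left h8 hbR.le
      linarith
    have h3 : L * n1 / W2 ≤ n1 * L / W := by
      rw [mul_comm L n1]
      gcongr
    have h4 : b * (24 + 2 * (κ * d)) / W2 = 24 * (b / W2) + 2 * κ := by
      rw [hW2]
      field_simp
    have h5 : (b : ℝ) / W2 ≤ b / W := by gcongr
    linarith
  · have h1 : n1 * L / W = n1 * L / W2 + n1 * L / W2 * ((W2 - W) / W) := by
      field_simp
      ring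
    have h2 : n1 * L / W2 ≤ T / d := by
      rw [div_le_div_iff₀ hW20 hd0, hW2]
      calc n1 * L * d ≤ n2 * L * d := by gcongr
        _ = T * b * d := by rw [hTn', mul_comm n2 L]
        _ = T * (d * b) := by ring
    have h3 : T / d ≤ 13 := by
      rw [div_le_iff₀ hd0]
      have : κ * d ≤ 1 * d := by gcongr
      linarith
    have h4 : T / d ≤ S / d + κ := by
      rw [div_le_iff₀ hd0, add_mul, div_mul_cancel₀ _ hd0.ne']
      linarith
    have h5 : (W2 - W) / W ≤ 2 * (b / W) := by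
      rw [← mul_div_assoc]
      gcongr
      linarith
    have h6 : 0 ≤ (W2 - W) / W := div_nonneg (by linarith) hWpos.le
    have h7 : n1 * L / W2 * ((W2 - W) / W) ≤ 13 * (2 * (b / W)) := by
      have : n1 * L / W2 ≤ 13 := h2.trans h3
      gcongr
    linarith

/-- A chain of jumps of the density gives a chain of jumps of the truncated densities. -/
lemma Js_chain (X b y m H : ℕ) (ε : ℝ) (hb : 0 < b) (hH2b : 2 * b ≤ H)
    (happ : ∀ u v : ℕ, u ≤ y → y ≤ v → H ≤ v - u → v ≤ u + X →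
      |dens X u v - av (gb X b) (u / b) (v / b + 1)| ≤ ε / 4)
    (h : PChainH X H ε m y) : Chain (gb X b) (X / b + 2) (ε / 2) ((m + 1) / 2) (y / b) := by
  obtain ⟨u, v, u', v', h1, h2⟩ := h
  -- lengths
  have hlen : ∀ i, i < m → 2 * b ≤ v i - u i := by
    intro i hi
    exact hH2b.trans (h1 i hi).2.2.2.2.1
  -- the property of each jump
  have key : ∀ i, i < m → u i / b ≤ y / b ∧ y / b < v i / b + 1 ∧ u' i / b ≤ y / b ∧
      y / b < v' i / b + 1 ∧ v i / b + 1 - u i / b ≤ X / b + 2 ∧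
      v' i / b + 1 - u' i / b ≤ X / b + 2 ∧
      ε / 2 ≤ |av (gb X b) (u i / b) (v i / b + 1) - av (gb X b) (u' i / b) (v' i / b + 1)| := by
    intro i hi
    have hl := hlen i hi
    obtain ⟨g1, g2, g3, g4, g5, g6, g7, g8⟩ := h1 i hi
    have g9 : v i ≤ u i + X := by omega
    refine ⟨Nat.div_le_div_right g1, Nat.lt_succ_of_le (Nat.div_le_div_right g2),
      Nat.div_le_div_right g3, Nat.lt_succ_of_le (Nat.div_le_div_right g4),
      blk_le _ _ _ _ hb g9, blk_le _ _ _ _ hb g7, ?_⟩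
    have a1 := happ (u i) (v i) g1 g2 g5 g9
    have a2 := happ (u' i) (v' i) g3 g4 (g5.trans g6) g7
    have a3 := abs_sub_abs_le_abs_sub (dens X (u i) (v i) - dens X (u' i) (v' i))
      (av (gb X b) (u i / b) (v i / b + 1) - av (gb X b) (u' i / b) (v' i / b + 1))
    have a4 : |dens X (u i) (v i) - dens X (u' i) (v' i) -
        (av (gb X b) (u i / b) (v i / b + 1) - av (gb X b) (u' i / b) (v' i / b + 1))| ≤
        ε / 4 + ε / 4 := by
      have e1 : dens X (u i) (v i) - dens X (u' i) (v' i) -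
          (av (gb X b) (u i / b) (v i / b + 1) - av (gb X b) (u' i / b) (v' i / b + 1)) =
          (dens X (u i) (v i) - av (gb X b) (u i / b) (v i / b + 1)) -
          (dens X (u' i) (v' i) - av (gb X b) (u' i / b) (v' i / b + 1)) := by ring
      rw [e1]
      exact (abs_sub _ _).trans (add_le_add a1 a2)
    linarith
  refine ⟨fun i => if v (2 * i) / b + 1 - u (2 * i) / b ≤ v' (2 * i) / b + 1 - u' (2 * i) / b then
      u (2 * i) / b else u' (2 * i) / b,
    fun i => if v (2 * i) / b + 1 - u (2 * i) / b ≤ v' (2 * i) / b + 1 - u' (2 * i) / b then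
      v (2 * i) / b + 1 else v' (2 * i) / b + 1,
    fun i => if v (2 * i) / b + 1 - u (2 * i) / b ≤ v' (2 * i) / b + 1 - u' (2 * i) / b then
      u' (2 * i) / b else u (2 * i) / b,
    fun i => if v (2 * i) / b + 1 - u (2 * i) / b ≤ v' (2 * i) / b + 1 - u' (2 * i) / b then
      v' (2 * i) / b + 1 else v (2 * i) / b + 1, ?_, ?_⟩
  · intro i hi
    obtain ⟨k1, k2, k3, k4, k5, k6, k7⟩ := key (2 * i) (by omega)
    by_cases hc : v (2 * i) / b + 1 - u (2 * i) / b ≤ v' (2 * i) / b + 1 - u' (2 * i) / b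
    · simp only [if_pos hc]
      exact ⟨k1, k2, k3, k4, hc, k6, k7⟩
    · simp only [if_neg hc]
      refine ⟨k3, k4, k1, k2, (not_le.1 hc).le, k5, ?_⟩
      rw [abs_sub_comm]
      exact k7
  · intro i hi
    have e1 : 2 * i + 1 < m := by omega
    have e2 : 2 * i + 1 + 1 < m := by omega
    have e3 : 2 * (i + 1) = 2 * i + 1 + 1 := by ring
    have s1 := h2 (2 * i) e1
    have s2 := h2 (2 * i + 1) e2
    have l0 := hlen (2 * i) (by omega)
    obtain ⟨g1, g2, g3, g4, -, g6, -, -⟩ := h1 (2 * i) (by omega)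
    obtain ⟨-, -, -, -, -, g6', -, -⟩ := h1 (2 * i + 1) e1
    obtain ⟨f1, f2, f3, f4, -, f6, -, -⟩ := h1 (2 * i + 1 + 1) e2
    have r1 := blk_len (u (2 * i)) (v (2 * i)) b hb (g1.trans g2)
    have r2 := blk_len (u' (2 * i)) (v' (2 * i)) b hb (g3.trans g4)
    have r3 := blk_len (u (2 * i + 1 + 1)) (v (2 * i + 1 + 1)) b hb (f1.trans f2)
    have r4 := blk_len (u' (2 * i + 1 + 1)) (v' (2 * i + 1 + 1)) b hb (f3.trans f4)
    have fin : ∀ s t : ℕ, s * b ≤ v' (2 * i) - u' (2 * i) + 2 * b →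
        v (2 * i + 1 + 1) - u (2 * i + 1 + 1) ≤ t * b → 2 * s ≤ t := by
      intro s t hs ht
      have h3 : (2 * s) * b ≤ t * b := by
        have : (2 * s) * b = 2 * (s * b) := by ring
        omega
      exact Nat.le_of_mul_le_mul_right h3 hb
    simp only [e3]
    apply fin
    · split_ifs
      · omega
      · omega
    · split_ifs
      · omega
      · omega

end Pool.Agent.H.MP_711652_nt.SH
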