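import Mathlib
import Pool.Agent.H.MP_711652_nt.SH.JsA

set_option autoImplicit false

namespace Pool.Agent.H.MP_711652_nt.SH

open Finset Pool.Agent.H.MP_711652_nt.QW

open Classical in
/-- **One scale.** PROOF. `h ≥ K L / ε ^ 2` (else the bound is trivial),
blocks of length `b = ⌊ε h / 208⌋ ≥ L`, `c k = cb X b k`, `g k = min (c k) 12`,
`e k = c k` if `c k > 12`, else `0`. `c k ≤ 2 D_{2b}(w)` for all `w ∈ [k b - b, k b]`, so
`b ∑ e k ≤ 12 ∑_w exc X (2 b) 1 w + b L ≤ C X L / b`. `max_fun` for `e` on the blocks with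
`κ = ε / 16`: exceptional blocks `≤ (C / ε) (X / b) (L / b)`, i.e. `≤ C X L / (ε ^ 2 h)` values of `y`.
For the other `y` and every interval around `y` of length `≥ h`: `|dens - av g| ≤ ε / 4` (`Js_dens`).
So a chain of jumps `≥ ε` of the density gives (every second jump, `Js_chain`) a
`Chain g N (ε / 2) ((m + 1) / 2) (y / b)`: `chain_tail`. -/
theorem jumps_one (A : ℕ) : ∃ (C : ℝ) (X₀ : ℕ), 1 ≤ C ∧ ∀ X : ℕ, X₀ ≤ X → ∀ h : ℕ, 1 ≤ h →
    (h : ℝ) ≤ (Real.log X) ^ A → ∀ ε : ℝ, 0 < ε → ε ≤ 1 → ∀ m : ℕ,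
    (((range X).filter (fun y => PChainH X h ε m y)).card : ℝ) ≤
      C * Real.exp (-(ε ^ 2 * m / C)) * X + C * X * Real.log X / (ε ^ 2 * h) := by
  obtain ⟨C0, hC0, hchain⟩ := chain_tail
  obtain ⟨C1, X1, hC1, hX1⟩ := excess 1 one_pos A
  obtain ⟨X2, hX2⟩ := Filter.eventually_atTop.1
    ((ev_log_pow_rpow (2 * A) 1 one_pos).and (ev_log_ge 100))
  refine ⟨16 * C0 + 186368 * C1 + 416, max (max X1 X2) 4, by linarith, ?_⟩
  set C : ℝ := 16 * C0 + 186368 * C1 + 416 with hC
  intro X hX h hh hhA ε hε hε1 m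
  have hXX1 : X1 ≤ X := ((le_max_left _ _).trans (le_max_left _ _)).trans hX
  have hX4 : 4 ≤ X := (le_max_right _ _).trans hX
  obtain ⟨hpow, hL⟩ := hX2 X (((le_max_right _ _).trans (le_max_left _ _)).trans hX)
  rw [Real.rpow_one] at hpow
  have hX1' : 1 ≤ X := by omega
  set L := Real.log X with hLdef
  have hL0 : 0 < L := by linarith
  have hXR : (0 : ℝ) < X := by exact_mod_cast (by omega : 0 < X)
  have hhR : (1 : ℝ) ≤ h := by exact_mod_cast hh
  have hC0' : 16 * C0 ≤ C := by linarith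
  have hCpos : 0 < C := by linarith
  have hT1 : 0 ≤ C * Real.exp (-(ε ^ 2 * m / C)) * X := by positivity
  rcases lt_or_ge (h : ℝ) (416 * L / ε ^ 2) with hsmall | hlarge
  · -- trivial case
    have htriv : (((range X).filter (fun y => PChainH X h ε m y)).card : ℝ) ≤ X := by
      have := card_filter_le (range X) (fun y => PChainH X h ε m y)
      rw [card_range] at this
      exact_mod_cast this
    have h1 : (X : ℝ) ≤ C * X * L / (ε ^ 2 * h) := by
      rw [le_div_iff₀ (by positivity)]
      rw [lt_div_iff₀ (by positivity)] at hsmall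
      calc (X : ℝ) * (ε ^ 2 * h) = X * (h * ε ^ 2) := by ring
        _ ≤ X * (416 * L) := by gcongr
        _ ≤ X * (C * L) := by gcongr; linarith
        _ = C * X * L := by ring
    linarith
  -- the block length
  have hb2 : 2 * L / ε ≤ ε * h / 208 := by
    rw [div_le_iff₀ (by positivity)] at hlarge
    rw [div_le_div_iff₀ hε (by norm_num)]
    calc 2 * L * 208 = 416 * L := by ring
      _ ≤ h * ε ^ 2 := hlarge
      _ = ε * h * ε := by ring
  have hLε : L ≤ L / ε := by
    rw [le_div_iff₀ hε]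
    nlinarith
  have hb2' : 2 * L / ε = 2 * (L / ε) := by ring
  set b := ⌊ε * h / 208⌋₊ with hbdef
  have hble : (b : ℝ) ≤ ε * h / 208 := Nat.floor_le (by positivity)
  have hbge' : ε * h / 208 < b + 1 := Nat.lt_floor_add_one _
  have hbge : ε * h / 416 ≤ b := by
    have h1 : ε * h / 416 = ε * h / 208 / 2 := by ring
    rw [h1]
    linarith
  have hbL : L ≤ b := by
    have h1 : ε * h / 416 = ε * h / 208 / 2 := by ring
    linarith
  have hbR : (0 : ℝ) < b := by linarith
  have hb : 0 < b := by exact_mod_cast hbR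
  have hbh : 208 * (b : ℝ) ≤ ε * h := by
    rw [le_div_iff₀ (by norm_num)] at hble
    linarith
  have hbh' : 208 * (b : ℝ) ≤ h := by nlinarith
  have hbhN : 208 * b ≤ h := by exact_mod_cast hbh'
  have hbb : (b : ℝ) * b ≤ X := by
    have h1 : (b : ℝ) ≤ L ^ A := by linarith
    calc (b : ℝ) * b ≤ L ^ A * L ^ A := by gcongr
      _ = L ^ (2 * A) := by ring
      _ ≤ X := hpow
  have hbX : (b : ℝ) ≤ X := by nlinarith
  have hbX3 : b ≤ X := by exact_mod_cast hbX
  -- the exceptional blocks
  set N := 2 * X / b + 2 with hN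
  have hNb1 : X ≤ N * b := by
    have h3 : 2 * X < 2 * X / b * b + b := Nat.lt_div_mul_add hb
    rw [hN, Nat.add_mul]
    omega
  have hNb2 : N * b ≤ 4 * X := by
    have h3 : 2 * X / b * b ≤ 2 * X := Nat.div_mul_le_self _ b
    rw [hN, Nat.add_mul]
    omega
  obtain ⟨E, hEN, hEc, hE⟩ := max_fun (fun k => eb X b k) (fun k => Js_eb_nonneg X b k hX1') (ε / 16)
    (by positivity) N
  obtain ⟨P, hP⟩ : ∃ P : ℕ → Prop, ∀ k, P k ↔ k ∈ E := ⟨fun k => k ∈ E, fun _ => Iff.rfl⟩
  have hsum : b * ∑ k ∈ range N, eb X b k ≤ 7 * C1 * X * L / b := by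
    have h1 : N = (2 * X / b + 1) + 1 := rfl
    have h2 := Js_sum X b (2 * X / b + 1) hb hX1'
    rw [← h1, ← hLdef] at h2
    have h3 : ∑ w ∈ range ((2 * X / b + 1) * b), exc X (2 * b) 1 w ≤
        ∑ w ∈ range (4 * X), exc X (2 * b) 1 w := by
      apply sum_le_sum_of_subset_of_nonneg
      · apply range_subset_range.2
        refine le_trans (Nat.mul_le_mul_right b (Nat.le_succ _)) hNb2
      · intro w _ _
        exact Js_exc_nonneg X (2 * b) 1 w
    have h4 := hX1 X hXX1 (2 * b) (by omega) (by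
      push_cast
      linarith)
    push_cast at h4
    have h5 : b * L ≤ 1 * (X * L / b) := by
      rw [one_mul, le_div_iff₀ hbR]
      calc (b : ℝ) * L * b = b * b * L := by ring
        _ ≤ X * L := by gcongr
    have h6 : C1 * X * L / (2 * b) = C1 * (X * L / b) / 2 := by
      field_simp
    have h7 : 7 * C1 * X * L / b = 7 * C1 * (X * L / b) := by ring
    have h8 : 0 ≤ X * L / b := by positivity
    have h9 : 1 * (X * L / b) ≤ C1 * (X * L / b) := by gcongr
    rw [← hLdef, h6] at h4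
    rw [h7]
    linarith
  have hEcard : (b : ℝ) * E.card ≤ 186368 * C1 * (X * L / (ε ^ 2 * h)) := by
    have h1 : (b : ℝ) * E.card ≤ 64 / ε * (b * ∑ k ∈ range N, eb X b k) := by
      rw [div_mul_eq_mul_div, le_div_iff₀ hε]
      have h2 : b * (ε / 16 * E.card) ≤ b * (4 * ∑ k ∈ range N, eb X b k) := by gcongr
      linarith
    have h2 : 64 / ε * (b * ∑ k ∈ range N, eb X b k) ≤ 64 / ε * (7 * C1 * X * L / b) := by gcongr
    have h3 : 64 / ε * (7 * C1 * X * L / b) = 448 * C1 * (X * L) * (1 / (ε * b)) := by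
      field_simp
      norm_num
    have h4 : 1 / (ε * b) ≤ 1 / (ε * (ε * h / 416)) := by gcongr
    have h5 : 448 * C1 * (X * L) * (1 / (ε * (ε * h / 416))) =
        186368 * C1 * (X * L / (ε ^ 2 * h)) := by
      field_simp
      norm_num
    calc (b : ℝ) * E.card ≤ 448 * C1 * (X * L) * (1 / (ε * b)) := by
          rw [← h3]
          exact h1.trans h2
      _ ≤ 448 * C1 * (X * L) * (1 / (ε * (ε * h / 416))) := by gcongr
      _ = _ := h5
  set N' := X / b + 2 with hN'
  set m' := (m + 1) / 2 with hm'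
  have hsub : (range X).filter (fun y => PChainH X h ε m y) ⊆
      (range X).filter (fun y => P (y / b)) ∪
        (range X).filter (fun y => Chain (gb X b) N' (ε / 2) m' (y / b)) := by
    intro y hy
    rw [mem_filter, mem_range] at hy
    rw [mem_union]
    by_cases hyE : P (y / b)
    · exact Or.inl (mem_filter.2 ⟨mem_range.2 hy.1, hyE⟩)
    · right
      rw [mem_filter, mem_range]
      have hyN : y / b < N := by
        rw [Nat.div_lt_iff_lt_mul hb]
        exact hy.1.trans_le hNb1
      refine ⟨hy.1, Js_chain X b y m h ε hb (by omega) ?_ hy.2⟩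
      intro u v hu hv hW hvX
      have huv : u < v := by omega
      have hWR : (h : ℝ) ≤ (v : ℝ) - u := by
        have e1 : (h : ℝ) ≤ ((v - u : ℕ) : ℝ) := by exact_mod_cast hW
        rwa [Nat.cast_sub huv.le] at e1
      have hvN : v / b + 1 ≤ N := by
        rw [hN]
        have : v / b ≤ 2 * X / b := Nat.div_le_div_right (by omega)
        omega
      have h1 := Js_dens X b N y u v (ε / 16) hb hX1' (by positivity) (by linarith)
        (fun a c ha hc hcN => hE (y / b) hyN (fun hy' => hyE ((hP _).2 hy')) a c ha hc hcN) hu hv huv hvN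
      refine h1.trans ?_
      have h2 : (b : ℝ) / ((v : ℝ) - u) ≤ ε / 208 := by
        rw [div_le_div_iff₀ (by linarith) (by norm_num)]
        calc (b : ℝ) * 208 = 208 * b := by ring
          _ ≤ ε * h := hbh
          _ ≤ ε * ((v : ℝ) - u) := by gcongr
      linarith
  have h1 : (((range X).filter (fun y => PChainH X h ε m y)).card : ℝ) ≤
      ((range X).filter (fun y => P (y / b))).card +
        ((range X).filter (fun y => Chain (gb X b) N' (ε / 2) m' (y / b))).card := by
    exact_mod_cast (card_le_card hsub).trans (card_union_le _ _)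
  have h1E : (((range X).filter (fun y => P (y / b))).card : ℝ) ≤ b * E.card := by
    have h2 := card_blocks X b N P hb hNb1
    have h3 : ((range N).filter P).card ≤ E.card := by
      apply card_le_card
      intro k hk
      exact (hP k).1 (mem_filter.1 hk).2
    exact_mod_cast h2.trans (Nat.mul_le_mul_left b h3)
  have hNb : X ≤ N' * b := by
    have h3 : X < X / b * b + b := Nat.lt_div_mul_add hb
    rw [hN', Nat.add_mul]
    omega
  have hNb3 : N' * b ≤ 3 * X := by
    have h3 : X / b * b ≤ X := Nat.div_mul_le_self X b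
    rw [hN', Nat.add_mul]
    omega
  have h2 := card_blocks X b N' (fun k => Chain (gb X b) N' (ε / 2) m' k) hb hNb
  have h3 := hchain (gb X b) (fun k => gb_bounds X b k (by omega)) N'
    (Nat.succ_le_succ (Nat.zero_le _)) (ε / 2) (by linarith) (by linarith) m'
  have h4 : (((range X).filter (fun y => Chain (gb X b) N' (ε / 2) m' (y / b))).card : ℝ) ≤
      3 * C0 * Real.exp (-((ε / 2) ^ 2 * m' / C0)) * X := by
    have h5 : (((range X).filter (fun y => Chain (gb X b) N' (ε / 2) m' (y / b))).card : ℝ) ≤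
        b * (((range N').filter (fun k => Chain (gb X b) N' (ε / 2) m' k)).card : ℝ) := by
      exact_mod_cast h2
    have h6 : (N' : ℝ) * b ≤ 3 * X := by exact_mod_cast hNb3
    calc _ ≤ b * (((range N').filter (fun k => Chain (gb X b) N' (ε / 2) m' k)).card : ℝ) := h5
      _ ≤ b * (C0 * Real.exp (-((ε / 2) ^ 2 * m' / C0)) * N') := by gcongr
      _ = C0 * Real.exp (-((ε / 2) ^ 2 * m' / C0)) * (N' * b) := by ring
      _ ≤ C0 * Real.exp (-((ε / 2) ^ 2 * m' / C0)) * (3 * X) := by gcongr
      _ = 3 * C0 * Real.exp (-((ε / 2) ^ 2 * m' / C0)) * X := by ring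
  have h5 : Real.exp (-((ε / 2) ^ 2 * m' / C0)) ≤ Real.exp (-(ε ^ 2 * m / C)) := by
    apply Real.exp_le_exp.2
    apply neg_le_neg
    have h6 : (m : ℝ) ≤ 2 * m' := by
      have : m ≤ 2 * m' := by omega
      exact_mod_cast this
    have h7 : ε ^ 2 * m / C ≤ ε ^ 2 * m / (16 * C0) := by gcongr
    refine h7.trans ?_
    rw [div_le_div_iff₀ (by positivity) (by positivity)]
    have h7 : (ε / 2) ^ 2 * m' * (16 * C0) = 2 * (ε ^ 2 * C0 * (2 * m')) := by ring
    rw [h7]
    have h8 : ε ^ 2 * C0 * m ≤ ε ^ 2 * C0 * (2 * m') := by gcongr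
    have h9 : 0 ≤ ε ^ 2 * C0 * (2 * m') := by positivity
    linarith
  have h6 : 3 * C0 * Real.exp (-((ε / 2) ^ 2 * m' / C0)) * X ≤
      C * Real.exp (-(ε ^ 2 * m / C)) * X := by
    have : 3 * C0 ≤ C := by linarith
    gcongr
  have h7 : 186368 * C1 * (X * L / (ε ^ 2 * h)) ≤ C * X * L / (ε ^ 2 * h) := by
    have h8 : C * X * L / (ε ^ 2 * h) = C * (X * L / (ε ^ 2 * h)) := by ring
    rw [h8]
    have : 186368 * C1 ≤ C := by linarith
    gcongr
  linarith

end Pool.Agent.H.MP_711652_nt.SH
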