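import Mathlib
import Pool.Agent.H.MP_711652_nt.SH.JsB

set_option autoImplicit false

namespace Pool.Agent.H.MP_711652_nt.SH

open Finset Pool.Agent.H.MP_711652_nt.QW

lemma Js_two_pow_le_exp (r : ℕ) : (2 : ℝ) ^ r ≤ Real.exp r := by
  have h2 : (2 : ℝ) ≤ Real.exp 1 := by
    have := Real.add_one_le_exp (1 : ℝ)
    linarith
  calc (2 : ℝ) ^ r ≤ (Real.exp 1) ^ r := pow_le_pow_left₀ (by norm_num) h2 r
    _ = Real.exp r := by rw [← Real.exp_nat_mul, mul_one]

lemma Js_exp_half_le (x : ℝ) (hx : 0 ≤ x) (r : ℕ) (h : x ≤ (r + 1) * (1 / 4)) :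
    Real.exp x ≤ 2 * Real.sqrt (2 ^ r) := by
  have h1 : Real.exp x ^ 2 ≤ (2 * Real.sqrt (2 ^ r)) ^ 2 := by
    rw [mul_pow, Real.sq_sqrt (by positivity), ← Real.exp_nat_mul]
    have h7 : (1 : ℝ) / 2 ≤ Real.log 2 := by
      have := Real.log_two_gt_d9
      linarith
    calc Real.exp ((2 : ℕ) * x) ≤ Real.exp ((r + 1) * Real.log 2) := by
          apply Real.exp_le_exp.2
          push_cast
          have h8 : ((r : ℝ) + 1) * (1 / 2) ≤ (r + 1) * Real.log 2 := by gcongr
          linarith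
      _ = 2 * 2 ^ r := by
        have h8 : ((r : ℝ) + 1) * Real.log 2 = Real.log (2 ^ (r + 1)) := by
          rw [Real.log_pow]
          push_cast
          ring
        rw [h8, Real.exp_log (by positivity), pow_succ]
        ring
      _ ≤ 2 ^ 2 * 2 ^ r := by
        have : (0 : ℝ) < 2 ^ r := by positivity
        linarith
  exact (abs_le_of_sq_le_sq' h1 (by positivity)).2 |>.trans le_rfl

/-- The number of doublings that beats `1 / ε ^ 2`. -/
lemma Js_eps (ε : ℝ) (hε : 0 < ε) (hε1 : ε ≤ 1) :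
    ∃ j : ℕ, 1 ≤ ε ^ 2 * 2 ^ j ∧ ε ^ 2 * 2 ^ j ≤ 2 ∧ ε ^ 2 * j ≤ 2 := by
  have hex : ∃ j : ℕ, 1 ≤ ε ^ 2 * (2 : ℝ) ^ j := by
    obtain ⟨j, hj⟩ := pow_unbounded_of_one_lt (1 / ε ^ 2) (one_lt_two (α := ℝ))
    refine ⟨j, ?_⟩
    rw [div_lt_iff₀ (by positivity)] at hj
    linarith
  classical
  have hs := Nat.find_spec hex
  have hle : ε ^ 2 * (2 : ℝ) ^ (Nat.find hex) ≤ 2 := by
    rcases Nat.eq_zero_or_pos (Nat.find hex) with h | h
    · rw [h, pow_zero, mul_one]
      have : ε ^ 2 ≤ 1 := pow_le_one₀ hε.le hε1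
      linarith
    · have h1 := Nat.find_min hex (show Nat.find hex - 1 < Nat.find hex by omega)
      rw [not_le] at h1
      have h3 : (2 : ℝ) ^ (Nat.find hex) = 2 * 2 ^ (Nat.find hex - 1) := by
        rw [← pow_succ']
        congr 1
        omega
      rw [h3]
      linarith
  refine ⟨Nat.find hex, hs, hle, ?_⟩
  have h1 : ((Nat.find hex : ℕ) : ℝ) ≤ 2 ^ (Nat.find hex) := by
    exact_mod_cast (Nat.lt_two_pow_self (n := Nat.find hex)).le
  calc ε ^ 2 * (Nat.find hex : ℕ) ≤ ε ^ 2 * 2 ^ (Nat.find hex) := by gcongr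
    _ ≤ 2 := hle

open Classical in
/-- **Few jumps over all scales.** PROOF. As `jumps_all`: the lengths double, so for
`h1 = 2 ^ r h` at most `r` jumps have scales below `h1` (`pchainH_drop`). Take
`r = ⌈log2 (max 1 (L / h))⌉ + ⌈log2 (1/ε^2)⌉ + ⌊ε ^ 2 m / C⌋`; if `h1 ≤ L ^ A` use `jumps_one`
(`L / (ε ^ 2 h1) ≤ 2 ^ (-ε ^ 2 m / C)`), if `h1 > L ^ A` use `jumps_H` (`L ^ B / h1 ≤ h1 ^ (-1/2)`),
`A = 2 B + 2`. The `r` lost jumps cost `exp (ε ^ 2 r / C) ≤ e (1 + L / h)`, since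
`ε ^ 2 log (1 / ε ^ 2) ≤ 1`. (`m ≤ 2 log X + 1` always, `pchainH_short`.) -/
theorem jumps_sharp : ∃ (C : ℝ) (X₀ : ℕ), 1 ≤ C ∧ ∀ X : ℕ, X₀ ≤ X → ∀ h : ℕ, 1 ≤ h →
    ∀ ε : ℝ, 0 < ε → ε ≤ 1 → ∀ m : ℕ,
    (((range X).filter (fun y => PChainH X h ε m y)).card : ℝ) ≤
      C * (1 + Real.log X / h) * Real.exp (-(ε ^ 2 * m / C)) * X := by
  obtain ⟨C1, hC1, c, hc, hc1, B, X1, hX1⟩ := jumps_H
  obtain ⟨C2, X2, hC2, hX2⟩ := jumps_one (2 * B + 2)
  set C0 := max C1 C2 with hC0def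
  have hC10 : C1 ≤ C0 := le_max_left _ _
  have hC20 : C2 ≤ C0 := le_max_right _ _
  have hC0 : 1 ≤ C0 := hC1.trans hC10
  set K : ℝ := 12 / c with hK
  have hK12 : 12 ≤ K := by
    rw [hK, le_div_iff₀ hc]
    linarith
  set C : ℝ := 64 * C0 + 4 * K + 4 with hCdef
  obtain ⟨X3, hX3⟩ := Filter.eventually_atTop.1
    ((ev_log_ge 100).and (ev_log_pow_rpow 2 (c / 4) (by positivity)))
  refine ⟨C, max (max X1 X2) (max X3 4), by linarith, ?_⟩
  intro X hX h hh ε hε hε1 m
  have hXX1 : X1 ≤ X := ((le_max_left _ _).trans (le_max_left _ _)).trans hX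
  have hXX2 : X2 ≤ X := ((le_max_right _ _).trans (le_max_left _ _)).trans hX
  have hX4 : 4 ≤ X := ((le_max_right _ _).trans (le_max_right _ _)).trans hX
  obtain ⟨hL, hpow⟩ := hX3 X (((le_max_left _ _).trans (le_max_right _ _)).trans hX)
  set L := Real.log X with hLdef
  have hL0 : 0 < L := by linarith
  have hXR : (0 : ℝ) < X := by exact_mod_cast (by omega : 0 < X)
  have hXR1 : (1 : ℝ) ≤ X := by exact_mod_cast (by omega : 1 ≤ X)
  have hL6 : 6 * L ≤ (X : ℝ) ^ (c / 4) := by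
    calc 6 * L ≤ L * L := by gcongr; linarith
      _ = L ^ 2 := by ring
      _ ≤ (X : ℝ) ^ (c / 4) := hpow
  have hL1 : L + 1 ≤ (X : ℝ) ^ (c / 4) := by linarith
  have hε2 : ε ^ 2 ≤ 1 := pow_le_one₀ hε.le hε1
  have hεm : 0 ≤ ε ^ 2 * m := by positivity
  have hCpos : 0 < C := by linarith
  have main : ∀ h : ℕ, 1 ≤ h → (h : ℝ) ≤ (X : ℝ) ^ (c / 4) →
      (((range X).filter (fun y => PChainH X h ε m y)).card : ℝ) ≤
      16 * C0 * (1 + L / h) * Real.exp (-(ε ^ 2 * m / C)) * X := by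
    intro h hh hhc
    have hhR : (1 : ℝ) ≤ h := by exact_mod_cast hh
    have hLh : 0 ≤ L / (h : ℝ) := by positivity
    by_cases hm : (m : ℝ) ≤ 2 * L + 1
    swap
    · have h1 : (range X).filter (fun y => PChainH X h ε m y) = ∅ := by
        apply filter_eq_empty_iff.2
        intro y _ hy
        exact hm (pchainH_short X h ε m y (by omega) hh hy)
      rw [h1, card_empty, Nat.cast_zero]
      positivity
    by_cases hεm1 : ε ^ 2 * m ≤ 1
    · have htriv : (((range X).filter (fun y => PChainH X h ε m y)).card : ℝ) ≤ X := by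
        have := card_filter_le (range X) (fun y => PChainH X h ε m y)
        rw [card_range] at this
        exact_mod_cast this
      refine htriv.trans ?_
      have h1 : ε ^ 2 * m / C ≤ 1 / 2 := by
        rw [div_le_div_iff₀ hCpos (by norm_num)]
        nlinarith
      have h2 : (1 : ℝ) / 2 ≤ Real.exp (-(ε ^ 2 * m / C)) := by
        have := Real.add_one_le_exp (-(ε ^ 2 * m / C))
        linarith
      have h3 : (1 : ℝ) ≤ 16 * C0 * (1 + L / h) * Real.exp (-(ε ^ 2 * m / C)) := by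
        calc (1 : ℝ) ≤ 16 * C0 * 1 * (1 / 2) := by linarith
          _ ≤ 16 * C0 * (1 + L / h) * Real.exp (-(ε ^ 2 * m / C)) := by
            gcongr
            linarith
      nlinarith
    rw [not_le] at hεm1
    set P := max h ⌈L⌉₊ with hP
    have hPh : h ≤ P := le_max_left _ _
    have hPR : (1 : ℝ) ≤ P := by exact_mod_cast hh.trans hPh
    have hPL : L ≤ P := (Nat.le_ceil _).trans (by exact_mod_cast le_max_right _ _)
    have hceil : (⌈L⌉₊ : ℝ) ≤ L + 1 := (Nat.ceil_lt_add_one hL0.le).le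
    have hPle : (P : ℝ) ≤ (X : ℝ) ^ (c / 4) := by
      rw [hP, Nat.cast_max]
      exact max_le hhc (hceil.trans hL1)
    have hPle2 : (P : ℝ) ≤ h + L := by
      rw [hP, Nat.cast_max]
      apply max_le
      · linarith
      · linarith
    obtain ⟨j, hj1, hj2⟩ := exists_scales h P hh hPh
    obtain ⟨j2, hj3, hj4, hj5⟩ := Js_eps ε hε hε1
    set r := ⌊ε ^ 2 * m / K⌋₊ with hr
    have hr1 : (r : ℝ) ≤ ε ^ 2 * m / K := Nat.floor_le (by positivity)
    have hr2 : ε ^ 2 * m / K < r + 1 := Nat.lt_floor_add_one _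
    have hrL : (r : ℝ) ≤ c / 4 * L := by
      refine hr1.trans ?_
      rw [div_le_iff₀ (by linarith)]
      have h1 : c / 4 * L * K = 3 * L := by
        rw [hK]
        field_simp
        norm_num
      rw [h1]
      have h2 : ε ^ 2 * m ≤ 1 * m := by gcongr
      linarith
    have h2r : (2 : ℝ) ^ r ≤ (X : ℝ) ^ (c / 4) := by
      refine (Js_two_pow_le_exp r).trans ?_
      rw [Real.rpow_def_of_pos hXR]
      apply Real.exp_le_exp.2
      rw [← hLdef]
      linarith
    have h2j : (2 : ℝ) ^ j2 ≤ (X : ℝ) ^ (c / 4) := by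
      refine le_trans ?_ hL6
      have h1 : 1 < ε ^ 2 * (3 * L) := by
        have : ε ^ 2 * m ≤ ε ^ 2 * (3 * L) := by
          gcongr
          linarith
        linarith
      have h2 : ε ^ 2 * 2 ^ j2 ≤ ε ^ 2 * (6 * L) := by linarith
      exact le_of_mul_le_mul_left h2 (by positivity)
    set h1 := P * 2 ^ (j2 + r) with hh1def
    have hh1c : (h1 : ℝ) ≤ (X : ℝ) ^ c := by
      rw [hh1def]
      push_cast
      rw [pow_add]
      calc (P : ℝ) * (2 ^ j2 * 2 ^ r) ≤
          (X : ℝ) ^ (c / 4) * ((X : ℝ) ^ (c / 4) * (X : ℝ) ^ (c / 4)) := by gcongr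
        _ = (X : ℝ) ^ (c / 4 + (c / 4 + c / 4)) := by
          rw [Real.rpow_add hXR, Real.rpow_add hXR]
        _ ≤ (X : ℝ) ^ c := Real.rpow_le_rpow_of_exponent_le hXR1 (by linarith)
    have hh11 : 1 ≤ h1 := Nat.succ_le_of_lt (Nat.mul_pos (by omega) (by positivity))
    have hh1R : (1 : ℝ) ≤ h1 := by exact_mod_cast hh11
    have hsub : (range X).filter (fun y => PChainH X h ε m y) ⊆
        (range X).filter (fun y => PChainH X h1 ε (m - (j2 + r + j)) y) := by
      intro y hy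
      rw [mem_filter] at hy ⊢
      refine ⟨hy.1, pchainH_drop X h h1 ε m y (j2 + r + j) ?_ hy.2⟩
      rw [pow_add, hh1def]
      calc P * 2 ^ (j2 + r) ≤ 2 ^ j * h * 2 ^ (j2 + r) := Nat.mul_le_mul_right _ hj1
        _ = 2 ^ (j2 + r) * 2 ^ j * h := by ring
    have h2 : (((range X).filter (fun y => PChainH X h ε m y)).card : ℝ) ≤
        (((range X).filter (fun y => PChainH X h1 ε (m - (j2 + r + j)) y)).card : ℝ) := by
      exact_mod_cast card_le_card hsub
    refine h2.trans ?_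
    -- the exponential
    have hQ : (2 : ℝ) ^ j ≤ 4 * (1 + L / h) := by
      refine hj2.trans ?_
      have h3 : (P : ℝ) / h ≤ 1 + L / h := by
        rw [div_le_iff₀ (by linarith)]
        have h4 : (1 + L / h) * h = h + L := by
          field_simp
        rw [h4]
        exact hPle2
      linarith
    have hexp1 : ∀ C' : ℝ, 1 ≤ C' → C' ≤ C0 →
        C' * Real.exp (-(ε ^ 2 * ((m - (j2 + r + j) : ℕ) : ℝ) / C')) ≤
        12 * C0 * ((1 + L / h) * Real.exp (-(ε ^ 2 * m / C))) := by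
      intro C' hC' hC'0
      have h3 : (m : ℝ) - (j2 + r + j) ≤ ((m - (j2 + r + j) : ℕ) : ℝ) := by
        have : m ≤ (m - (j2 + r + j)) + (j2 + r + j) := by omega
        have h4 : (m : ℝ) ≤ ((m - (j2 + r + j) : ℕ) : ℝ) + (j2 + r + j) := by exact_mod_cast this
        linarith
      have h4 : (0 : ℝ) ≤ ((m - (j2 + r + j) : ℕ) : ℝ) := Nat.cast_nonneg _
      have h5 : ε ^ 2 * ((m : ℝ) - (j2 + r + j)) / (2 * C0) ≤
          ε ^ 2 * ((m - (j2 + r + j) : ℕ) : ℝ) / C' := by
        calc ε ^ 2 * ((m : ℝ) - (j2 + r + j)) / (2 * C0) ≤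
            ε ^ 2 * ((m - (j2 + r + j) : ℕ) : ℝ) / (2 * C0) := by gcongr
          _ ≤ ε ^ 2 * ((m - (j2 + r + j) : ℕ) : ℝ) / C' := by
            apply div_le_div_of_nonneg_left (by positivity) (by linarith) (by linarith)
      have h6 : ε ^ 2 * r / (2 * C0) ≤ ε ^ 2 * m / (4 * C0) := by
        rw [div_le_div_iff₀ (by positivity) (by positivity)]
        have h7 : ε ^ 2 * r ≤ 1 * (ε ^ 2 * m / K) := by gcongr
        have h8 : ε ^ 2 * m / K ≤ ε ^ 2 * m / 12 := by
          apply div_le_div_of_nonneg_left hεm (by norm_num) hK12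
        have h9 : ε ^ 2 * r ≤ ε ^ 2 * m / 12 := by linarith
        calc ε ^ 2 * r * (4 * C0) ≤ ε ^ 2 * m / 12 * (4 * C0) := by gcongr
          _ ≤ ε ^ 2 * m * (2 * C0) := by
            have : 0 ≤ ε ^ 2 * m * C0 := by positivity
            linarith
      have h7 : ε ^ 2 * j / (2 * C0) ≤ j / 2 := by
        rw [div_le_div_iff₀ (by positivity) (by norm_num)]
        have h8 : ε ^ 2 * j ≤ 1 * j := by gcongr
        have h9 : (j : ℝ) * 1 ≤ j * C0 := by gcongr
        nlinarith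
      have h7' : ε ^ 2 * j2 / (2 * C0) ≤ 1 := by
        rw [div_le_one (by positivity)]
        linarith
      have h8 : Real.exp (j / 2 : ℝ) ≤ 2 ^ j := by
        have h9 : Real.exp (1 / 2 : ℝ) ≤ 2 := by
          have h10 : Real.exp (1 / 2 : ℝ) ^ 2 = Real.exp 1 := by
            rw [← Real.exp_nat_mul]
            congr 1
            norm_num
          have h11 := Real.exp_one_lt_d9
          nlinarith [Real.exp_pos (1 / 2 : ℝ)]
        calc Real.exp (j / 2 : ℝ) = Real.exp (1 / 2 : ℝ) ^ j := by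
              rw [← Real.exp_nat_mul]
              congr 1
              ring
          _ ≤ 2 ^ j := pow_le_pow_left₀ (Real.exp_pos _).le h9 j
      have h9 : ε ^ 2 * m / C ≤ ε ^ 2 * m / (4 * C0) := by
        apply div_le_div_of_nonneg_left hεm (by positivity)
        rw [hCdef]
        linarith
      have h10 : Real.exp 1 ≤ 3 := by
        have h11 := Real.exp_one_lt_d9
        linarith
      have h11 : Real.exp (-(ε ^ 2 * ((m - (j2 + r + j) : ℕ) : ℝ) / C')) ≤
          2 ^ j * 3 * Real.exp (-(ε ^ 2 * m / C)) := by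
        calc Real.exp (-(ε ^ 2 * ((m - (j2 + r + j) : ℕ) : ℝ) / C')) ≤
            Real.exp (j / 2 + 1 + -(ε ^ 2 * m / C)) := by
              apply Real.exp_le_exp.2
              have h10 : ε ^ 2 * ((m : ℝ) - (j2 + r + j)) / (2 * C0) =
                  ε ^ 2 * m / (4 * C0) + ε ^ 2 * m / (4 * C0) - ε ^ 2 * r / (2 * C0) -
                    ε ^ 2 * j / (2 * C0) - ε ^ 2 * j2 / (2 * C0) := by
                field_simp
                ring
              linarith
          _ = Real.exp (j / 2 : ℝ) * Real.exp 1 * Real.exp (-(ε ^ 2 * m / C)) := by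
              rw [Real.exp_add, Real.exp_add]
          _ ≤ 2 ^ j * 3 * Real.exp (-(ε ^ 2 * m / C)) := by gcongr
      calc C' * Real.exp (-(ε ^ 2 * ((m - (j2 + r + j) : ℕ) : ℝ) / C')) ≤
          C0 * (4 * (1 + L / h) * 3 * Real.exp (-(ε ^ 2 * m / C))) := by
            have : 2 ^ j * 3 * Real.exp (-(ε ^ 2 * m / C)) ≤
                4 * (1 + L / h) * 3 * Real.exp (-(ε ^ 2 * m / C)) := by gcongr
            have h12 := h11.trans this
            gcongr
        _ = 12 * C0 * ((1 + L / h) * Real.exp (-(ε ^ 2 * m / C))) := by ring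
    have hfin : ∀ s : ℝ, s ≤ 2 * C0 * Real.exp (-(ε ^ 2 * m / C)) * X → ∀ C' : ℝ, 1 ≤ C' →
        C' ≤ C0 → C' * Real.exp (-(ε ^ 2 * ((m - (j2 + r + j) : ℕ) : ℝ) / C')) * X + s ≤
        16 * C0 * (1 + L / h) * Real.exp (-(ε ^ 2 * m / C)) * X := by
      intro s hs C' hC' hC'0
      have h3 := mul_le_mul_of_nonneg_right (hexp1 C' hC' hC'0) hXR.le
      have h4 : 0 ≤ L / h * (C0 * Real.exp (-(ε ^ 2 * m / C)) * X) := by positivity
      have h4' : 0 ≤ C0 * Real.exp (-(ε ^ 2 * m / C)) * X := by positivity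
      have h6 : 16 * C0 * (1 + L / h) * Real.exp (-(ε ^ 2 * m / C)) * X =
          12 * C0 * ((1 + L / h) * Real.exp (-(ε ^ 2 * m / C))) * X +
          2 * C0 * Real.exp (-(ε ^ 2 * m / C)) * X + 2 * (C0 * Real.exp (-(ε ^ 2 * m / C)) * X) +
          4 * (L / h * (C0 * Real.exp (-(ε ^ 2 * m / C)) * X)) := by
        ring
      rw [h6]
      linarith
    -- `exp (ε ^ 2 m / C) ≤ 2 √(2 ^ r)`
    have hexpr : Real.exp (ε ^ 2 * m / C) ≤ 2 * Real.sqrt (2 ^ r) := by
      apply Js_exp_half_le _ (by positivity)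
      have h7 : ε ^ 2 * m / C ≤ ε ^ 2 * m / (4 * K) := by
        apply div_le_div_of_nonneg_left hεm (by positivity)
        rw [hCdef]
        linarith
      have h8 : ε ^ 2 * m / (4 * K) = ε ^ 2 * m / K * (1 / 4) := by
        field_simp
      rw [h8] at h7
      linarith
    have hsq1 : (1 : ℝ) ≤ Real.sqrt (2 ^ r) := by
      rw [Real.one_le_sqrt]
      exact one_le_pow₀ (by norm_num)
    have hsq2 : Real.sqrt ((2 : ℝ) ^ r) * Real.sqrt (2 ^ r) = 2 ^ r :=
      Real.mul_self_sqrt (by positivity)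
    have hone : Real.exp (ε ^ 2 * m / C) * Real.exp (-(ε ^ 2 * m / C)) = 1 := by
      rw [← Real.exp_add, add_neg_cancel, Real.exp_zero]
    have hinv : 1 / Real.sqrt (2 ^ r) ≤ 2 * Real.exp (-(ε ^ 2 * m / C)) := by
      rw [div_le_iff₀ (by linarith)]
      calc (1 : ℝ) = Real.exp (ε ^ 2 * m / C) * Real.exp (-(ε ^ 2 * m / C)) := hone.symm
        _ ≤ 2 * Real.sqrt (2 ^ r) * Real.exp (-(ε ^ 2 * m / C)) := by gcongr
        _ = 2 * Real.exp (-(ε ^ 2 * m / C)) * Real.sqrt (2 ^ r) := by ring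
    have hj3' : (1 : ℝ) ≤ 2 ^ j2 := one_le_pow₀ (by norm_num)
    rcases le_or_gt (h1 : ℝ) (L ^ (2 * B + 2)) with hcase | hcase
    · -- `jumps_one`
      refine (hX2 X hXX2 h1 hh11 hcase ε hε hε1 (m - (j2 + r + j))).trans ?_
      have h3 : C2 * X * L / (ε ^ 2 * h1) ≤ C2 * (1 / 2 ^ r) * X := by
        rw [hh1def]
        push_cast
        rw [pow_add, div_le_iff₀ (by positivity)]
        have h4 : C2 * (1 / 2 ^ r) * X * (ε ^ 2 * (P * (2 ^ j2 * 2 ^ r))) =
            C2 * X * (P * (ε ^ 2 * 2 ^ j2)) := by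
          field_simp
        rw [h4]
        have h5 : L * 1 ≤ P * (ε ^ 2 * 2 ^ j2) := by gcongr
        rw [mul_one] at h5
        gcongr
      apply hfin _ _ C2 hC2 hC20
      refine h3.trans ?_
      have h4 : (1 : ℝ) / 2 ^ r ≤ 1 / Real.sqrt (2 ^ r) := by
        apply one_div_le_one_div_of_le (by linarith)
        calc Real.sqrt ((2 : ℝ) ^ r) = Real.sqrt ((2 : ℝ) ^ r) * 1 := (mul_one _).symm
          _ ≤ Real.sqrt ((2 : ℝ) ^ r) * Real.sqrt ((2 : ℝ) ^ r) := by gcongr
          _ = 2 ^ r := hsq2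
      calc C2 * (1 / 2 ^ r) * X ≤ C0 * (2 * Real.exp (-(ε ^ 2 * m / C))) * X := by
            have h5 := h4.trans hinv
            gcongr
        _ = 2 * C0 * Real.exp (-(ε ^ 2 * m / C)) * X := by ring
    · -- `jumps_H`
      refine (hX1 X hXX1 h1 hh11 hh1c ε hε hε1 (m - (j2 + r + j))).trans ?_
      apply hfin _ _ C1 hC1 hC10
      have h3 : L ^ B ≤ Real.sqrt h1 := by
        apply Real.le_sqrt_of_sq_le
        calc (L ^ B) ^ 2 = L ^ (2 * B) := by ring
          _ ≤ L ^ (2 * B + 2) := pow_le_pow_right₀ (by linarith) (by omega)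
          _ ≤ h1 := hcase.le
      have h4 : Real.sqrt (2 ^ r) ≤ Real.sqrt h1 := by
        apply Real.sqrt_le_sqrt
        rw [hh1def]
        push_cast
        rw [pow_add]
        calc (2 : ℝ) ^ r = 1 * (1 * 2 ^ r) := by ring
          _ ≤ P * (2 ^ j2 * 2 ^ r) := by gcongr
      have hs0 : 0 < Real.sqrt h1 := by linarith
      calc X * L ^ B / h1 ≤ X * Real.sqrt h1 / h1 := by gcongr
        _ = X * (1 / Real.sqrt h1) := by
          have h5 : Real.sqrt h1 * Real.sqrt h1 = (h1 : ℝ) := Real.mul_self_sqrt (by positivity)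
          nth_rewrite 2 [← h5]
          field_simp
        _ ≤ X * (1 / Real.sqrt (2 ^ r)) := by gcongr
        _ ≤ X * (2 * Real.exp (-(ε ^ 2 * m / C))) := by gcongr
        _ = 2 * 1 * Real.exp (-(ε ^ 2 * m / C)) * X := by ring
        _ ≤ 2 * C0 * Real.exp (-(ε ^ 2 * m / C)) * X := by gcongr
  -- all scales
  have hhR : (1 : ℝ) ≤ h := by exact_mod_cast hh
  have hS : 0 ≤ L / (h : ℝ) := by positivity
  rcases le_or_gt (h : ℝ) ((X : ℝ) ^ (c / 4)) with hcase | hcase
  · refine (main h hh hcase).trans ?_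
    have : 16 * C0 ≤ C := by linarith
    gcongr
  · set H' := ⌊(X : ℝ) ^ (c / 4)⌋₊ with hH'
    have h1 : (H' : ℝ) ≤ (X : ℝ) ^ (c / 4) := Nat.floor_le (by positivity)
    have h2 : (X : ℝ) ^ (c / 4) < H' + 1 := Nat.lt_floor_add_one _
    have h3 : L ≤ H' := by linarith
    have h4 : (1 : ℝ) ≤ H' := by linarith
    have h5 : 1 ≤ H' := by exact_mod_cast h4
    have h6 : H' ≤ h := by
      have : (H' : ℝ) ≤ h := by linarith
      exact_mod_cast this
    have h7 : (((range X).filter (fun y => PChainH X h ε m y)).card : ℝ) ≤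
        (((range X).filter (fun y => PChainH X H' ε m y)).card : ℝ) := by
      have : (range X).filter (fun y => PChainH X h ε m y) ⊆
          (range X).filter (fun y => PChainH X H' ε m y) := by
        intro y hy
        rw [mem_filter] at hy ⊢
        exact ⟨hy.1, pchainH_mono X h H' ε m y h6 hy.2⟩
      exact_mod_cast card_le_card this
    refine h7.trans ((main H' h5 h1).trans ?_)
    have h8 : 1 + L / (H' : ℝ) ≤ 2 := by
      have : L / (H' : ℝ) ≤ 1 := by
        rw [div_le_one (by linarith)]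
        exact h3
      linarith
    have h9 : 16 * C0 * (1 + L / (H' : ℝ)) ≤ C * (1 + L / h) := by
      calc 16 * C0 * (1 + L / (H' : ℝ)) ≤ 16 * C0 * 2 := by gcongr
        _ ≤ C * 1 := by linarith
        _ ≤ C * (1 + L / h) := by
          gcongr
          linarith
    gcongr

end Pool.Agent.H.MP_711652_nt.SH
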