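import Mathlib
import Pool.Agent.H.MP_711652_nt.SH.JsC

/-!
# Few jumps of the density of the primes, sharp form

`jumps_one` (one scale) is proved in `JsB`, `jumps_sharp` (all scales) in `JsC`.
-/
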