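import Mathlib
import Pool.Agent.H.MP_711652_nt.SH.Exc
import Pool.Agent.H.MP_711652_nt.QW.QuarterX

set_option autoImplicit false

namespace Pool.Agent.H.MP_711652_nt.SH

open Finset Pool.Agent.H.MP_711652_nt.QW

open Classical in
/-- The lower bound alone. -/
theorem quarter_low (d ε : ℝ) (hd : 0 < d) (hd2 : d < 1 / 2) (hε : 0 < ε) (hε1 : ε ≤ 1) :
    ∃ (C : ℝ) (X₀ : ℕ), 1 ≤ C ∧
    ∀ X : ℕ, X₀ ≤ X → ∀ Q : ℝ, C * Real.log X ≤ Q → ((1 - 2 * d) / 4 - ε) * X ≤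
      (((range X).filter (fun y => ∀ u v : ℕ, u ≤ y → y ≤ v →
        Q ≤ (v : ℝ) - u → v ≤ u + X →
        d * ((v : ℝ) - u) / Real.log X ≤ prIn u v)).card : ℝ) := by
  obtain ⟨C1, X1, hC1, h1⟩ := excess (ε / 4) (by positivity) 2
  obtain ⟨X2, h2⟩ := pnt_two (ε / 32) (by positivity) (by linarith)
  obtain ⟨K, hK⟩ : ∃ K : ℕ, K = ⌈4 / ε⌉₊ := ⟨_, rfl⟩
  have hKε : 4 / ε ≤ K := by rw [hK]; exact Nat.le_ceil _
  obtain ⟨lam, hlam⟩ : ∃ lam : ℝ, lam = 4 * C1 / ε := ⟨_, rfl⟩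
  have hlam0 : 0 < lam := by rw [hlam]; positivity
  have hlamε : C1 = ε / 4 * lam := by rw [hlam]; field_simp
  have ev1 := eventually_log_pow 2 ((lam + 1) * (4 / ε)) (by positivity)
  have ev2 := ev_log_ge (lam + 1)
  obtain ⟨X3, hX3⟩ := Filter.eventually_atTop.1 (ev1.and ev2)
  obtain ⟨C, hC⟩ : ∃ C : ℝ, C = K * (lam + 1) + 1 / (2 * d * (ε / 4) ^ 2) + 1 := ⟨_, rfl⟩
  have hCa : (K : ℝ) * (lam + 1) ≤ C := by
    have : 0 ≤ 1 / (2 * d * (ε / 4) ^ 2) := by positivity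
    linarith
  have hCb : 1 / (2 * d * (ε / 4) ^ 2) ≤ C := by
    have : 0 ≤ (K : ℝ) * (lam + 1) := by positivity
    linarith
  have hCc : 1 ≤ C := by
    have h3 : 0 ≤ 1 / (2 * d * (ε / 4) ^ 2) := by positivity
    have : 0 ≤ (K : ℝ) * (lam + 1) := by positivity
    linarith
  refine ⟨C, max (max X1 X2) (max X3 1), hCc, ?_⟩
  intro X hX Q hQ
  have hX1 : X1 ≤ X := le_trans (le_trans (le_max_left _ _) (le_max_left _ _)) hX
  have hX2 : X2 ≤ X := le_trans (le_trans (le_max_right _ _) (le_max_left _ _)) hX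
  have hX3' : X3 ≤ X := le_trans (le_trans (le_max_left _ _) (le_max_right _ _)) hX
  have hX0 : 1 ≤ X := le_trans (le_trans (le_max_right _ _) (le_max_right _ _)) hX
  obtain ⟨hlog1, hlog2⟩ := hX3 X hX3'
  obtain ⟨hp1, hp2⟩ := h2 X hX2
  have h3 := h1 X hX1
  unfold exc at h3
  obtain ⟨L, hL⟩ : ∃ L, L = Real.log X := ⟨_, rfl⟩
  rw [← hL] at hlog1 hlog2 hp1 hp2 h3 hQ ⊢
  have hL1 : 1 ≤ L := by linarith
  have hL0 : 0 < L := by linarith
  have hXr : (0 : ℝ) < X := by exact_mod_cast hX0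
  obtain ⟨H, hH⟩ : ∃ H : ℕ, H = ⌈lam * L⌉₊ := ⟨_, rfl⟩
  have hH1 : 1 ≤ H := by rw [hH]; exact Nat.ceil_pos.2 (by positivity)
  have hHr : (0 : ℝ) < H := by exact_mod_cast hH1
  have hHlow : lam * L ≤ H := by rw [hH]; exact Nat.le_ceil _
  have hHup : (H : ℝ) ≤ (lam + 1) * L := by
    have h4 : (H : ℝ) < lam * L + 1 := by rw [hH]; exact Nat.ceil_lt_add_one (by positivity)
    linarith
  have hHL2 : (H : ℝ) ≤ L ^ 2 := by
    calc (H : ℝ) ≤ (lam + 1) * L := hHup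
      _ ≤ L * L := mul_le_mul_of_nonneg_right hlog2 hL0.le
      _ = L ^ 2 := by ring
  have hexc : ∑ z ∈ range X, max 0 ((prIn z (z + H) : ℝ) * L / H - (4 + ε / 4)) ≤
      ε / 4 * X := by
    have h4 : ∑ z ∈ range X, max 0 ((prIn z (z + H) : ℝ) * L / H - (4 + ε / 4)) ≤
        ∑ z ∈ range (4 * X), max 0 ((prIn z (z + H) : ℝ) * L / H - (4 + ε / 4)) := by
      apply sum_le_sum_of_subset_of_nonneg
      · intro z hz
        rw [mem_range] at hz ⊢
        omega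
      · intro k _ _
        exact le_max_left _ _
    refine h4.trans ((h3 H hH1 hHL2).trans ?_)
    rw [div_le_iff₀ hHr, hlamε]
    have h5 : ε / 4 * X * (lam * L) ≤ ε / 4 * X * H := mul_le_mul_of_nonneg_left hHlow (by positivity)
    linarith
  have hHL : (H : ℝ) * L ≤ ε / 4 * X := by
    have h4 : (H : ℝ) * L ≤ (lam + 1) * L * L := mul_le_mul_of_nonneg_right hHup hL0.le
    have h5 : (ε / 4) * ((lam + 1) * (4 / ε) * L ^ 2) ≤ ε / 4 * X :=
      mul_le_mul_of_nonneg_left hlog1 (by positivity)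
    have h6 : (ε / 4) * ((lam + 1) * (4 / ε) * L ^ 2) = (lam + 1) * L * L := by
      field_simp
    linarith
  have hQ0 : 0 < Q := lt_of_lt_of_le (by positivity) hQ
  exact quarter_gen X H K L d ε Q hd hd2 hε hε1 hH1 hL0 hKε hQ0 (by
    calc (K : ℝ) * H ≤ K * ((lam + 1) * L) := by gcongr
      _ = K * (lam + 1) * L := by ring
      _ ≤ C * L := mul_le_mul_of_nonneg_right hCa hL0.le
      _ ≤ Q := hQ) (by
    rw [div_le_iff₀ (by positivity)] at hCb
    have h4 : 2 * d * (ε / 4) ^ 2 * (C * L) ≤ 2 * d * (ε / 4) ^ 2 * Q :=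
      mul_le_mul_of_nonneg_left hQ (by positivity)
    have h5 : 1 * L ≤ C * (2 * d * (ε / 4) ^ 2) * L := mul_le_mul_of_nonneg_right hCb hL0.le
    linarith) hX0 hp1 hp2 hexc hHL

open Classical in
/-- **A quarter of all integers, all scales from the mean gap on.** PROOF. `H = λ L` with `λ` large,
`D w = prIn w (w + H) L / H`: `∑_{w<X} D w ≥ (1 - ε) X` (`pnt_lower`), `∑ exc ≤ C X / λ ≤ ε X`, so
`min D (4 + ε)` has sum `≥ (1 - 2 ε) X`. If an interval `(u, v]` around `y` of length `W ≥ K H` has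
density `< d` then one of the two parts `(u, y]`, `(y, v]` has density `< d`; if that part is shorter
than `θ W` then the other one has density `< d / (1 - θ)`; for a part of length `l ≥ θ W`:
`∑_{w ∈ [y, y + l - H)} D w ≤ L prIn y (y + l) < d' l` (and similarly on the left). Rising sun
(`rise_right`, `rise_left` of `QW/QuarterS`): the sum of `D` over the bad `y` is `≤ 2 d'' X + small`; the
good `y` have `∑ min D (4 + ε) ≥ (1 - 2 d'' - 3 ε) X`, so there are at least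
`(1 - 2 d'' - 3 ε) X / (4 + ε)` of them. Together with `bt_sharp` (`H₀ = C L`, exceptional set
`≤ ε X`). -/
theorem quarter_sharp (d ε : ℝ) (hd : 0 < d) (hε : 0 < ε) : ∃ (C : ℝ) (X₀ : ℕ), 1 ≤ C ∧
    ∀ X : ℕ, X₀ ≤ X → ((1 - 2 * d) / 4 - ε) * X ≤
      (((range X).filter (fun y => ∀ u v : ℕ, u ≤ y → y ≤ v →
        C * Real.log X ≤ (v : ℝ) - u → v ≤ u + X →
        d * ((v : ℝ) - u) / Real.log X ≤ prIn u v ∧
        (prIn u v : ℝ) ≤ (4 + ε) * ((v : ℝ) - u) / Real.log X)).card : ℝ) := by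
  by_cases hd2 : d < 1 / 2
  swap
  · refine ⟨1, 0, le_rfl, fun X _ => ?_⟩
    refine le_trans ?_ (Nat.cast_nonneg _)
    exact mul_nonpos_of_nonpos_of_nonneg (by linarith) (Nat.cast_nonneg _)
  obtain ⟨e, he⟩ : ∃ e, e = min (ε / 2) 1 := ⟨_, rfl⟩
  have he0 : 0 < e := by rw [he]; exact lt_min (by positivity) one_pos
  have he1 : e ≤ 1 := by rw [he]; exact min_le_right _ _
  have heε : e ≤ ε / 2 := by rw [he]; exact min_le_left _ _
  obtain ⟨C1, X1, hC1, h1⟩ := quarter_low d e hd hd2 he0 he1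
  obtain ⟨C2, X2, hC2, h2⟩ := bt_sharp ε hε 2
  obtain ⟨lam, hlam⟩ : ∃ lam : ℝ, lam = 2 * C2 / ε + 1 := ⟨_, rfl⟩
  have hlam1 : 1 ≤ lam := by
    have : 0 ≤ 2 * C2 / ε := by positivity
    linarith
  have ev2 := ev_log_ge (lam + 1)
  obtain ⟨X3, hX3⟩ := Filter.eventually_atTop.1 ev2
  refine ⟨C1 + lam + 1, max (max X1 X2) (max X3 1), by linarith, ?_⟩
  intro X hX
  have hX1 : X1 ≤ X := le_trans (le_trans (le_max_left _ _) (le_max_left _ _)) hX
  have hX2 : X2 ≤ X := le_trans (le_trans (le_max_right _ _) (le_max_left _ _)) hX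
  have hX3' : X3 ≤ X := le_trans (le_trans (le_max_left _ _) (le_max_right _ _)) hX
  have hX0 : 1 ≤ X := le_trans (le_trans (le_max_right _ _) (le_max_right _ _)) hX
  have hlog2 := hX3 X hX3'
  have hlow := h1 X hX1
  have hup := h2 X hX2
  obtain ⟨L, hL⟩ : ∃ L, L = Real.log X := ⟨_, rfl⟩
  rw [← hL] at hlog2 hlow hup ⊢
  have hL1 : 1 ≤ L := by linarith
  have hL0 : 0 < L := by linarith
  have hXr : (0 : ℝ) < X := by exact_mod_cast hX0
  obtain ⟨H, hH⟩ : ∃ H : ℕ, H = ⌈lam * L⌉₊ := ⟨_, rfl⟩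
  have hH1 : 1 ≤ H := by rw [hH]; exact Nat.ceil_pos.2 (by positivity)
  have hHr : (0 : ℝ) < H := by exact_mod_cast hH1
  have hHlow : lam * L ≤ H := by rw [hH]; exact Nat.le_ceil _
  have hHup : (H : ℝ) ≤ (lam + 1) * L := by
    have h4 : (H : ℝ) < lam * L + 1 := by rw [hH]; exact Nat.ceil_lt_add_one (by positivity)
    linarith
  have hHL2 : (H : ℝ) ≤ L ^ 2 := by
    calc (H : ℝ) ≤ (lam + 1) * L := hHup
      _ ≤ L * L := mul_le_mul_of_nonneg_right hlog2 hL0.le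
      _ = L ^ 2 := by ring
  obtain ⟨E, hE, hE2⟩ := hup H (by
    calc L = 1 * L := (one_mul L).symm
      _ ≤ lam * L := mul_le_mul_of_nonneg_right hlam1 hL0.le
      _ ≤ H := hHlow) hHL2
  have hE3 : (E.card : ℝ) ≤ ε / 2 * X := by
    refine hE.trans ?_
    rw [div_le_iff₀ hHr]
    have h5 : ε / 2 * X * (lam * L) ≤ ε / 2 * X * H := mul_le_mul_of_nonneg_left hHlow (by positivity)
    have h6 : C2 ≤ ε / 2 * lam := by
      rw [hlam]
      have : ε / 2 * (2 * C2 / ε + 1) = C2 + ε / 2 := by field_simp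
      rw [this]
      linarith
    have h7 : C2 * (X * L) ≤ ε / 2 * lam * (X * L) := mul_le_mul_of_nonneg_right h6 (by positivity)
    linarith
  have hlow2 := hlow ((C1 + lam + 1) * L) (by
    apply mul_le_mul_of_nonneg_right _ hL0.le
    linarith)
  set G1 := (range X).filter (fun y => ∀ u v : ℕ, u ≤ y → y ≤ v →
        (C1 + lam + 1) * L ≤ (v : ℝ) - u → v ≤ u + X →
        d * ((v : ℝ) - u) / L ≤ prIn u v) with hG1
  set G2 := (range X).filter (fun y => ∀ u v : ℕ, u ≤ y → y ≤ v →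
        (C1 + lam + 1) * L ≤ (v : ℝ) - u → v ≤ u + X →
        d * ((v : ℝ) - u) / L ≤ prIn u v ∧
        (prIn u v : ℝ) ≤ (4 + ε) * ((v : ℝ) - u) / L) with hG2
  have hsub : G1 ⊆ G2 ∪ E := by
    intro y hy
    by_cases hyE : y ∈ E
    · exact mem_union_right _ hyE
    · apply mem_union_left
      have hy1 := mem_filter.1 hy
      refine mem_filter.2 ⟨hy1.1, fun u v h3 h4 h5 h6 => ⟨hy1.2 u v h3 h4 h5 h6, ?_⟩⟩
      apply hE2 y (mem_range.1 hy1.1) hyE u v h3 h4 _ h6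
      refine le_trans (hHup.trans ?_) h5
      apply mul_le_mul_of_nonneg_right _ hL0.le
      linarith
  have hcard : (G1.card : ℝ) ≤ G2.card + E.card := by
    have := (card_le_card hsub).trans (card_union_le _ _)
    exact_mod_cast this
  have h7 : ((1 - 2 * d) / 4 - ε) * X ≤ ((1 - 2 * d) / 4 - e) * X - ε / 2 * X := by
    have h8 : ((1 - 2 * d) / 4 - ε) * X ≤ ((1 - 2 * d) / 4 - e - ε / 2) * X :=
      mul_le_mul_of_nonneg_right (by linarith) hXr.le
    linarith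
  linarith

end Pool.Agent.H.MP_711652_nt.SH
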