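import Mathlib
import Pool.Agent.H.MP_711652_nt.SH.Qs

set_option autoImplicit false

/-!
# One-sided lower bounds at all scales, with constants up to one
-/

namespace Pool.Agent.H.MP_711652_nt.SH

open Finset Classical Pool.Agent.H.MP_711652_nt.QW

/-- The core of the argument at one `X`. -/
lemma one_core (X H R : ℕ) (L e d η Q S : ℝ)
    (hH : 1 ≤ H) (hL : 0 < L) (hd : 0 < d) (hη : 0 < η) (hη1 : η < 1)
    (hHQ : (H : ℝ) ≤ η * Q) (hS : 0 ≤ S)
    (hpnt : (1 - e) * X ≤ prIn 0 X * L)
    (hlong : ∀ u v : ℕ, u < X → u + R < v → v ≤ u + X → d * ((v : ℝ) - u) ≤ prIn u v * L)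
    (hexc : ∑ z ∈ range X, max 0 ((prIn z (z + H) : ℝ) * L / H - S) ≤ e * X)
    (hHL : H * L ≤ e * X) :
    (1 - 3 * e) * X - d * (X + R) ≤
      S * (((range X).filter (fun y => ∀ v : ℕ, y ≤ v →
      Q ≤ (v : ℝ) - y → v ≤ y + X → d * (1 - η) * ((v : ℝ) - y) / L ≤ prIn y v)).card : ℝ) := by
  have hHr : (0 : ℝ) < H := by exact_mod_cast hH
  set G := (range X).filter (fun y => ∀ v : ℕ, y < v →
      v ≤ y + R → d * ((v : ℝ) - y) < prIn y v * L ∨ (v : ℝ) - y < Q - H) with hG
  have hμ := fun z => qmu_nonneg hL.le z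
  set P1 : ℕ → Prop := fun y => ∃ r, 1 ≤ r ∧ r ≤ R ∧ ∑ i ∈ range r, qmu L (y + i) ≤ d * r with hP1
  have hS1 := rise_right (qmu L) hμ d hd.le X R ((range X).filter P1)
    (fun k hk => mem_range.1 (mem_filter.1 hk).1) (fun k hk => (mem_filter.1 hk).2)
  have hcov : range X ⊆ (range X).filter P1 ∪ G := by
    intro y hy
    rw [mem_union, mem_filter]
    by_cases hyG : y ∈ G
    · exact Or.inr hyG
    · left
      refine ⟨hy, ?_⟩
      rw [hG, mem_filter] at hyG
      push Not at hyG
      obtain ⟨v, h1, h2, h3, h4⟩ := hyG hy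
      refine ⟨v - y, by omega, by omega, ?_⟩
      have e1 : ∑ i ∈ range (v - y), qmu L (y + i) = ∑ z ∈ Ico y v, qmu L z := by
        rw [sum_Ico_eq_sum_range]
      rw [e1, sum_qmu L y v h1.le, Nat.cast_sub h1.le]
      exact h3
  have hun : ∀ S T : Finset ℕ, ∑ k ∈ S ∪ T, qmu L k ≤ ∑ k ∈ S, qmu L k + ∑ k ∈ T, qmu L k := by
    intro S T
    have h5 := sum_union_inter (s₁ := S) (s₂ := T) (f := qmu L)
    have h6 : 0 ≤ ∑ k ∈ S ∩ T, qmu L k := sum_nonneg fun k _ => hμ k
    linarith
  have hmass : (1 - e) * X - d * (X + R) ≤ ∑ z ∈ G, qmu L z := by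
    have h1 : ∑ z ∈ range X, qmu L z = prIn 0 X * L := by
      rw [range_eq_Ico]
      exact sum_qmu L 0 X (Nat.zero_le _)
    have h2 : ∑ z ∈ range X, qmu L z ≤ d * (X + R) + ∑ z ∈ G, qmu L z := by
      refine (sum_le_sum_of_subset_of_nonneg hcov fun k _ _ => hμ k).trans ?_
      exact (hun _ _).trans (add_le_add hS1 le_rfl)
    rw [h1] at h2
    linarith
  set GH := (range X).filter (fun z => ∃ i < H, z + i ∈ G) with hGH
  have hGX : ∀ w ∈ G, w < X := by
    intro w hw
    rw [hG, mem_filter, mem_range] at hw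
    exact hw.1
  -- averaging
  have havg : (∑ z ∈ G, qmu L z) ≤ ∑ z ∈ GH, (prIn z (z + H) : ℝ) * L / H + H * L := by
    have h1 : ∑ z ∈ G, qmu L z = ∑ z ∈ G.filter (fun w => H ≤ w), qmu L z +
        ∑ z ∈ G.filter (fun w => ¬ H ≤ w), qmu L z := (sum_filter_add_sum_filter_not _ _ _).symm
    have h2 : ∑ z ∈ G.filter (fun w => ¬ H ≤ w), qmu L z ≤ H * L := by
      calc ∑ z ∈ G.filter (fun w => ¬ H ≤ w), qmu L z ≤ ∑ z ∈ range H, qmu L z := by
            apply sum_le_sum_of_subset_of_nonneg _ fun k _ _ => hμ k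
            intro z hz
            rw [mem_filter, not_le] at hz
            exact mem_range.2 hz.2
        _ ≤ ∑ z ∈ range H, L := sum_le_sum fun z _ => qmu_le hL.le z
        _ = H * L := by rw [sum_const, card_range, nsmul_eq_mul]
    have h3 : H * ∑ z ∈ G.filter (fun w => H ≤ w), qmu L z ≤
        ∑ z ∈ GH, (prIn z (z + H) : ℝ) * L := by
      calc (H : ℝ) * ∑ z ∈ G.filter (fun w => H ≤ w), qmu L z
          = ∑ i ∈ range H, ∑ w ∈ G.filter (fun w => H ≤ w), qmu L w := by
            rw [sum_const, card_range, nsmul_eq_mul]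
        _ ≤ ∑ i ∈ range H, ∑ z ∈ GH, qmu L (z + i) := by
            apply sum_le_sum
            intro i hi
            rw [mem_range] at hi
            have h4 : ∑ w ∈ G.filter (fun w => H ≤ w), qmu L w =
                ∑ z ∈ (G.filter (fun w => H ≤ w)).image (fun w => w - i), qmu L (z + i) := by
              rw [sum_image]
              · apply sum_congr rfl
                intro w hw
                rw [mem_filter] at hw
                congr 1
                omega
              · intro w hw w' hw' h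
                rw [mem_coe, mem_filter] at hw hw'
                simp only at h
                omega
            rw [h4]
            apply sum_le_sum_of_subset_of_nonneg _ fun k _ _ => hμ _
            intro z hz
            rw [mem_image] at hz
            obtain ⟨w, hw, rfl⟩ := hz
            rw [mem_filter] at hw
            have hwX : w < X := hGX w hw.1
            rw [hGH, mem_filter, mem_range]
            refine ⟨by omega, i, hi, ?_⟩
            have : w - i + i = w := by omega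
            rw [this]
            exact hw.1
        _ = ∑ z ∈ GH, ∑ i ∈ range H, qmu L (z + i) := sum_comm
        _ = ∑ z ∈ GH, (prIn z (z + H) : ℝ) * L := by
            apply sum_congr rfl
            intro z _
            rw [← sum_qmu L z (z + H) (by omega), sum_Ico_eq_sum_range]
            congr 2
            omega
    have h4 : ∑ z ∈ G.filter (fun w => H ≤ w), qmu L z ≤
        ∑ z ∈ GH, (prIn z (z + H) : ℝ) * L / H := by
      rw [← sum_div, le_div_iff₀ hHr]
      linarith
    linarith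
  have hexc2 : ∑ z ∈ GH, (prIn z (z + H) : ℝ) * L / H ≤ S * GH.card + e * X := by
    calc ∑ z ∈ GH, (prIn z (z + H) : ℝ) * L / H
        ≤ ∑ z ∈ GH, (S + max 0 ((prIn z (z + H) : ℝ) * L / H - S)) := by
          apply sum_le_sum
          intro z _
          have := le_max_right 0 ((prIn z (z + H) : ℝ) * L / H - S)
          linarith
      _ = S * GH.card + ∑ z ∈ GH, max 0 ((prIn z (z + H) : ℝ) * L / H - S) := by
          rw [sum_add_distrib, sum_const, nsmul_eq_mul]
          ring
      _ ≤ S * GH.card + ∑ z ∈ range X, max 0 ((prIn z (z + H) : ℝ) * L / H - S) := by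
          apply add_le_add le_rfl
          apply sum_le_sum_of_subset_of_nonneg (filter_subset _ _)
          intro k _ _
          exact le_max_left _ _
      _ ≤ _ := add_le_add le_rfl hexc
  have hsub : GH ⊆ (range X).filter (fun y => ∀ v : ℕ, y ≤ v →
      Q ≤ (v : ℝ) - y → v ≤ y + X → d * (1 - η) * ((v : ℝ) - y) / L ≤ prIn y v) := by
    intro z hz
    rw [hGH, mem_filter, mem_range] at hz
    obtain ⟨hzX, i, hi, hzi⟩ := hz
    rw [mem_filter, mem_range]
    refine ⟨hzX, fun v h1 h2 h3 => ?_⟩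
    rw [div_le_iff₀ hL]
    have hiR : (i : ℝ) ≤ H := by exact_mod_cast hi.le
    have hη' : η * Q ≤ η * ((v : ℝ) - z) := mul_le_mul_of_nonneg_left h2 hη.le
    have hHv : (H : ℝ) ≤ η * ((v : ℝ) - z) := hHQ.trans hη'
    have hvz : 0 < (v : ℝ) - z := by
      by_contra hc
      rw [not_lt] at hc
      have : η * ((v : ℝ) - z) ≤ 0 := mul_nonpos_of_nonneg_of_nonpos hη.le hc
      linarith
    have hHv2 : (H : ℝ) < (v : ℝ) - z := by
      have : η * ((v : ℝ) - z) < 1 * ((v : ℝ) - z) := mul_lt_mul_of_pos_right hη1 hvz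
      linarith
    have hziv : z + i < v := by
      have h4 : ((z + i : ℕ) : ℝ) < v := by
        push_cast
        linarith
      exact_mod_cast h4
    have hpr : (prIn (z + i) v : ℝ) ≤ prIn z v := by
      exact_mod_cast prIn_mono (by omega) le_rfl
    have hmain : d * ((v : ℝ) - (z + i : ℕ)) ≤ prIn (z + i) v * L := by
      by_cases hR : v ≤ z + i + R
      · rw [hG, mem_filter] at hzi
        rcases hzi.2 v hziv hR with h4 | h4
        · exact h4.le
        · exfalso
          push_cast at h4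
          linarith
      · exact hlong (z + i) v (hGX _ hzi) (by omega) (by omega)
    push_cast at hmain
    have h5 : d * (1 - η) * ((v : ℝ) - z) ≤ d * ((v : ℝ) - (z + i)) := by
      have h6 : (1 - η) * ((v : ℝ) - z) ≤ (v : ℝ) - (z + i) := by linarith
      calc d * (1 - η) * ((v : ℝ) - z) = d * ((1 - η) * ((v : ℝ) - z)) := by ring
        _ ≤ _ := mul_le_mul_of_nonneg_left h6 hd.le
    have h6 : (prIn (z + i) v : ℝ) * L ≤ prIn z v * L := mul_le_mul_of_nonneg_right hpr hL.le
    linarith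
  have hcard : (GH.card : ℝ) ≤ (((range X).filter (fun y => ∀ v : ℕ, y ≤ v →
      Q ≤ (v : ℝ) - y → v ≤ y + X → d * (1 - η) * ((v : ℝ) - y) / L ≤ prIn y v)).card : ℝ) := by
    exact_mod_cast card_le_card hsub
  have h2 := mul_le_mul_of_nonneg_left hcard hS
  linarith

/-- **One-sided lower bounds at all scales from the mean gap on**, with any constant `d < 1`, for a
positive proportion of the integers. -/
theorem one_sharp (d ε : ℝ) (hd : 0 < d) (hε : 0 < ε) : ∃ (C : ℝ) (X₀ : ℕ), 1 ≤ C ∧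
    ∀ X : ℕ, X₀ ≤ X → ∀ Q : ℝ, C * Real.log X ≤ Q → ((1 - d) / 4 - ε) * X ≤
      (((range X).filter (fun y => ∀ v : ℕ, y ≤ v →
        Q ≤ (v : ℝ) - y → v ≤ y + X →
        d * ((v : ℝ) - y) / Real.log X ≤ prIn y v)).card : ℝ) := by
  by_cases hd2 : d < 1
  swap
  · refine ⟨1, 0, le_rfl, fun X _ Q _ => ?_⟩
    refine le_trans ?_ (Nat.cast_nonneg _)
    exact mul_nonpos_of_nonpos_of_nonneg (by linarith) (Nat.cast_nonneg _)
  obtain ⟨e, he⟩ : ∃ e, e = min (ε / 16) ((1 - d) / 8) := ⟨_, rfl⟩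
  have he0 : 0 < e := by rw [he]; exact lt_min (by positivity) (by linarith)
  have heε : e ≤ ε / 16 := by rw [he]; exact min_le_left _ _
  have hed : e ≤ (1 - d) / 8 := by rw [he]; exact min_le_right _ _
  have he1 : e ≤ 1 / 8 := by linarith
  obtain ⟨C1, X1, hC1, h1⟩ := excess e he0 2
  obtain ⟨X2, h2⟩ := pnt_two (e ^ 2) (by positivity) (by nlinarith)
  obtain ⟨lam, hlam⟩ : ∃ lam : ℝ, lam = C1 / e := ⟨_, rfl⟩
  have hlam0 : 0 < lam := by rw [hlam]; positivity
  have hlamε : C1 = e * lam := by rw [hlam]; field_simp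
  have ev1 := eventually_log_pow 2 ((lam + 1) / e) (by positivity)
  have ev2 := ev_log_ge (lam + 1)
  obtain ⟨X3, hX3⟩ := Filter.eventually_atTop.1 (ev1.and ev2)
  obtain ⟨C, hC⟩ : ∃ C : ℝ, C = (lam + 1) / e + 1 := ⟨_, rfl⟩
  have hCc : 1 ≤ C := by
    have : 0 ≤ (lam + 1) / e := by positivity
    linarith
  refine ⟨C, max (max X1 X2) (max X3 1), hCc, ?_⟩
  intro X hX Q hQ
  have hX1 : X1 ≤ X := le_trans (le_trans (le_max_left _ _) (le_max_left _ _)) hX
  have hX2 : X2 ≤ X := le_trans (le_trans (le_max_right _ _) (le_max_left _ _)) hX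
  have hX3' : X3 ≤ X := le_trans (le_trans (le_max_left _ _) (le_max_right _ _)) hX
  have hX0 : 1 ≤ X := le_trans (le_trans (le_max_right _ _) (le_max_right _ _)) hX
  obtain ⟨hlog1, hlog2⟩ := hX3 X hX3'
  obtain ⟨hp1, hp2⟩ := h2 X hX2
  have h3 := h1 X hX1
  unfold exc at h3
  obtain ⟨L, hL⟩ : ∃ L, L = Real.log X := ⟨_, rfl⟩
  rw [← hL] at hlog1 hlog2 hp1 hp2 h3 hQ ⊢
  have hL1 : 1 ≤ L := by linarith
  have hL0 : 0 < L := by linarith
  have hXr : (0 : ℝ) < X := by exact_mod_cast hX0
  obtain ⟨H, hH⟩ : ∃ H : ℕ, H = ⌈lam * L⌉₊ := ⟨_, rfl⟩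
  have hH1 : 1 ≤ H := by rw [hH]; exact Nat.ceil_pos.2 (by positivity)
  have hHr : (0 : ℝ) < H := by exact_mod_cast hH1
  have hHlow : lam * L ≤ H := by rw [hH]; exact Nat.le_ceil _
  have hHup : (H : ℝ) ≤ (lam + 1) * L := by
    have h4 : (H : ℝ) < lam * L + 1 := by rw [hH]; exact Nat.ceil_lt_add_one (by positivity)
    linarith
  have hHL2 : (H : ℝ) ≤ L ^ 2 := by
    calc (H : ℝ) ≤ (lam + 1) * L := hHup
      _ ≤ L * L := mul_le_mul_of_nonneg_right hlog2 hL0.le
      _ = L ^ 2 := by ring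
  have hexc : ∑ z ∈ range X, max 0 ((prIn z (z + H) : ℝ) * L / H - (4 + e)) ≤ e * X := by
    have h4 : ∑ z ∈ range X, max 0 ((prIn z (z + H) : ℝ) * L / H - (4 + e)) ≤
        ∑ z ∈ range (4 * X), max 0 ((prIn z (z + H) : ℝ) * L / H - (4 + e)) := by
      apply sum_le_sum_of_subset_of_nonneg
      · intro z hz
        rw [mem_range] at hz ⊢
        omega
      · intro k _ _
        exact le_max_left _ _
    refine h4.trans ((h3 H hH1 hHL2).trans ?_)
    rw [div_le_iff₀ hHr, hlamε]
    have h5 : e * X * (lam * L) ≤ e * X * H := mul_le_mul_of_nonneg_left hHlow (by positivity)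
    linarith
  have hHL : (H : ℝ) * L ≤ e * X := by
    have h4 : (H : ℝ) * L ≤ (lam + 1) * L * L := mul_le_mul_of_nonneg_right hHup hL0.le
    have h5 : e * ((lam + 1) / e * L ^ 2) ≤ e * X :=
      mul_le_mul_of_nonneg_left hlog1 he0.le
    have h6 : e * ((lam + 1) / e * L ^ 2) = (lam + 1) * L * L := by
      field_simp
    linarith
  obtain ⟨R, hR⟩ : ∃ R : ℕ, R = ⌊e * X⌋₊ := ⟨_, rfl⟩
  have hRX : (R : ℝ) ≤ e * X := by rw [hR]; exact Nat.floor_le (by positivity)
  obtain ⟨d1, hd1⟩ : ∃ d1, d1 = d / (1 - e) := ⟨_, rfl⟩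
  have h1e : 0 < 1 - e := by linarith
  have hd10 : 0 < d1 := by rw [hd1]; positivity
  have hd1u : d1 ≤ d + 2 * e := by
    rw [hd1, div_le_iff₀ h1e]
    nlinarith
  have hd1d : d1 * (1 - e) = d := by rw [hd1]; field_simp
  have hcore := one_core X H R L e d1 e Q (4 + e) hH1 hL0 hd10 he0 (by linarith) (by
      have h4 : e * (C * L) ≤ e * Q := mul_le_mul_of_nonneg_left hQ he0.le
      refine le_trans ?_ h4
      have h5 : e * (C * L) = (lam + 1) * L + e * L := by
        rw [hC]
        field_simp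
      rw [h5]
      have : 0 ≤ e * L := by positivity
      linarith) (by linarith) (by
      have h4 := hp1 X (by omega)
      have h5 : e ^ 2 * X ≤ e * X := mul_le_mul_of_nonneg_right (by nlinarith) hXr.le
      linarith) (by
      intro u v hu huv hvX
      have h4 := hp1 v (by omega)
      have h5 := hp2 u hu.le
      have h6 : (prIn 0 v : ℝ) = prIn 0 u + prIn u v := by
        exact_mod_cast prIn_split (Nat.zero_le u) (by omega)
      rw [h6] at h4
      have h7 : (e * X : ℝ) < (v : ℝ) - u := by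
        have h5 : e * X < R + 1 := by rw [hR]; exact Nat.lt_floor_add_one _
        have h6 : ((u + R + 1 : ℕ) : ℝ) ≤ v := by exact_mod_cast huv
        push_cast at h6
        linarith
      -- `(1 - d1) (v - u) ≥ 6 e (e X) ≥ 2 e ^ 2 X`
      have h8 : 6 * e * (e * X) ≤ (1 - d1) * ((v : ℝ) - u) :=
        mul_le_mul (by linarith) h7.le (by positivity) (by linarith)
      have h9 : 0 ≤ e ^ 2 * X := by positivity
      have h10 : 6 * e * (e * X) = 6 * (e ^ 2 * X) := by ring
      linarith) hexc hHL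
  rw [hd1d] at hcore
  set g : ℝ := (((range X).filter (fun y => ∀ v : ℕ, y ≤ v →
      Q ≤ (v : ℝ) - y → v ≤ y + X → d * ((v : ℝ) - y) / L ≤ prIn y v)).card : ℝ) with hg
  have hg0 : 0 ≤ g := Nat.cast_nonneg _
  have h4 : d1 * (X + R) ≤ (d + 4 * e) * X := by
    calc d1 * (X + R) ≤ d1 * (X + e * X) := by
          apply mul_le_mul_of_nonneg_left _ hd10.le
          linarith
      _ = d1 * (1 + e) * X := by ring
      _ ≤ (d + 4 * e) * X := by
          apply mul_le_mul_of_nonneg_right _ hXr.le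
          nlinarith
  have h5 : (1 - d - 7 * e) * X ≤ (4 + e) * g := by linarith
  have h6 : (4 + e) * (((1 - d) / 4 - ε) * X) ≤ (4 + e) * g := by
    refine le_trans ?_ h5
    have h7 : (4 + e) * ((1 - d) / 4 - ε) ≤ 1 - d - 7 * e := by
      have a1 : e * (1 - d) ≤ e := mul_le_of_le_one_right he0.le (by linarith)
      have a2 : 0 ≤ e * ε := by positivity
      have a3 : (4 + e) * ((1 - d) / 4 - ε) = (1 - d) - 4 * ε + e * (1 - d) / 4 - e * ε := by ring
      rw [a3]
      linarith
    calc (4 + e) * (((1 - d) / 4 - ε) * X) = (4 + e) * ((1 - d) / 4 - ε) * X := by ring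
      _ ≤ _ := mul_le_mul_of_nonneg_right h7 hXr.le
  exact le_of_mul_le_mul_left h6 (by linarith)

end Pool.Agent.H.MP_711652_nt.SH
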