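import Mathlib
import Pool.Agent.H.MP_711652_nt.SH.Qs

set_option autoImplicit false

namespace Pool.Agent.H.MP_711652_nt.SH

open Finset Classical Pool.Agent.H.MP_711652_nt.QW

/-- The primes around which the primes are too sparse, at one `X`. -/
lemma prime_low_core (X R : ℕ) (L d η θ Q : ℝ) (hL : 0 < L) (hd : 0 ≤ d) (hη : 0 < η)
    (hη2 : η ≤ 1 / 2) (hQ0 : 0 < Q) (hθ : d / (1 - η) + L / (η * Q) ≤ θ) (B : Finset ℕ)
    (hB : ∀ p ∈ B, p.Prime ∧ p < X ∧ ∃ u v : ℕ, u ≤ p - 1 ∧ p - 1 ≤ v ∧ Q ≤ (v : ℝ) - u ∧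
      v ≤ u + R ∧ (prIn u v : ℝ) * L < d * ((v : ℝ) - u)) :
    (B.card : ℝ) * L ≤ θ * (2 * X + R) := by
  have hθ0 : 0 ≤ θ := by
    have h1η : 0 < 1 - η := by linarith
    exact le_trans (by positivity) hθ
  have hμ := fun z => qmu_nonneg hL.le z
  set P1 : ℕ → Prop := fun y => ∃ r, 1 ≤ r ∧ r ≤ R ∧ ∑ i ∈ range r, qmu L (y + i) ≤ θ * r with hP1
  set P2 : ℕ → Prop := fun y => ∃ r, 1 ≤ r ∧ r ≤ y + 1 ∧
    ∑ i ∈ range r, qmu L (y - i) ≤ θ * r with hP2
  have hS1 := rise_right (qmu L) hμ θ hθ0 X R ((range X).filter P1)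
    (fun k hk => mem_range.1 (mem_filter.1 hk).1) (fun k hk => (mem_filter.1 hk).2)
  have hS2 := rise_left (qmu L) hμ θ hθ0 X ((range X).filter P2)
    (fun k hk => mem_range.1 (mem_filter.1 hk).1) (fun k hk => (mem_filter.1 hk).2)
  have h1 : (B.card : ℝ) * L = ∑ z ∈ B.image (fun p => p - 1), qmu L z := by
    rw [sum_image]
    · have h2 : ∀ p ∈ B, qmu L (p - 1) = L := by
        intro p hp
        have hpp := (hB p hp).1
        have h3 : p - 1 + 1 = p := Nat.sub_add_cancel hpp.one_lt.le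
        unfold qmu
        rw [h3, if_pos hpp]
      rw [sum_congr rfl h2, sum_const, nsmul_eq_mul]
    · intro p hp q hq hpq
      have h3 := (hB p hp).1.two_le
      have h4 := (hB q hq).1.two_le
      simp only at hpq
      omega
  have hcov : B.image (fun p => p - 1) ⊆ (range X).filter P1 ∪ (range X).filter P2 := by
    intro z hz
    obtain ⟨p, hp, rfl⟩ := mem_image.1 hz
    obtain ⟨hpp, hpX, u, v, h2, h3, h4, h5, h6⟩ := hB p hp
    have hzX : p - 1 ∈ range X := mem_range.2 (by omega)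
    rw [mem_union, mem_filter, mem_filter]
    rcases sparse_side L d η θ Q R (p - 1) u v hL hd hη hη2 hQ0 hθ h2 h3 h4 h5 h6 with h | h
    · exact Or.inl ⟨hzX, h⟩
    · exact Or.inr ⟨hzX, h⟩
  have hun : ∀ S T : Finset ℕ, ∑ k ∈ S ∪ T, qmu L k ≤ ∑ k ∈ S, qmu L k + ∑ k ∈ T, qmu L k := by
    intro S T
    have h5 := sum_union_inter (s₁ := S) (s₂ := T) (f := qmu L)
    have h6 : 0 ≤ ∑ k ∈ S ∩ T, qmu L k := sum_nonneg fun k _ => hμ k
    linarith
  rw [h1]
  calc ∑ z ∈ B.image (fun p => p - 1), qmu L z ≤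
      ∑ z ∈ (range X).filter P1 ∪ (range X).filter P2, qmu L z :=
        sum_le_sum_of_subset_of_nonneg hcov fun k _ _ => hμ k
    _ ≤ θ * (X + R) + θ * X := (hun _ _).trans (add_le_add hS1 hS2)
    _ = _ := by ring

/-- Almost all primes: the lower bound. -/
theorem prime_low (d ε : ℝ) (hd : 0 < d) (hd2 : d < 1 / 2) (hε : 0 < ε) :
    ∃ (C : ℝ) (X₀ : ℕ), 1 ≤ C ∧ ∀ X : ℕ, X₀ ≤ X →
    (((range X).filter (fun p => p.Prime ∧ ∃ u v : ℕ, u ≤ p ∧ p ≤ v ∧
      C * Real.log X ≤ (v : ℝ) - u ∧ v ≤ u + X ∧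
      (prIn u v : ℝ) * Real.log X < d * ((v : ℝ) - u))).card : ℝ) ≤
      (2 * d + ε) * X / Real.log X := by
  obtain ⟨e, he⟩ : ∃ e, e = min ε 1 / 16 := ⟨_, rfl⟩
  have he0 : 0 < e := by
    rw [he]
    have : 0 < min ε 1 := lt_min hε one_pos
    positivity
  have he1 : e ≤ 1 / 16 := by
    rw [he]
    have : min ε 1 ≤ 1 := min_le_right _ _
    linarith
  have heε : 16 * e ≤ ε := by
    rw [he]
    have : min ε 1 ≤ ε := min_le_left _ _
    linarith
  obtain ⟨X1, h1⟩ := pnt_two (e / 8) (by positivity) (by linarith)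
  have ev2 := ev_log_ge 1
  obtain ⟨X2, hX2⟩ := Filter.eventually_atTop.1 ev2
  obtain ⟨C, hC⟩ : ∃ C : ℝ, C = 1 / e ^ 2 := ⟨_, rfl⟩
  have hC1 : 1 ≤ C := by
    rw [hC, le_div_iff₀ (by positivity)]
    nlinarith
  refine ⟨C, max (max X1 X2) ⌈1 / e⌉₊, hC1, ?_⟩
  intro X hX
  have hXa : X1 ≤ X := le_trans (le_trans (le_max_left _ _) (le_max_left _ _)) hX
  have hXb : X2 ≤ X := le_trans (le_trans (le_max_right _ _) (le_max_left _ _)) hX
  have hXc : 1 / e ≤ X := (Nat.le_ceil _).trans (by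
    exact_mod_cast le_trans (le_max_right _ _) hX)
  have hX0 : (0 : ℝ) < X := lt_of_lt_of_le (by positivity) hXc
  have heX : 1 ≤ e * X := by
    rw [div_le_iff₀ he0] at hXc
    linarith
  obtain ⟨hlow, hupp⟩ := h1 X hXa
  have hL1 := hX2 X hXb
  obtain ⟨L, hL⟩ : ∃ L, L = Real.log X := ⟨_, rfl⟩
  rw [← hL] at hlow hupp hL1 ⊢
  have hL0 : 0 < L := by linarith
  obtain ⟨R, hR⟩ : ∃ R : ℕ, R = ⌊e * X⌋₊ := ⟨_, rfl⟩
  have hRX : (R : ℝ) ≤ e * X := by rw [hR]; exact Nat.floor_le (by positivity)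
  have hQ0 : 0 < C * L := by positivity
  have hLQ : L = e * (e * (C * L)) := by
    rw [hC]
    field_simp
  set B := (range X).filter (fun p => p.Prime ∧ ∃ u v : ℕ, u ≤ p ∧ p ≤ v ∧
      C * L ≤ (v : ℝ) - u ∧ v ≤ u + X ∧
      (prIn u v : ℝ) * L < d * ((v : ℝ) - u)) with hB
  have hlong : ∀ u v : ℕ, u < X → u + R < v → v ≤ u + X → d * ((v : ℝ) - u) ≤ prIn u v * L := by
    intro u v hu huv hvX
    have h1 := hlow v (by omega)
    have h2 := hupp u hu.le
    have h3 : (prIn 0 v : ℝ) = prIn 0 u + prIn u v := by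
      exact_mod_cast prIn_split (Nat.zero_le u) (by omega)
    rw [h3] at h1
    have h4 : (e * X : ℝ) < (v : ℝ) - u := by
      have h5 : e * X < R + 1 := by rw [hR]; exact Nat.lt_floor_add_one _
      have h6 : ((u + R + 1 : ℕ) : ℝ) ≤ v := by exact_mod_cast huv
      push_cast at h6
      linarith
    have h6 : d * ((v : ℝ) - u) ≤ 1 / 2 * ((v : ℝ) - u) :=
      mul_le_mul_of_nonneg_right hd2.le (by nlinarith)
    have h7 : (0 : ℝ) ≤ e * X := by positivity
    linarith
  have hcore := prime_low_core X (R + 1) L (d + e) e ((d + e) / (1 - e) + e) (C * L) hL0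
    (by linarith) he0 (by linarith) hQ0 (by
      have h2 : L / (e * (C * L)) = e := by
        rw [div_eq_iff (by positivity)]
        exact hLQ
      rw [h2]) B (by
      intro p hp
      rw [hB, mem_filter, mem_range] at hp
      obtain ⟨hpX, hpp, u, v, h2, h3, h4, h5, h6⟩ := hp
      have hp2 := hpp.two_le
      have h7 : v ≤ u + R := by
        by_contra h8
        have h9 := hlong u v (by omega) (by omega) h5
        linarith
      refine ⟨hpp, hpX, min u (p - 1), v, min_le_right _ _, by omega, ?_, ?_, ?_⟩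
      · have h8 : ((min u (p - 1) : ℕ) : ℝ) ≤ u := by exact_mod_cast min_le_left u (p - 1)
        linarith
      · omega
      · have h8 : ((min u (p - 1) : ℕ) : ℝ) ≤ u := by exact_mod_cast min_le_left u (p - 1)
        have h9 : prIn (min u (p - 1)) v ≤ prIn u v + 1 := by
          rw [prIn_split (min_le_left u (p - 1)) (show u ≤ v by omega), add_comm]
          apply Nat.add_le_add_left
          exact (prIn_le _ _).trans (by omega)
        have h10 : (prIn (min u (p - 1)) v : ℝ) ≤ prIn u v + 1 := by exact_mod_cast h9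
        have h11 : (prIn (min u (p - 1)) v : ℝ) * L ≤ (prIn u v + 1) * L :=
          mul_le_mul_of_nonneg_right h10 hL0.le
        have h12 : d * ((v : ℝ) - u) ≤ d * ((v : ℝ) - (min u (p - 1) : ℕ)) :=
          mul_le_mul_of_nonneg_left (by linarith) hd.le
        have h13 : L ≤ e * ((v : ℝ) - (min u (p - 1) : ℕ)) := by
          rw [hLQ]
          apply mul_le_mul_of_nonneg_left _ he0.le
          have h14 : e * (C * L) ≤ 1 * (C * L) :=
            mul_le_mul_of_nonneg_right (by linarith) hQ0.le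
          linarith
        linarith)
  rw [le_div_iff₀ hL0]
  refine hcore.trans ?_
  push_cast
  have h2 : (d + e) / (1 - e) ≤ (d + e) * (1 + 2 * e) := by
    rw [div_le_iff₀ (by linarith)]
    have h3 : 1 ≤ (1 + 2 * e) * (1 - e) := by nlinarith
    calc (d + e) = (d + e) * 1 := (mul_one _).symm
      _ ≤ (d + e) * ((1 + 2 * e) * (1 - e)) := mul_le_mul_of_nonneg_left h3 (by linarith)
      _ = _ := by ring
  have h3 : 2 * (X : ℝ) + (R + 1) ≤ (2 + 2 * e) * X := by linarith
  have h4 : (0 : ℝ) ≤ (d + e) * (1 + 2 * e) + e := by positivity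
  calc ((d + e) / (1 - e) + e) * (2 * X + (R + 1)) ≤
      ((d + e) * (1 + 2 * e) + e) * ((2 + 2 * e) * X) := by
        apply mul_le_mul (by linarith) h3 (by positivity) h4
    _ = (((d + e) * (1 + 2 * e) + e) * (2 + 2 * e)) * X := by ring
    _ ≤ (2 * d + ε) * X := by
        apply mul_le_mul_of_nonneg_right _ hX0.le
        nlinarith [mul_pos he0 he0, mul_pos hd he0, mul_pos (mul_pos hd he0) he0,
          mul_pos (mul_pos he0 he0) he0]

/-- Almost all primes: the upper bound. -/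
theorem prime_up (ε : ℝ) (hε : 0 < ε) :
    ∃ (C : ℝ) (X₀ : ℕ), 1 ≤ C ∧ ∀ X : ℕ, X₀ ≤ X →
    (((range X).filter (fun p => p.Prime ∧ ∃ u v : ℕ, u ≤ p ∧ p ≤ v ∧
      C * Real.log X ≤ (v : ℝ) - u ∧ v ≤ u + X ∧
      (4 + ε) * ((v : ℝ) - u) < (prIn u v : ℝ) * Real.log X)).card : ℝ) ≤
      ε * X / Real.log X := by
  obtain ⟨e, he⟩ : ∃ e, e = min ε 1 := ⟨_, rfl⟩
  have he0 : 0 < e := by rw [he]; exact lt_min hε one_pos
  have he1 : e ≤ 1 := by rw [he]; exact min_le_right _ _
  have heε : e ≤ ε := by rw [he]; exact min_le_left _ _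
  obtain ⟨C1, X1, hC1, h1⟩ := bt_sharp (e / 2) (by positivity) 2
  obtain ⟨C2, X2, hC2, h2⟩ := excess 1 one_pos 2
  obtain ⟨lam, hlam⟩ : ∃ lam : ℝ, lam = 2 * (5 * C1 + C2) / e + 1 := ⟨_, rfl⟩
  have hlam1 : 1 ≤ lam := by
    have : 0 ≤ 2 * (5 * C1 + C2) / e := by positivity
    linarith
  have ev1 := ev_log_pow_rpow 4 (1 / 2) (by norm_num)
  have ev2 := ev_log_ge (100 * (lam + 1) / e + 100)
  obtain ⟨X3, hX3⟩ := Filter.eventually_atTop.1 (ev1.and ev2)
  refine ⟨(16 / e + 1) * (lam + 1), max (max X1 X2) (max X3 100), ?_, ?_⟩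
  · have h3 : 0 ≤ 16 / e := by positivity
    nlinarith
  intro X hX
  have hXa : X1 ≤ X := le_trans (le_trans (le_max_left _ _) (le_max_left _ _)) hX
  have hXb : X2 ≤ X := le_trans (le_trans (le_max_right _ _) (le_max_left _ _)) hX
  have hXc : X3 ≤ X := le_trans (le_trans (le_max_left _ _) (le_max_right _ _)) hX
  have hXd : 100 ≤ X := le_trans (le_trans (le_max_right _ _) (le_max_right _ _)) hX
  obtain ⟨hsq, hlog⟩ := hX3 X hXc
  have hbt := h1 X hXa
  have hex := h2 X hXb
  unfold exc at hex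
  obtain ⟨L, hL⟩ : ∃ L, L = Real.log X := ⟨_, rfl⟩
  rw [← hL] at hsq hlog hbt hex ⊢
  have hXr : (100 : ℝ) ≤ X := by exact_mod_cast hXd
  have hX0 : (0 : ℝ) < X := by linarith
  have h3 : 0 ≤ 100 * (lam + 1) / e := by positivity
  have hL100 : 100 ≤ L := by linarith
  have hL0 : 0 < L := by linarith
  have heL : 100 * (lam + 1) ≤ e * L := by
    have h4 : 100 * (lam + 1) / e ≤ L := by linarith
    rw [div_le_iff₀ he0] at h4
    linarith
  -- `L ^ 4 ≤ √X`
  have hXL : (L : ℝ) ^ 8 ≤ (X : ℝ) := by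
    have h4 : (L ^ 4) ^ 2 ≤ ((X : ℝ) ^ (1 / 2 : ℝ)) ^ 2 := pow_le_pow_left₀ (by positivity) hsq 2
    have h5 : ((X : ℝ) ^ (1 / 2 : ℝ)) ^ 2 = X := by
      rw [← Real.sqrt_eq_rpow, Real.sq_sqrt hX0.le]
    rw [h5] at h4
    calc (L : ℝ) ^ 8 = (L ^ 4) ^ 2 := by ring
      _ ≤ (X : ℝ) := h4
  have hXL4 : L ^ 4 ≤ X := (pow_le_pow_right₀ (by linarith) (by norm_num)).trans hXL
  obtain ⟨H, hH⟩ : ∃ H : ℕ, H = ⌈lam * L⌉₊ := ⟨_, rfl⟩
  have hH1 : 1 ≤ H := by rw [hH]; exact Nat.ceil_pos.2 (by positivity)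
  have hHr : (0 : ℝ) < H := by exact_mod_cast hH1
  have hHlow : lam * L ≤ H := by rw [hH]; exact Nat.le_ceil _
  have hHup : (H : ℝ) ≤ (lam + 1) * L := by
    have h4 : (H : ℝ) < lam * L + 1 := by rw [hH]; exact Nat.ceil_lt_add_one (by positivity)
    linarith
  have hlamL : lam + 1 ≤ L := by nlinarith
  have hHL2 : (H : ℝ) ≤ L ^ 2 := by
    calc (H : ℝ) ≤ (lam + 1) * L := hHup
      _ ≤ L * L := mul_le_mul_of_nonneg_right hlamL hL0.le
      _ = L ^ 2 := by ring
  obtain ⟨E, hE, hE2⟩ := hbt H (by nlinarith) hHL2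
  have hex2 := hex H hH1 hHL2
  set B := (range X).filter (fun p => p.Prime ∧ ∃ u v : ℕ, u ≤ p ∧ p ≤ v ∧
      (16 / e + 1) * (lam + 1) * L ≤ (v : ℝ) - u ∧ v ≤ u + X ∧
      (4 + ε) * ((v : ℝ) - u) < (prIn u v : ℝ) * L) with hB
  -- the windows before a bad prime are exceptional
  have hwin : ∀ p ∈ B, ∀ i < H, i < p → p - 1 - i ∈ E := by
    intro p hp i hi hip
    rw [hB, mem_filter, mem_range] at hp
    obtain ⟨hpX, hpp, u, v, g2, g3, g4, g5, g6⟩ := hp
    by_contra hE3
    obtain ⟨w, hw⟩ : ∃ w, w = p - 1 - i := ⟨_, rfl⟩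
    rw [← hw] at hE3
    have hwX : w < X := by omega
    have hHX : H ≤ X := by
      have : (H : ℝ) ≤ X := by
        refine hHL2.trans (le_trans ?_ hXL4)
        exact pow_le_pow_right₀ (by linarith) (by norm_num)
      exact_mod_cast this
    obtain ⟨u', hu'⟩ : ∃ u', u' = min u w := ⟨_, rfl⟩
    obtain ⟨v', hv'⟩ : ∃ v', v' = min v (u' + X) := ⟨_, rfl⟩
    have g7 : u' ≤ w := by omega
    have g8 : w ≤ v' := by omega
    have g9 : u' ≤ u := by omega
    have g10 : u ≤ u' + H := by omega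
    have g11 : v ≤ v' + H := by omega
    have g12 : v' ≤ v := by omega
    have guv' : u ≤ v := by omega
    have g12' : v' ≤ u' + X := by omega
    have guv : (u : ℝ) ≤ v := by exact_mod_cast guv'
    have hWH : (16 / e + 1) * H ≤ (v : ℝ) - u := by
      calc (16 / e + 1) * H ≤ (16 / e + 1) * ((lam + 1) * L) :=
            mul_le_mul_of_nonneg_left hHup (by positivity)
        _ = (16 / e + 1) * (lam + 1) * L := by ring
        _ ≤ _ := g4
    have h16 : 0 ≤ 16 / e * (H : ℝ) := by positivity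
    have hWe : 16 * (H : ℝ) ≤ e * ((v : ℝ) - u) := by
      have h5 : 16 / e * (H : ℝ) ≤ (v : ℝ) - u := by linarith
      have h6 : e * (16 / e * (H : ℝ)) ≤ e * ((v : ℝ) - u) := mul_le_mul_of_nonneg_left h5 he0.le
      have h7 : e * (16 / e * (H : ℝ)) = 16 * H := by field_simp
      linarith
    have g9r : (u' : ℝ) ≤ u := by exact_mod_cast g9
    have g10r : (u : ℝ) ≤ u' + H := by exact_mod_cast g10
    have g11r : (v : ℝ) ≤ v' + H := by exact_mod_cast g11
    have g12r : (v' : ℝ) ≤ v := by exact_mod_cast g12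
    have hlen : (H : ℝ) ≤ (v' : ℝ) - u' := by
      by_cases h5 : v ≤ u' + X
      · have h6 : v' = v := by omega
        rw [h6]
        linarith
      · have h6 : v' = u' + X := by omega
        have h7 : (H : ℝ) ≤ X := by exact_mod_cast hHX
        rw [h6]
        push_cast
        linarith
    have hfin := hE2 w hwX hE3 u' v' g7 g8 hlen g12'
    rw [le_div_iff₀ hL0] at hfin
    -- compare
    have hpr : (prIn u v : ℝ) * L ≤ (prIn u' v' : ℝ) * L + (v - v') * L := by
      have h5 : prIn u v ≤ prIn u' v' + (v - v') := by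
        by_cases h6 : u' ≤ v'
        · calc prIn u v ≤ prIn u' v := prIn_mono g9 le_rfl
            _ = prIn u' v' + prIn v' v := prIn_split h6 g12
            _ ≤ prIn u' v' + (v - v') := Nat.add_le_add_left (prIn_le _ _) _
        · exact absurd (g7.trans g8) h6
      have h6 : (prIn u v : ℝ) ≤ prIn u' v' + (v - v') := by
        have : ((prIn u v : ℕ) : ℝ) ≤ ((prIn u' v' + (v - v') : ℕ) : ℝ) := by exact_mod_cast h5
        rw [Nat.cast_add, Nat.cast_sub g12] at this
        exact this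
      have h7 := mul_le_mul_of_nonneg_right h6 hL0.le
      linarith
    -- the cut part is small
    have hcut : ((v : ℝ) - v') * L ≤ e / 8 * ((v : ℝ) - u) := by
      by_cases h5 : v ≤ u' + X
      · have h6 : v' = v := by omega
        rw [h6, sub_self, zero_mul]
        apply mul_nonneg (by positivity)
        linarith
      · have h6 : v' = u' + X := by omega
        have h7 : (v : ℝ) - v' ≤ H := by linarith
        have h8 : (X : ℝ) - H ≤ (v : ℝ) - u := by
          have h9 : (u' : ℝ) + X ≤ v := by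
            have : u' + X ≤ v := by omega
            exact_mod_cast this
          linarith
        have h9 : ((v : ℝ) - v') * L ≤ H * L := mul_le_mul_of_nonneg_right h7 hL0.le
        have h10 : (H : ℝ) * L ≤ L ^ 3 := by
          calc (H : ℝ) * L ≤ L ^ 2 * L := mul_le_mul_of_nonneg_right hHL2 hL0.le
            _ = L ^ 3 := by ring
        have h11 : 8 * L ^ 3 ≤ e * (X - H) := by
          have h12 : (H : ℝ) ≤ 1 / 2 * X := by
            have h13 : L ^ 2 * 2 ≤ L ^ 2 * L ^ 2 := by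
              apply mul_le_mul_of_nonneg_left _ (by positivity)
              nlinarith
            have h14 : L ^ 2 * L ^ 2 = L ^ 4 := by ring
            linarith
          have h13 : 100 ≤ e * L := by nlinarith
          have h14 : 16 * L ^ 3 ≤ e * X := by
            calc 16 * L ^ 3 ≤ (e * L) * L ^ 3 :=
                  mul_le_mul_of_nonneg_right (by linarith) (by positivity)
              _ = e * L ^ 4 := by ring
              _ ≤ e * X := mul_le_mul_of_nonneg_left hXL4 he0.le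
          have h15 : e * H ≤ e * (1 / 2 * X) := mul_le_mul_of_nonneg_left h12 he0.le
          linarith
        have h12 : e * (X - H) ≤ e * ((v : ℝ) - u) := mul_le_mul_of_nonneg_left h8 he0.le
        linarith
    have h5 : (4 + e / 2) * ((v' : ℝ) - u') ≤ (4 + e / 2) * (((v : ℝ) - u) + H) := by
      apply mul_le_mul_of_nonneg_left _ (by linarith)
      linarith
    have h6 : (4 + e / 2) * (((v : ℝ) - u) + H) ≤ (4 + e / 2) * ((v : ℝ) - u) + 5 * H := by
      nlinarith
    have h7 : (4 + e) * ((v : ℝ) - u) ≤ (4 + ε) * ((v : ℝ) - u) :=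
      mul_le_mul_of_nonneg_right (by linarith) (by linarith)
    have h8 : 5 * (H : ℝ) ≤ 5 / 16 * (e * ((v : ℝ) - u)) := by linarith
    have h9 : 0 < e * ((v : ℝ) - u) := by
      have : 0 < 16 * (H : ℝ) := by positivity
      linarith
    linarith
  -- counting
  have hcount : (H : ℝ) * ((B.filter (fun p => H ≤ p)).card : ℝ) ≤
      ∑ w ∈ E ∩ range X, (prIn w (w + H) : ℝ) := by
    have h5 : ∀ i ∈ range H, (B.filter (fun p => H ≤ p)).card ≤
        ∑ w ∈ E ∩ range X, if (w + 1 + i).Prime then 1 else 0 := by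
      intro i hi
      rw [mem_range] at hi
      rw [← card_filter]
      apply card_le_card_of_injOn (fun p => p - 1 - i)
      · intro p hp
        rw [mem_coe, mem_filter] at hp
        have h6 := hwin p hp.1 i hi (by omega)
        have h7 := hp.1
        rw [hB, mem_filter, mem_range] at h7
        rw [mem_coe, mem_filter, mem_inter, mem_range]
        refine ⟨⟨h6, by show p - 1 - i < X; omega⟩, ?_⟩
        have h8 : p - 1 - i + 1 + i = p := by omega
        rw [h8]
        exact h7.2.1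
      · intro p hp q hq hpq
        rw [mem_coe, mem_filter] at hp hq
        simp only at hpq
        omega
    have h6 := sum_le_sum h5
    rw [sum_const, card_range, smul_eq_mul, sum_comm] at h6
    have h7 : ∑ w ∈ E ∩ range X, ∑ i ∈ range H, (if (w + 1 + i).Prime then 1 else 0) =
        ∑ w ∈ E ∩ range X, prIn w (w + H) := by
      apply sum_congr rfl
      intro w _
      rw [prIn_eq_sum]
    rw [h7] at h6
    exact_mod_cast h6
  have hsum : ∑ w ∈ E ∩ range X, (prIn w (w + H) : ℝ) ≤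
      H / L * (5 * E.card + C2 * X * L / H) := by
    calc ∑ w ∈ E ∩ range X, (prIn w (w + H) : ℝ) ≤
        ∑ w ∈ E ∩ range X, H / L * (5 + max 0 ((prIn w (w + H) : ℝ) * L / H - (4 + 1))) := by
          apply sum_le_sum
          intro w _
          have h5 := le_max_right 0 ((prIn w (w + H) : ℝ) * L / H - (4 + 1))
          have h6 : (prIn w (w + H) : ℝ) = H / L * ((prIn w (w + H) : ℝ) * L / H) := by
            field_simp
          calc (prIn w (w + H) : ℝ) = H / L * ((prIn w (w + H) : ℝ) * L / H) := h6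
            _ ≤ _ := mul_le_mul_of_nonneg_left (by linarith) (by positivity)
      _ = H / L * (5 * (E ∩ range X).card +
          ∑ w ∈ E ∩ range X, max 0 ((prIn w (w + H) : ℝ) * L / H - (4 + 1))) := by
          rw [← mul_sum, sum_add_distrib, sum_const, nsmul_eq_mul]
          ring
      _ ≤ H / L * (5 * E.card + C2 * X * L / H) := by
          apply mul_le_mul_of_nonneg_left _ (by positivity)
          apply add_le_add
          · apply mul_le_mul_of_nonneg_left _ (by norm_num)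
            exact_mod_cast card_le_card inter_subset_left
          · refine le_trans ?_ hex2
            apply sum_le_sum_of_subset_of_nonneg
            · intro w hw
              rw [mem_inter, mem_range] at hw
              rw [mem_range]
              omega
            · intro w _ _
              exact le_max_left _ _
  have hBsmall : ((B.filter (fun p => ¬ H ≤ p)).card : ℝ) ≤ H := by
    have h5 : (B.filter (fun p => ¬ H ≤ p)) ⊆ range H := by
      intro p hp
      rw [mem_filter, not_le] at hp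
      exact mem_range.2 hp.2
    have h6 := card_le_card h5
    rw [card_range] at h6
    exact_mod_cast h6
  have hBbig : ((B.filter (fun p => H ≤ p)).card : ℝ) ≤ (5 * C1 + C2) * X / H := by
    have h5 : (H : ℝ) * ((B.filter (fun p => H ≤ p)).card : ℝ) ≤
        H / L * (5 * (C1 * X * L / H) + C2 * X * L / H) := by
      refine (hcount.trans hsum).trans ?_
      apply mul_le_mul_of_nonneg_left _ (by positivity)
      linarith
    have h6 : H / L * (5 * (C1 * X * L / H) + C2 * X * L / H) =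
        H * ((5 * C1 + C2) * X / H) := by
      field_simp
    rw [h6] at h5
    exact le_of_mul_le_mul_left h5 hHr
  have hcard : (B.card : ℝ) = ((B.filter (fun p => H ≤ p)).card : ℝ) +
      ((B.filter (fun p => ¬ H ≤ p)).card : ℝ) := by
    exact_mod_cast (card_filter_add_card_filter_not (s := B) (fun p => H ≤ p)).symm
  rw [hcard]
  have h5 : (5 * C1 + C2) * X / H ≤ e / 2 * (X / L) := by
    rw [div_le_iff₀ hHr]
    have h6 : 5 * C1 + C2 ≤ e / 2 * lam := by
      rw [hlam]
      have h7 : e / 2 * (2 * (5 * C1 + C2) / e + 1) = 5 * C1 + C2 + e / 2 := by field_simp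
      rw [h7]
      linarith
    calc (5 * C1 + C2) * X ≤ e / 2 * lam * X := mul_le_mul_of_nonneg_right h6 hX0.le
      _ = e / 2 * (X / L) * (lam * L) := by field_simp
      _ ≤ e / 2 * (X / L) * H := mul_le_mul_of_nonneg_left hHlow (by positivity)
  have h6 : (H : ℝ) ≤ e / 2 * (X / L) := by
    have h7 : (H : ℝ) * (2 * L) ≤ e * X := by
      have h8 : 2 ≤ e * L := by nlinarith
      calc (H : ℝ) * (2 * L) ≤ L ^ 2 * (2 * L) := mul_le_mul_of_nonneg_right hHL2 (by positivity)
        _ = 2 * L ^ 3 := by ring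
        _ ≤ (e * L) * L ^ 3 := mul_le_mul_of_nonneg_right h8 (by positivity)
        _ = e * L ^ 4 := by ring
        _ ≤ e * X := mul_le_mul_of_nonneg_left hXL4 he0.le
    have h8 : e / 2 * (X / L) = e * X / (2 * L) := by ring
    rw [h8, le_div_iff₀ (by positivity)]
    exact h7
  calc ((B.filter (fun p => H ≤ p)).card : ℝ) + ((B.filter (fun p => ¬ H ≤ p)).card : ℝ) ≤
      e / 2 * (X / L) + e / 2 * (X / L) := add_le_add (hBbig.trans h5) (hBsmall.trans h6)
    _ = e * X / L := by ring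
    _ ≤ ε * X / L := by gcongr

/-- **Almost all primes, two-sided, at all scales from the mean gap on.** -/
theorem prime_sharp (d ε : ℝ) (hd : 0 < d) (hε : 0 < ε) : ∃ (C : ℝ) (X₀ : ℕ), 1 ≤ C ∧
    ∀ X : ℕ, X₀ ≤ X → (((range X).filter (fun p => p.Prime ∧ ¬ ∀ u v : ℕ, u ≤ p → p ≤ v →
      C * Real.log X ≤ (v : ℝ) - u → v ≤ u + X →
      d * ((v : ℝ) - u) / Real.log X ≤ prIn u v ∧
      (prIn u v : ℝ) ≤ (4 + ε) * ((v : ℝ) - u) / Real.log X)).card : ℝ) ≤
      (2 * d + ε) * X / Real.log X := by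
  by_cases hd2 : d < 1 / 2
  · obtain ⟨C1, X1, hC1, h1⟩ := prime_low d (ε / 2) hd hd2 (by positivity)
    obtain ⟨C2, X2, hC2, h2⟩ := prime_up (ε / 2) (by positivity)
    obtain ⟨X3, hX3⟩ := Filter.eventually_atTop.1 (ev_log_ge 1)
    refine ⟨max C1 C2, max (max X1 X2) X3, hC1.trans (le_max_left _ _), fun X hX => ?_⟩
    have g1 := h1 X (le_trans (le_trans (le_max_left _ _) (le_max_left _ _)) hX)
    have g2 := h2 X (le_trans (le_trans (le_max_right _ _) (le_max_left _ _)) hX)
    have g3 := hX3 X (le_trans (le_max_right _ _) hX)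
    obtain ⟨L, hL⟩ : ∃ L, L = Real.log X := ⟨_, rfl⟩
    rw [← hL] at g1 g2 g3 ⊢
    have hL0 : 0 < L := by linarith
    have hX0 : (0 : ℝ) ≤ X := Nat.cast_nonneg _
    set B := (range X).filter (fun p => p.Prime ∧ ¬ ∀ u v : ℕ, u ≤ p → p ≤ v →
      max C1 C2 * L ≤ (v : ℝ) - u → v ≤ u + X →
      d * ((v : ℝ) - u) / L ≤ prIn u v ∧
      (prIn u v : ℝ) ≤ (4 + ε) * ((v : ℝ) - u) / L) with hB
    set B1 := (range X).filter (fun p => p.Prime ∧ ∃ u v : ℕ, u ≤ p ∧ p ≤ v ∧
      C1 * L ≤ (v : ℝ) - u ∧ v ≤ u + X ∧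
      (prIn u v : ℝ) * L < d * ((v : ℝ) - u)) with hB1
    set B2 := (range X).filter (fun p => p.Prime ∧ ∃ u v : ℕ, u ≤ p ∧ p ≤ v ∧
      C2 * L ≤ (v : ℝ) - u ∧ v ≤ u + X ∧
      (4 + ε / 2) * ((v : ℝ) - u) < (prIn u v : ℝ) * L) with hB2
    have hsub : B ⊆ B1 ∪ B2 := by
      intro p hp
      rw [hB, mem_filter] at hp
      obtain ⟨hpX, hpp, hn⟩ := hp
      push Not at hn
      obtain ⟨u, v, g4, g5, g6, g7, g8⟩ := hn
      have g9 : C1 * L ≤ (v : ℝ) - u :=
        (mul_le_mul_of_nonneg_right (le_max_left C1 C2) hL0.le).trans g6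
      have g10 : C2 * L ≤ (v : ℝ) - u :=
        (mul_le_mul_of_nonneg_right (le_max_right C1 C2) hL0.le).trans g6
      rw [mem_union]
      by_cases g11 : (prIn u v : ℝ) * L < d * ((v : ℝ) - u)
      · left
        rw [hB1, mem_filter]
        exact ⟨hpX, hpp, u, v, g4, g5, g9, g7, g11⟩
      · right
        rw [not_lt] at g11
        have g12 := g8 (by rwa [div_le_iff₀ hL0])
        rw [div_lt_iff₀ hL0] at g12
        rw [hB2, mem_filter]
        refine ⟨hpX, hpp, u, v, g4, g5, g10, g7, ?_⟩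
        have g13 : 0 ≤ (v : ℝ) - u := by
          have : (u : ℝ) ≤ v := by exact_mod_cast g4.trans g5
          linarith
        have g14 : (4 + ε / 2) * ((v : ℝ) - u) ≤ (4 + ε) * ((v : ℝ) - u) :=
          mul_le_mul_of_nonneg_right (by linarith) g13
        linarith
    have hcard : (B.card : ℝ) ≤ B1.card + B2.card := by
      have := (card_le_card hsub).trans (card_union_le _ _)
      exact_mod_cast this
    calc (B.card : ℝ) ≤ B1.card + B2.card := hcard
      _ ≤ (2 * d + ε / 2) * X / L + ε / 2 * X / L := add_le_add g1 g2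
      _ = _ := by ring
  · obtain ⟨e, he⟩ : ∃ e, e = min ε 1 := ⟨_, rfl⟩
    have he0 : 0 < e := by rw [he]; exact lt_min hε one_pos
    have he1 : e ≤ 1 := by rw [he]; exact min_le_right _ _
    have heε : e ≤ ε := by rw [he]; exact min_le_left _ _
    obtain ⟨X1, h1⟩ := pnt_two e he0 he1
    obtain ⟨X3, hX3⟩ := Filter.eventually_atTop.1 (ev_log_ge 1)
    refine ⟨1, max X1 X3, le_rfl, fun X hX => ?_⟩
    obtain ⟨-, g2⟩ := h1 X (le_trans (le_max_left _ _) hX)
    have g3 := hX3 X (le_trans (le_max_right _ _) hX)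
    have g4 := g2 X le_rfl
    obtain ⟨L, hL⟩ : ∃ L, L = Real.log X := ⟨_, rfl⟩
    rw [← hL] at g3 g4 ⊢
    have hL0 : 0 < L := by linarith
    rw [le_div_iff₀ hL0]
    refine le_trans (mul_le_mul_of_nonneg_right ?_ hL0.le) (g4.trans ?_)
    · have : (range X).filter (fun p => p.Prime ∧ ¬ ∀ u v : ℕ, u ≤ p → p ≤ v →
          1 * L ≤ (v : ℝ) - u → v ≤ u + X →
          d * ((v : ℝ) - u) / L ≤ prIn u v ∧
          (prIn u v : ℝ) ≤ (4 + ε) * ((v : ℝ) - u) / L) ⊆ (Ioc 0 X).filter Nat.Prime := by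
        intro p hp
        rw [mem_filter, mem_range] at hp
        rw [mem_filter, mem_Ioc]
        exact ⟨⟨hp.2.1.pos, hp.1.le⟩, hp.2.1⟩
      unfold prIn
      exact_mod_cast card_le_card this
    · have hX0 : (0 : ℝ) ≤ X := Nat.cast_nonneg _
      rw [not_lt] at hd2
      have : (1 + e) * X ≤ (2 * d + ε) * X := mul_le_mul_of_nonneg_right (by linarith) hX0
      linarith

end Pool.Agent.H.MP_711652_nt.SH
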