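import Mathlib
import Pool.Agent.H.MP_711652_nt.SH.PrA
import Pool.Agent.H.MP_711652_nt.SH.QsY
import Pool.Agent.H.MP_711652_nt.SH.OneS

set_option autoImplicit false

namespace Pool.Agent.H.MP_711652_nt.SH.ResTwo

open Pool.Agent.H.MP_711652_nt.QW Pool.Agent.H.MP_711652_nt.SH

/-- The number of primes in `(u, v]`. -/
def primesIn (u v : ℕ) : ℕ := ((Finset.Ioc u v).filter Nat.Prime).card

/-- Every interval `(u, v]` around `y`, of length between `C log X` and `X`, has at least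
`δ (v - u) / log X` and at most `(4 + ε) (v - u) / log X` primes. -/
def TwoSided (X : ℕ) (C δ ε : ℝ) (y : ℕ) : Prop :=
  ∀ u v : ℕ, u ≤ y → y ≤ v → C * Real.log X ≤ (v : ℝ) - u → v ≤ u + X →
    δ * ((v : ℝ) - u) / Real.log X ≤ primesIn u v ∧
    (primesIn u v : ℝ) ≤ (4 + ε) * ((v : ℝ) - u) / Real.log X

lemma twoSided_mono (X : ℕ) (C C' δ ε : ℝ) (y : ℕ) (hC : C ≤ C') (hL : 0 ≤ Real.log X)
    (h : TwoSided X C δ ε y) : TwoSided X C' δ ε y := by
  intro u v huy hyv hQ hv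
  exact h u v huy hyv ((mul_le_mul_of_nonneg_right hC hL).trans hQ) hv

/-- The primes around almost all integers, around almost all primes and around a quarter of the
integers, at all scales from the mean gap on. -/
theorem final : ∀ δ ε : ℝ, 0 < δ → δ < 1 → 0 < ε → ∀ A : ℕ, ∃ (C : ℝ) (X₀ : ℕ), 1 ≤ C ∧
    ∀ X : ℕ, X₀ ≤ X →
    (∀ H : ℕ, Real.log X ≤ H → (H : ℝ) ≤ (Real.log X) ^ A →
      ({y : ℕ | y < X ∧ ∃ u v : ℕ, u ≤ y ∧ y ≤ v ∧ u + H ≤ v ∧ v ≤ u + X ∧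
        (4 + ε) * ((v : ℝ) - u) / Real.log X < primesIn u v}.ncard : ℝ) ≤
          C * X * Real.log X / H) ∧
    ({p : ℕ | p < X ∧ p.Prime ∧ ¬ TwoSided X C δ ε p}.ncard : ℝ) ≤
      (2 * δ + ε) * X / Real.log X ∧
    ((1 - 2 * δ) / (4 - 2 * δ) - ε) * X ≤
      ({y : ℕ | y < X ∧ TwoSided X C δ ε y}.ncard : ℝ) ∧
    ((1 - δ) / 4 - ε) * X ≤
      ({y : ℕ | y < X ∧ ∀ h : ℕ, C * Real.log X ≤ h → h ≤ X →
        δ * h / Real.log X ≤ primesIn y (y + h)}.ncard : ℝ) := by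
  classical
  intro δ ε hδ hδ1 hε A
  obtain ⟨C1, X1, hC1, h1⟩ := bt_sharp ε hε A
  obtain ⟨C2, X2, hC2, h2⟩ := prime_sharp δ ε hδ hε
  obtain ⟨C3, X3, hC3, h3⟩ := quarter_sharp_y δ ε hδ hδ1 hε
  obtain ⟨C4, X4, hC4, h4⟩ := one_sharp δ ε hδ hε
  obtain ⟨C, hC⟩ : ∃ C : ℝ, C = C1 + C2 + C3 + C4 := ⟨_, rfl⟩
  refine ⟨C, X1 + X2 + X3 + X4 + 3, by linarith, fun X hX => ?_⟩
  have hX3 : 3 ≤ X := by omega
  have hL : 0 < Real.log X := Real.log_pos (by exact_mod_cast (by omega : 1 < X))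
  have hXr : (0 : ℝ) ≤ X := Nat.cast_nonneg X
  refine ⟨fun H hHL hHA => ?_, ?_, ?_, ?_⟩
  · have hHr : (0 : ℝ) < H := lt_of_lt_of_le hL hHL
    obtain ⟨E, hE, h5⟩ := h1 X (by omega) H hHL hHA
    have hsub : {y : ℕ | y < X ∧ ∃ u v : ℕ, u ≤ y ∧ y ≤ v ∧ u + H ≤ v ∧ v ≤ u + X ∧
        (4 + ε) * ((v : ℝ) - u) / Real.log X < primesIn u v} ⊆ (E : Set ℕ) := by
      rintro y ⟨hy, u, v, huy, hyv, huv, hvX, hlt⟩
      by_contra hyE
      have h6 := h5 y hy (fun h => hyE (Finset.mem_coe.2 h)) u v huy hyv (by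
        have : ((u + H : ℕ) : ℝ) ≤ v := by exact_mod_cast huv
        push_cast at this
        linarith) hvX
      exact absurd hlt (not_lt.2 h6)
    have h6 := Set.ncard_le_ncard hsub (Finset.finite_toSet E)
    rw [Set.ncard_coe_finset] at h6
    have h7 : (({y : ℕ | y < X ∧ ∃ u v : ℕ, u ≤ y ∧ y ≤ v ∧ u + H ≤ v ∧ v ≤ u + X ∧
        (4 + ε) * ((v : ℝ) - u) / Real.log X < primesIn u v}.ncard : ℕ) : ℝ) ≤ E.card := by
      exact_mod_cast h6
    refine h7.trans (hE.trans ?_)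
    apply div_le_div_of_nonneg_right _ hHr.le
    apply mul_le_mul_of_nonneg_right _ hL.le
    apply mul_le_mul_of_nonneg_right _ hXr
    linarith
  · refine le_trans ?_ (h2 X (by omega))
    have h6 : {p : ℕ | p < X ∧ p.Prime ∧ ¬ TwoSided X C δ ε p} ⊆
        (((Finset.range X).filter (fun p => p.Prime ∧ ¬ ∀ u v : ℕ, u ≤ p → p ≤ v →
        C2 * Real.log X ≤ (v : ℝ) - u → v ≤ u + X → δ * ((v : ℝ) - u) / Real.log X ≤ prIn u v ∧
        (prIn u v : ℝ) ≤ (4 + ε) * ((v : ℝ) - u) / Real.log X) : Finset ℕ) : Set ℕ) := by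
      rintro p ⟨hp1, hp2, hp3⟩
      refine Finset.mem_coe.2 (Finset.mem_filter.2 ⟨Finset.mem_range.2 hp1, hp2, fun h7 => ?_⟩)
      exact hp3 (twoSided_mono X C2 C δ ε p (by linarith) hL.le h7)
    have h7 := Set.ncard_le_ncard h6 (Finset.finite_toSet _)
    rw [Set.ncard_coe_finset] at h7
    exact_mod_cast h7
  · refine (h3 X (by omega)).trans ?_
    have h6 : (((Finset.range X).filter (fun y => ∀ u v : ℕ, u ≤ y → y ≤ v →
        C3 * Real.log X ≤ (v : ℝ) - u → v ≤ u + X →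
        δ * ((v : ℝ) - u) / Real.log X ≤ prIn u v ∧
        (prIn u v : ℝ) ≤ (4 + ε) * ((v : ℝ) - u) / Real.log X) : Finset ℕ) : Set ℕ) ⊆
        {y : ℕ | y < X ∧ TwoSided X C δ ε y} := by
      intro y hy
      have hy1 := Finset.mem_filter.1 (Finset.mem_coe.1 hy)
      exact ⟨Finset.mem_range.1 hy1.1, twoSided_mono X C3 C δ ε y (by linarith) hL.le hy1.2⟩
    have h7 := Set.ncard_le_ncard h6 ((Set.finite_lt_nat X).subset fun y hy => hy.1)
    rw [Set.ncard_coe_finset] at h7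
    exact_mod_cast h7
  · refine (h4 X (by omega) (C * Real.log X)
      (mul_le_mul_of_nonneg_right (by linarith) hL.le)).trans ?_
    have h6 : (((Finset.range X).filter (fun y => ∀ v : ℕ, y ≤ v →
        C * Real.log X ≤ (v : ℝ) - y → v ≤ y + X →
        δ * ((v : ℝ) - y) / Real.log X ≤ prIn y v) : Finset ℕ) : Set ℕ) ⊆
        {y : ℕ | y < X ∧ ∀ h : ℕ, C * Real.log X ≤ h → h ≤ X →
          δ * h / Real.log X ≤ primesIn y (y + h)} := by
      intro y hy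
      have hy1 := Finset.mem_filter.1 (Finset.mem_coe.1 hy)
      refine ⟨Finset.mem_range.1 hy1.1, fun h hh1 hh2 => ?_⟩
      have h8 := hy1.2 (y + h) (Nat.le_add_right y h)
      have e1 : ((y + h : ℕ) : ℝ) - y = h := by
        push_cast
        ring
      rw [e1] at h8
      exact h8 hh1 (by omega)
    have h7 := Set.ncard_le_ncard h6 ((Set.finite_lt_nat X).subset fun y hy => hy.1)
    rw [Set.ncard_coe_finset] at h7
    exact_mod_cast h7

end Pool.Agent.H.MP_711652_nt.SH.ResTwo
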